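import Mathlib

/-! Kloosterman's bound and the Fourier expansion of `u ↦ ψ (-u)` at a triple product. -/

namespace Pool.Agent.MP_74e98a_nt.H98

open Finset Complex

variable {F : Type} [Field F] [Fintype F] [DecidableEq F] {ψ : AddChar F ℂ}

theorem orth (hψ : ψ.IsPrimitive) (b : F) :
    ∑ x : F, ψ (x * b) = if b = 0 then (Fintype.card F : ℂ) else 0 := by
  rw [AddChar.sum_mulShift b hψ]; split_ifs <;> simp

theorem parseval2 (hψ : ψ.IsPrimitive) {P : Type} [Fintype P] (u v : P → F) :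
    ∑ a : F, ∑ b : F, ‖∑ p, ψ (a * u p + b * v p)‖ ^ 2 =
      (Fintype.card F : ℝ) ^ 2 *
        (univ.filter fun x : P × P => u x.1 = u x.2 ∧ v x.1 = v x.2).card := by
  apply ofReal_injective
  have e : ∀ a b : F, ((‖∑ p, ψ (a * u p + b * v p)‖ ^ 2 : ℝ) : ℂ) =
      ∑ x : P × P, ψ (a * (u x.1 - u x.2)) * ψ (b * (v x.1 - v x.2)) := by
    intro a b
    rw [← normSq_eq_norm_sq, ← mul_conj, map_sum, sum_mul_sum, Fintype.sum_prod_type]
    refine sum_congr rfl fun p _ => sum_congr rfl fun p' _ => ?_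
    rw [← AddChar.map_neg_eq_conj, ← AddChar.map_add_eq_mul, ← AddChar.map_add_eq_mul]
    congr 1; ring
  simp only [ofReal_sum, e]
  rw [sum_comm]
  have e2 : ∀ b : F, ∑ a : F, ∑ x : P × P, ψ (a * (u x.1 - u x.2)) * ψ (b * (v x.1 - v x.2)) =
      ∑ x : P × P, (∑ a : F, ψ (a * (u x.1 - u x.2))) * ψ (b * (v x.1 - v x.2)) := by
    intro b; rw [sum_comm]; simp only [sum_mul]
  simp only [e2]
  rw [sum_comm]
  simp only [← mul_sum, orth hψ, sub_eq_zero]
  rw [card_filter]
  push_cast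
  rw [mul_sum]
  refine sum_congr rfl fun x _ => ?_
  by_cases h1 : u x.1 = u x.2 <;> by_cases h2 : v x.1 = v x.2 <;> simp [h1, h2, sq]

/-- Kloosterman's sum -/
noncomputable def Kl (ψ : AddChar F ℂ) (a b : F) : ℂ := ∑ x : Fˣ, ψ (a * x + b * (x : F)⁻¹)

theorem count4 :
    (univ.filter fun x : (Fˣ × Fˣ) × Fˣ × Fˣ => (x.1.1 : F) + x.1.2 = x.2.1 + x.2.2 ∧
      (x.1.1 : F)⁻¹ + (x.1.2 : F)⁻¹ = (x.2.1 : F)⁻¹ + (x.2.2 : F)⁻¹).card ≤
      3 * Fintype.card Fˣ ^ 2 := by
  have hc : ∀ f : Fˣ × Fˣ → (Fˣ × Fˣ) × Fˣ × Fˣ, (univ.image f).card ≤ Fintype.card Fˣ ^ 2 :=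
    fun f => card_image_le.trans (by simp [sq])
  refine le_trans (card_le_card (t := univ.image (fun p : Fˣ × Fˣ => (p, p)) ∪
    univ.image (fun p : Fˣ × Fˣ => (p, p.swap)) ∪
    univ.image (fun p : Fˣ × Fˣ => ((p.1, -p.1), (p.2, -p.2)))) ?_) ?_
  · rintro ⟨⟨a, b⟩, c, d⟩ h
    simp only [mem_filter, mem_univ, true_and] at h
    obtain ⟨h1, h2⟩ := h
    simp only [mem_union, mem_image, mem_univ, true_and, Prod.mk.injEq, Prod.exists, Prod.swap]
    have ha := a.ne_zero
    have hb := b.ne_zero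
    have hc := c.ne_zero
    have hd := d.ne_zero
    by_cases h0 : (a : F) + b = 0
    · refine Or.inr ⟨a, c, ⟨rfl, Units.ext ?_⟩, rfl, Units.ext ?_⟩
      · simp only [Units.val_neg]; linear_combination -h0
      · simp only [Units.val_neg]; linear_combination h1 - h0
    · have h3 : (a : F) * b = c * d := by
        field_simp at h2
        have : ((a : F) + b) * (a * b - c * d) = 0 := by
          linear_combination -h2 + (a : F) * b * h1
        exact sub_eq_zero.1 ((mul_eq_zero.1 this).resolve_left h0)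
      have h4 : ((c : F) - a) * (c - b) = 0 := by linear_combination h3 - (c : F) * h1
      rcases mul_eq_zero.1 h4 with h | h
      · refine Or.inl (Or.inl ⟨a, b, ⟨rfl, rfl⟩, Units.ext ?_, Units.ext ?_⟩)
        · linear_combination -h
        · linear_combination h1 + h
      · refine Or.inl (Or.inr ⟨a, b, ⟨rfl, rfl⟩, Units.ext ?_, Units.ext ?_⟩)
        · linear_combination -h
        · linear_combination h1 + h
  · have := hc fun p => (p, p)
    have := hc fun p => (p, p.swap)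
    have := hc fun p => ((p.1, -p.1), (p.2, -p.2))
    refine (card_union_le _ _).trans ((add_le_add (card_union_le _ _) le_rfl).trans ?_)
    omega

theorem Kl_four (hψ : ψ.IsPrimitive) :
    ∑ a : F, ∑ b : F, ‖Kl ψ a b‖ ^ 4 ≤
      (Fintype.card F : ℝ) ^ 2 * (3 * (Fintype.card Fˣ : ℝ) ^ 2) := by
  have h := parseval2 hψ (P := Fˣ × Fˣ) (fun p => (p.1 : F) + p.2)
    (fun p => (p.1 : F)⁻¹ + (p.2 : F)⁻¹)
  have e : ∀ a b : F, ‖Kl ψ a b‖ ^ 4 = ‖∑ p : Fˣ × Fˣ, ψ (a * ((p.1 : F) + p.2) +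
      b * ((p.1 : F)⁻¹ + (p.2 : F)⁻¹))‖ ^ 2 := by
    intro a b
    rw [show 4 = 2 * 2 from rfl, pow_mul, ← norm_pow, sq (Kl ψ a b), Kl, sum_mul_sum,
      Fintype.sum_prod_type]
    congr 2
    refine sum_congr rfl fun p _ => sum_congr rfl fun p' _ => ?_
    rw [← AddChar.map_add_eq_mul]
    congr 1; ring
  simp only [e, h]
  gcongr
  have := (Nat.cast_le (α := ℝ)).2 (count4 (F := F))
  simpa only [Nat.cast_mul, Nat.cast_pow, Nat.cast_ofNat] using this

theorem Kl_scale (a b : F) (c : Fˣ) : Kl ψ (a * c) (b * (c : F)⁻¹) = Kl ψ a b := by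
  unfold Kl
  refine Fintype.sum_equiv (Equiv.mulLeft c) _ _ fun x => ?_
  simp only [Equiv.coe_mulLeft, Units.val_mul, mul_inv]
  congr 1; ring

theorem Kl_le (hψ : ψ.IsPrimitive) {a : F} (ha : a ≠ 0) (b : F) :
    ‖Kl ψ a b‖ ≤ 2 * (Fintype.card F : ℝ) ^ (3 / 4 : ℝ) := by
  set q : ℝ := (Fintype.card F : ℝ) with hq
  have hq0 : 0 < q := by rw [hq]; exact_mod_cast Fintype.card_pos
  have hu0 : (0 : ℝ) < Fintype.card Fˣ := by exact_mod_cast Fintype.card_pos
  have hu : (Fintype.card Fˣ : ℝ) ≤ q := by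
    rw [hq]; exact_mod_cast Fintype.card_le_of_injective _ Units.val_injective
  have h1 : (Fintype.card Fˣ : ℝ) * ‖Kl ψ a b‖ ^ 4 ≤ ∑ a : F, ∑ b : F, ‖Kl ψ a b‖ ^ 4 := by
    rw [← Fintype.sum_prod_type']
    calc _ = ∑ c : Fˣ, ‖Kl ψ (a * c) (b * (c : F)⁻¹)‖ ^ 4 := by simp [Kl_scale]
      _ = ∑ x ∈ univ.image fun c : Fˣ => (a * c, b * (c : F)⁻¹), ‖Kl ψ x.1 x.2‖ ^ 4 := by
        rw [sum_image]
        intro c _ c' _ h
        exact Units.ext (mul_left_cancel₀ ha (Prod.mk.inj h).1)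
      _ ≤ _ := sum_le_sum_of_subset_of_nonneg (subset_univ _) fun _ _ _ => by positivity
  have h2 := h1.trans (Kl_four hψ)
  have h3 : ‖Kl ψ a b‖ ^ 4 ≤ 3 * q ^ 3 := by
    refine le_of_mul_le_mul_left (h2.trans ?_) hu0
    rw [← hq]
    calc _ = Fintype.card Fˣ * (3 * q ^ 2 * Fintype.card Fˣ) := by ring
      _ ≤ Fintype.card Fˣ * (3 * q ^ 2 * q) := by gcongr
      _ = _ := by ring
  refine le_of_pow_le_pow_left₀ (n := 4) (by norm_num) (by positivity) (h3.trans ?_)
  rw [mul_pow, ← Real.rpow_natCast (q ^ _), ← Real.rpow_mul hq0.le]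
  norm_num
  have : 0 < q ^ 3 := by positivity
  linarith

/-- characters with the trivial one removed -/
noncomputable def er (ψ : AddChar F ℂ) (r x : F) : ℂ := if r = 0 then 0 else ψ (r * x)

theorem sum_er (hψ : ψ.IsPrimitive) (r : F) : ∑ x, er ψ r x = 0 := by
  unfold er
  split_ifs with h
  · simp
  · simp only [mul_comm r, orth hψ, if_neg h]

/-- Fourier coefficient -/
noncomputable def hat (ψ : AddChar F ℂ) (g : F → ℂ) (r : F) : ℂ :=
  (Fintype.card F : ℂ)⁻¹ * ∑ x, g x * ψ (-(r * x))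

theorem inv1 (hψ : ψ.IsPrimitive) {g : F → ℂ} (hg : ∑ x, g x = 0) (x : F) :
    g x = ∑ r, hat ψ g r * er ψ r x := by
  have hq : (Fintype.card F : ℂ) ≠ 0 := by exact_mod_cast Fintype.card_ne_zero
  have e : ∀ r, hat ψ g r * er ψ r x =
      (Fintype.card F : ℂ)⁻¹ * ∑ y, g y * ψ (r * (x - y)) := by
    intro r
    unfold hat er
    split_ifs with h
    · simp [h, hg]
    · rw [mul_assoc, sum_mul]
      congr 1
      refine sum_congr rfl fun y _ => ?_
      rw [mul_assoc, ← AddChar.map_add_eq_mul]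
      congr 2; ring
  simp only [e]
  rw [← mul_sum, sum_comm]
  simp only [← mul_sum, orth hψ, sub_eq_zero]
  rw [sum_eq_single x (fun y _ h => by simp [h.symm]) (by simp)]
  simp only [if_true]
  field_simp

/-- the mean of `ψ (-u)` over the orbits of the multiplicative group -/
noncomputable def wt (F : Type) [Field F] [Fintype F] [DecidableEq F] (u : F) : ℝ :=
  if u = 0 then 1 else -1 / ((Fintype.card F : ℝ) - 1)

omit [DecidableEq F] in
theorem card_sub_pos : (0 : ℝ) < (Fintype.card F : ℝ) - 1 := by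
  have : (1 : ℝ) < Fintype.card F := by exact_mod_cast Fintype.one_lt_card
  linarith

theorem wt_eq (u : F) : (wt F u : ℂ) = (if u = 0 then (Fintype.card F : ℂ) /
    ((Fintype.card F : ℂ) - 1) else 0) - 1 / ((Fintype.card F : ℂ) - 1) := by
  have h : (Fintype.card F : ℂ) - 1 ≠ 0 := by exact_mod_cast (card_sub_pos (F := F)).ne'
  unfold wt
  split_ifs
  · push_cast; field_simp
  · push_cast; ring

/-- the oscillating part -/
noncomputable def Ph (ψ : AddChar F ℂ) (u : F) : ℂ := ψ (-u) - wt F u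

theorem sum_Ph (hψ : ψ.IsPrimitive) (c : F) : ∑ x, Ph ψ (x * c) = 0 := by
  by_cases hc : c = 0
  · simp [hc, Ph, wt]
  · have h := orth hψ (-c)
    simp only [mul_neg, neg_eq_zero, if_neg hc] at h
    simp only [Ph, sum_sub_distrib, h, wt_eq, mul_eq_zero, hc, or_false]
    simp
    ring

theorem hat_Ph (hψ : ψ.IsPrimitive) (c : F) {t : F} (ht : t ≠ 0) :
    hat ψ (fun z => Ph ψ (c * z)) t =
      (if c = -t then 1 else 0) - if c = 0 then 0 else 1 / ((Fintype.card F : ℂ) - 1) := by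
  have hq : (Fintype.card F : ℂ) ≠ 0 := by exact_mod_cast Fintype.card_ne_zero
  have h0 := orth hψ (-t)
  simp only [mul_neg, neg_eq_zero, if_neg ht] at h0
  simp only [mul_comm _ t] at h0
  have h1 : ∑ z, ψ (-(c * z)) * ψ (-(t * z)) = if c = -t then (Fintype.card F : ℂ) else 0 := by
    have := orth hψ (-(c + t))
    simp only [neg_eq_zero, add_eq_zero_iff_eq_neg] at this
    rw [← this]
    refine sum_congr rfl fun z _ => ?_
    rw [← AddChar.map_add_eq_mul]
    congr 1; ring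
  simp only [hat, Ph, sub_mul, sum_sub_distrib, h1, wt_eq, ← mul_sum, h0]
  by_cases hc : c = 0
  · simp only [hc, zero_mul, if_true, ← mul_sum, h0]
    split_ifs <;> simp [hq]
  · simp only [mul_eq_zero, hc, false_or, ite_mul, zero_mul, sum_ite_eq', mem_univ, if_true,
      if_false]
    split_ifs <;> simp <;> field_simp

theorem hat2_Ph (hψ : ψ.IsPrimitive) (x : F) {s t : F} (hs : s ≠ 0) (ht : t ≠ 0) :
    hat ψ (fun y => hat ψ (fun z => Ph ψ (x * y * z)) t) s = if x = 0 then 0 else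
      (Fintype.card F : ℂ)⁻¹ * (ψ (s * t * x⁻¹) + 1 / ((Fintype.card F : ℂ) - 1)) := by
  simp only [hat_Ph hψ _ ht]
  unfold hat
  split_ifs with hx
  · simp [hx, ht]
  · congr 1
    have h0 := orth hψ (-s)
    simp only [mul_neg, neg_eq_zero, if_neg hs] at h0
    simp only [mul_comm _ s] at h0
    have e1 : ∀ y, x * y = -t ↔ y = -t * x⁻¹ := fun y => by
      constructor
      · intro h; rw [← h]; field_simp
      · rintro rfl; field_simp
    have e2 : ∀ y : F, (if x * y = 0 then 0 else 1 / ((Fintype.card F : ℂ) - 1)) =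
        1 / ((Fintype.card F : ℂ) - 1) - if y = 0 then 1 / ((Fintype.card F : ℂ) - 1) else 0 := by
      intro y
      by_cases hy : y = 0 <;> simp [hx, hy]
    simp only [e1, e2, sub_mul, sum_sub_distrib, ite_mul, zero_mul, sum_ite_eq', mem_univ, if_true,
      ← mul_sum, h0]
    simp only [one_mul, mul_zero, neg_zero, AddChar.map_zero_eq_one, mul_one, zero_sub,
      sub_neg_eq_add]
    congr 2; ring

theorem expand3 (hψ : ψ.IsPrimitive) : ∃ K : F → F → F → ℂ,
    (∀ r s t, ‖K r s t‖ ≤ 3 * (Fintype.card F : ℝ) ^ (-(5 / 4) : ℝ)) ∧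
    ∀ x y z, Ph ψ (x * y * z) = ∑ r, ∑ s, ∑ t, K r s t * (er ψ r x * er ψ s y * er ψ t z) := by
  set K0 : F → F → F → ℂ := fun r s t =>
    hat ψ (fun x => hat ψ (fun y => hat ψ (fun z => Ph ψ (x * y * z)) t) s) r with hK0
  refine ⟨fun r s t => if r ≠ 0 ∧ s ≠ 0 ∧ t ≠ 0 then K0 r s t else 0, fun r s t => ?_,
    fun x y z => ?_⟩
  · dsimp only
    split_ifs with h
    · obtain ⟨hr, hs, ht⟩ := h
      set q : ℝ := (Fintype.card F : ℝ) with hq
      have hq1 : 1 < q := by rw [hq]; exact_mod_cast Fintype.one_lt_card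
      have e : K0 r s t = (q : ℂ)⁻¹ * ((q : ℂ)⁻¹ * (Kl ψ (-r) (s * t) +
          1 / ((q : ℂ) - 1) * ∑ x : Fˣ, ψ (-(r * x)))) := by
        simp only [hK0, hat2_Ph hψ _ hs ht]
        unfold hat Kl
        rw [hq]
        push_cast
        congr 1
        rw [mul_sum, ← sum_add_distrib, mul_sum, ← sum_subset (subset_univ (univ.erase 0))
          (by simp +contextual)]
        symm
        refine sum_bij (fun x _ => (x : F)) (by simp) (fun _ _ _ _ h => Units.ext h)
          (fun b hb => ⟨Units.mk0 b (by simpa using hb), by simp⟩) fun x _ => ?_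
        rw [if_neg x.ne_zero, AddChar.map_add_eq_mul, neg_mul]
        ring
      have h1 : ‖1 / ((q : ℂ) - 1) * ∑ x : Fˣ, ψ (-(r * x))‖ ≤ 1 := by
        rw [norm_mul, norm_div, norm_one, show (q : ℂ) - 1 = ((q - 1 : ℝ) : ℂ) by push_cast; rfl,
          norm_real, Real.norm_of_nonneg (by linarith), one_div, inv_mul_le_iff₀ (by linarith)]
        refine (norm_sum_le _ _).trans (le_of_eq ?_)
        simp only [AddChar.norm_apply, sum_const, card_univ, Fintype.card_units, nsmul_eq_mul,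
          mul_one]
        rw [Nat.cast_sub Fintype.card_pos, hq, Nat.cast_one]
      have h2 := Kl_le hψ (neg_ne_zero.2 hr) (s * t)
      have h3 : 1 ≤ q ^ (3 / 4 : ℝ) := Real.one_le_rpow hq1.le (by norm_num)
      have h4 : q ^ (-(5 / 4) : ℝ) = q⁻¹ * (q⁻¹ * q ^ (3 / 4 : ℝ)) := by
        rw [← Real.rpow_neg_one, ← Real.rpow_add (by linarith), ← Real.rpow_add (by linarith)]
        norm_num
      rw [e, h4, norm_mul, norm_mul, norm_inv, norm_real, Real.norm_of_nonneg (by linarith)]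
      have h5 := (norm_add_le _ _).trans (add_le_add h2 h1)
      rw [← hq] at h5
      calc _ ≤ q⁻¹ * (q⁻¹ * (3 * q ^ (3 / 4 : ℝ))) := by gcongr; linarith
        _ = _ := by ring
    · simp only [norm_zero]; positivity
  · have s3 : ∀ x y, ∑ z, Ph ψ (x * y * z) = 0 := fun x y => by
      simpa only [mul_comm] using sum_Ph hψ (x * y)
    have hs : ∀ (g : F → F → ℂ) (t : F), (∀ z, ∑ y, g y z = 0) → ∑ y, hat ψ (g y) t = 0 := by
      intro g t h
      unfold hat
      rw [← mul_sum, sum_comm]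
      simp [← sum_mul, h]
    have s2 : ∀ x t, ∑ y, hat ψ (fun z => Ph ψ (x * y * z)) t = 0 := fun x t =>
      hs _ t fun z => by
        simpa only [mul_comm, mul_left_comm, mul_assoc] using sum_Ph hψ (x * z)
    have s1 : ∀ s t, ∑ x, hat ψ (fun y => hat ψ (fun z => Ph ψ (x * y * z)) t) s = 0 :=
      fun s t => hs _ s fun y => hs _ t fun z => by
        simpa only [mul_assoc] using sum_Ph hψ (y * z)
    have e : ∀ r s t, (if r ≠ 0 ∧ s ≠ 0 ∧ t ≠ 0 then K0 r s t else 0) *
        (er ψ r x * er ψ s y * er ψ t z) = K0 r s t * er ψ r x * er ψ s y * er ψ t z := by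
      intro r s t
      split_ifs with h
      · ring
      · by_cases hr : r = 0
        · simp [er, hr]
        · by_cases hs : s = 0
          · simp [er, hs]
          · have : t = 0 := by tauto
            simp [er, this]
    simp only [e]
    rw [sum_comm]
    simp only [sum_comm (s := univ) (t := univ)
      (f := fun r t => K0 r _ t * er ψ r x * er ψ _ y * er ψ t z)]
    rw [sum_comm]
    simp only [← sum_mul, hK0]
    simp only [← inv1 hψ (s1 _ _), ← inv1 hψ (s2 _ _), ← inv1 hψ (s3 _ _)]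

end Pool.Agent.MP_74e98a_nt.H98
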