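import Pool.Agent.MP_6f2ed2_nt.H35.Gamma
import Pool.Agent.MP_6f2ed2_nt.H1.Contour
import Pool.Agent.MP_ca0a54_nt.L0.ZetaA

/-! The kernel `Γ(s + k) exp (-s W)`: decay, contour shift and Mellin inversion. -/

namespace Pool.Agent.MP_74e98a_nt.H98

open Complex Filter Topology Set MeasureTheory
open scoped Real Nat
open Pool.Agent.MP_6f2ed2_nt

theorem pow_exp_le (m : ℕ) {ε : ℝ} (hε : 0 < ε) (t : ℝ) :
    (1 + |t|) ^ m * Real.exp (-(ε * |t|)) ≤
      ((m + 2)! * Real.exp ε / ε ^ (m + 2)) * (1 + t ^ 2)⁻¹ := by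
  have h0 := abs_nonneg t
  have h := Real.pow_div_factorial_le_exp (ε * (1 + |t|)) (by positivity) (m + 2)
  rw [div_le_iff₀ (by positivity), mul_pow, mul_add, mul_one, Real.exp_add] at h
  have h2 : 1 + t ^ 2 ≤ (1 + |t|) ^ 2 := by nlinarith [sq_abs t]
  rw [Real.exp_neg, ← div_eq_mul_inv, ← div_eq_mul_inv, div_div,
    div_le_div_iff₀ (by positivity) (by positivity)]
  calc _ ≤ (1 + |t|) ^ m * (ε ^ (m + 2) * (1 + |t|) ^ 2) := by gcongr
    _ = ε ^ (m + 2) * (1 + |t|) ^ (m + 2) := by ring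
    _ ≤ _ := h.trans (le_of_eq (by ring))

theorem shift0 {f : ℂ → ℂ} {a b C : ℝ} (hab : a ≤ b)
    (hf : ∀ z : ℂ, a ≤ z.re → z.re ≤ b → DifferentiableAt ℂ f z)
    (h : ∀ σ t : ℝ, a ≤ σ → σ ≤ b → ‖f (σ + t * I)‖ ≤ C * (1 + t ^ 2)⁻¹) :
    (∀ σ : ℝ, a ≤ σ → σ ≤ b → Integrable fun t : ℝ => f (σ + t * I)) ∧
      ∫ t : ℝ, f (a + t * I) = ∫ t : ℝ, f (b + t * I) := by
  have hi : ∀ σ : ℝ, a ≤ σ → σ ≤ b → Integrable fun t : ℝ => f (σ + t * I) := by
    intro σ h1 h2
    refine (integrable_inv_one_add_sq.const_mul C).mono' (Continuous.aestronglyMeasurable ?_)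
      (Eventually.of_forall fun t => h σ t h1 h2)
    refine continuous_iff_continuousAt.2 fun t => ?_
    exact ContinuousAt.comp (f := fun t : ℝ => (σ + t * I : ℂ))
      (hf _ (by simpa) (by simpa)).continuousAt (by fun_prop)
  refine ⟨hi, ?_⟩
  have t0 := intervalIntegral_tendsto_integral (hi a le_rfl hab) tendsto_neg_atTop_atBot tendsto_id
  have t1 := intervalIntegral_tendsto_integral (hi b hab le_rfl) tendsto_neg_atTop_atBot tendsto_id
  have hv : ∀ s : ℝ, s ^ 2 = 1 →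
      Tendsto (fun T : ℝ => ∫ x : ℝ in a..b, f (x + (s * T : ℝ) * I)) atTop (𝓝 0) := by
    intro s hs
    have h1 : Tendsto (fun T : ℝ => C * (1 + T ^ 2)⁻¹ * |b - a|) atTop (𝓝 0) := by
      have := tendsto_inv_atTop_zero.comp (tendsto_atTop_add_const_left atTop (1 : ℝ)
        (tendsto_pow_atTop (α := ℝ) two_ne_zero))
      simpa using (this.const_mul C).mul_const |b - a|
    refine squeeze_zero_norm (fun T => intervalIntegral.norm_integral_le_of_norm_le_const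
      fun x hx => ?_) h1
    rw [uIoc_of_le hab] at hx
    simpa [mul_pow, hs] using h x (s * T) hx.1.le hx.2
  have key := (((hv (-1) (by simp)).sub (hv 1 (by simp))).add (t1.const_mul I)).sub
    (t0.const_mul I)
  have e := tendsto_nhds_unique key (tendsto_const_nhds.congr fun T => by
    have := H1.rectInt_eq_zero f a b (-T) T fun z hz =>
      (hf z (by have := hz.1; rw [uIcc_of_le hab] at this; exact this.1)
        (by have := hz.1; rw [uIcc_of_le hab] at this; exact this.2)).differentiableWithinAt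
    simpa [H1.rectInt] using this.symm)
  simp only [sub_self, zero_add, ← mul_sub, mul_eq_zero, I_ne_zero, false_or] at e
  exact (sub_eq_zero.1 e).symm

theorem exp_re_pos {w : ℂ} (hw : |w.im| < π / 2) : 0 < (exp w).re := by
  have h := abs_lt.mp hw
  rw [exp_re]; exact mul_pos (Real.exp_pos _) (Real.cos_pos_of_mem_Ioo ⟨h.1, h.2⟩)

theorem ker_le {s w : ℂ} (hs : 0 < s.re) (hw : |w.im| < π / 2) :
    ‖Gamma s * exp (-(s * w))‖ ≤ (1 / (exp w).re) ^ s.re * Real.Gamma s.re := by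
  rw [mul_comm, ← H35.gamma_exp hs hw, ← Real.integral_rpow_mul_exp_neg_mul_Ioi hs (exp_re_pos hw)]
  refine (norm_integral_le_integral_norm _).trans (le_of_eq ?_)
  refine setIntegral_congr_fun measurableSet_Ioi fun t ht => ?_
  rw [norm_mul, norm_cpow_eq_rpow_re_of_pos ht, norm_exp]
  simp

theorem ker_decay {W : ℂ} (hW : |W.im| < π / 2) {a : ℝ} (ha : 0 < a) (b : ℝ) :
    ∃ C ε : ℝ, 0 < ε ∧ ∀ σ t : ℝ, a ≤ σ → σ ≤ b →
      ‖Gamma (σ + t * I) * exp (-((σ + t * I) * W))‖ ≤ C * Real.exp (-(ε * |t|)) := by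
  set ε : ℝ := (π / 2 - |W.im|) / 2 with hε
  have hε0 : 0 < ε := by linarith
  have hb : ∀ δ : ℝ, |δ| = ε → ∃ C : ℝ, ∀ σ t : ℝ, a ≤ σ → σ ≤ b →
      ‖Gamma (σ + t * I) * exp (-((σ + t * I) * W))‖ ≤ C * Real.exp (-(δ * t)) := by
    intro δ hδ
    have hw : |(W + δ * I).im| < π / 2 := by
      have := abs_add_le W.im δ
      simp only [add_im, mul_im, ofReal_re, I_im, mul_one, ofReal_im, I_re, mul_zero, add_zero]
      linarith
    have hp := exp_re_pos hw
    have hc : ContinuousOn (fun σ : ℝ => (1 / (exp (W + δ * I)).re) ^ σ * Real.Gamma σ)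
        (Icc a b) := by
      refine ContinuousOn.mul (Continuous.continuousOn ?_) fun x hx => ?_
      · exact Real.continuous_const_rpow (by positivity)
      · refine (Real.differentiableAt_Gamma fun m h => ?_).continuousAt.continuousWithinAt
        have h2 : (0 : ℝ) ≤ m := Nat.cast_nonneg m
        linarith [hx.1]
    obtain ⟨C, hC⟩ := isCompact_Icc.exists_bound_of_continuousOn hc
    refine ⟨C, fun σ t h1 h2 => ?_⟩
    have e : Gamma (σ + t * I) * exp (-((σ + t * I) * W)) =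
        Gamma (σ + t * I) * exp (-((σ + t * I) * (W + δ * I))) * exp ((σ + t * I) * (δ * I)) := by
      rw [mul_assoc, ← exp_add]; congr 2; ring
    have h3 := ker_le (s := σ + t * I) (by simp; linarith) hw
    simp only [add_re, ofReal_re, mul_re, I_re, mul_zero, ofReal_im, I_im, mul_one, sub_self,
      add_zero] at h3
    rw [e, norm_mul, norm_exp]
    refine mul_le_mul (h3.trans ((le_abs_self _).trans (hC σ ⟨h1, h2⟩))) (le_of_eq ?_)
      (Real.exp_pos _).le ((norm_nonneg _).trans (hC σ ⟨h1, h2⟩))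
    simp [mul_comm]
  obtain ⟨C1, h1⟩ := hb ε (abs_of_pos hε0)
  obtain ⟨C2, h2⟩ := hb (-ε) (by rw [abs_neg, abs_of_pos hε0])
  refine ⟨max C1 C2, ε, hε0, fun σ t ha hb => ?_⟩
  rcases le_total 0 t with h | h
  · rw [abs_of_nonneg h]
    exact (h1 σ t ha hb).trans (by gcongr; exact le_max_left _ _)
  · rw [abs_of_nonpos h, mul_neg, ← neg_mul ε t]
    exact (h2 σ t ha hb).trans (by gcongr; exact le_max_right _ _)

/-- the kernel -/
noncomputable def G (k : ℕ) (W s : ℂ) : ℂ := Gamma (s + k) * exp (-(s * W))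

theorem G_eq (k : ℕ) (W : ℂ) (σ t : ℝ) : G k W (σ + t * I) = exp (k * W) *
    (Gamma ((σ + k : ℝ) + t * I) * exp (-(((σ + k : ℝ) + t * I) * W))) := by
  rw [G, mul_left_comm, ← exp_add]
  congr 2 <;> push_cast <;> ring

theorem G_diff (k : ℕ) (W : ℂ) {s : ℂ} (hs : 0 < s.re + k) : DifferentiableAt ℂ (G k W) s := by
  unfold G
  refine DifferentiableAt.mul (DifferentiableAt.comp s (differentiableAt_Gamma _ fun m h => ?_)
    (by fun_prop)) (by fun_prop)
  have := congrArg re h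
  simp only [add_re, natCast_re, neg_re] at this
  linarith [m.cast_nonneg (α := ℝ)]

theorem master {F : ℂ → ℂ} {W : ℂ} (hW : |W.im| < π / 2) {k m : ℕ} {a b C : ℝ} (ha : 0 < a + k)
    (hab : a ≤ b) (hF : ∀ z : ℂ, a ≤ z.re → z.re ≤ b → DifferentiableAt ℂ F z)
    (h : ∀ σ t : ℝ, a ≤ σ → σ ≤ b → ‖F (σ + t * I)‖ ≤ C * (1 + |t|) ^ m) :
    (∀ σ : ℝ, a ≤ σ → σ ≤ b → Integrable fun t : ℝ => F (σ + t * I) * G k W (σ + t * I)) ∧
      ∫ t : ℝ, F (a + t * I) * G k W (a + t * I) = ∫ t : ℝ, F (b + t * I) * G k W (b + t * I) := by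
  obtain ⟨D, ε, hε, hD⟩ := ker_decay hW ha (b + k)
  have hC : 0 ≤ C := by simpa using (norm_nonneg _).trans (h a 0 le_rfl hab)
  have hD0 : 0 ≤ D := by simpa using (norm_nonneg _).trans (hD (a + k) 0 le_rfl (by linarith))
  refine shift0 (f := fun z => F z * G k W z) hab
    (C := C * (‖exp (k * W)‖ * D) * ((m + 2)! * Real.exp ε / ε ^ (m + 2)))
    (fun z h1 h2 => (hF z h1 h2).mul (G_diff k W (by linarith))) fun σ t h1 h2 => ?_
  rw [norm_mul, G_eq, norm_mul]
  have := hD (σ + k) t (by linarith) (by linarith)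
  calc _ ≤ C * (1 + |t|) ^ m * (‖exp (k * W)‖ * (D * Real.exp (-(ε * |t|)))) := by
        gcongr; exact h σ t h1 h2
    _ = C * (‖exp (k * W)‖ * D) * ((1 + |t|) ^ m * Real.exp (-(ε * |t|))) := by ring
    _ ≤ _ := by
        rw [mul_assoc _ _ (1 + t ^ 2)⁻¹]
        exact mul_le_mul_of_nonneg_left (pow_exp_le m hε t) (by positivity)

theorem int_G {W : ℂ} (hW : |W.im| < π / 2) {k : ℕ} {σ : ℝ} (hσ : 0 < σ + k) :
    Integrable fun t : ℝ => G k W (σ + t * I) := by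
  simpa using (master (F := fun _ => 1) (m := 0) (C := 1) hW hσ le_rfl (by fun_prop)
    (by simp)).1 σ le_rfl le_rfl

theorem cahen {W : ℂ} (hW : |W.im| < π / 2) {k : ℕ} {σ : ℝ} (hσ : 0 < σ + k) :
    ∫ t : ℝ, G k W (σ + t * I) = 2 * π * (exp W ^ k * exp (-exp W)) := by
  let f0 : ℝ → ℂ := fun r => exp (-(exp W * r))
  have hm : ∀ y : ℝ, mellin f0 (((σ + k : ℝ) : ℂ) + y * I) =
      exp (-(k * W)) * G k W (σ + y * I) := by
    intro y
    rw [mellin]
    simp only [smul_eq_mul, f0]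
    rw [H35.gamma_exp (by simpa) hW, G_eq, ← mul_assoc, ← exp_add, mul_comm]
    simp
  have hinv := mellinInv_mellin_eq (σ + k) f0 (x := 1) one_pos
    (H35.integrableOn_gamma (by simpa) (exp_re_pos hW)) (by
      unfold VerticalIntegrable
      simp only [hm]
      exact (int_G hW hσ).const_mul _) (by fun_prop)
  rw [mellinInv] at hinv
  simp only [hm, ofReal_one, one_cpow, one_smul, integral_const_mul, f0, mul_one] at hinv
  rw [← hinv, ← exp_nat_mul, exp_neg, real_smul]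
  generalize (∫ t : ℝ, G k W (σ + t * I)) = J
  have hπ : (π : ℂ) ≠ 0 := ofReal_ne_zero.mpr Real.pi_pos.ne'
  have := exp_ne_zero (k * W)
  push_cast
  field_simp

theorem series {ι : Type} [Countable ι] {W : ℂ} (hW : |W.im| < π / 2) (k : ℕ) {c : ι → ℂ}
    {n : ι → ℝ} (hn : ∀ i, 0 < n i) (hc : Summable fun i => ‖c i‖ / n i ^ 2) :
    HasSum (fun i => 2 * π * (c i * ((n i * exp W) ^ k * exp (-(n i * exp W)))))
      (∫ t : ℝ, (∑' i, c i * exp (-(((2 : ℝ) + t * I) * Real.log (n i)))) *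
        G k W ((2 : ℝ) + t * I)) := by
  have hk : (0 : ℝ) < 2 + k := by positivity
  have e : ∀ i (t : ℝ), c i * exp (-(((2 : ℝ) + t * I) * Real.log (n i))) *
      G k W ((2 : ℝ) + t * I) = c i * G k (W + Real.log (n i)) ((2 : ℝ) + t * I) := by
    intro i t
    rw [G, G, mul_assoc, mul_left_comm (exp _), ← exp_add]
    congr 3; ring
  have hW' : ∀ i, |(W + Real.log (n i)).im| < π / 2 := fun i => by
    simpa only [add_im, ofReal_im, add_zero] using hW
  have h := hasSum_integral_of_summable_integral_norm (μ := volume)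
    (F := fun i (t : ℝ) => c i * exp (-(((2 : ℝ) + t * I) * Real.log (n i))) *
      G k W ((2 : ℝ) + t * I))
    (fun i => by simp only [e]; exact (int_G (hW' i) hk).const_mul _) (by
      refine (hc.mul_right (∫ t : ℝ, ‖G k W ((2 : ℝ) + t * I)‖)).congr fun i => ?_
      rw [← integral_const_mul]
      congr 1 with t
      rw [norm_mul, norm_mul, norm_exp]
      congr 1
      have : (-(((2 : ℝ) + t * I) * Real.log (n i) : ℂ)).re = -((2 : ℕ) * Real.log (n i)) := by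
        simp only [neg_re, mul_re, add_re, ofReal_re, I_re, mul_zero, ofReal_im, I_im, mul_one,
          sub_self, add_zero, sub_zero, Nat.cast_ofNat]
      rw [this, Real.exp_neg, Real.exp_nat_mul, Real.exp_log (hn i), div_eq_mul_inv])
  simp only [tsum_mul_right] at h
  refine h.congr_fun fun i => ?_
  simp only [e]
  rw [integral_const_mul, cahen (hW' i) hk, exp_add, ← ofReal_exp, Real.exp_log (hn i)]
  ring_nf

theorem gamma_decay {x : ℝ} {k : ℕ} (hx : 0 < x) (hxk : x ≤ k) (hk : 6 ≤ k) (τ : ℝ) :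
    ‖Gamma (x + τ * I)‖ * (1 + τ ^ 2 / (24 * k)) ^ 3 ≤ Real.Gamma x := by
  have hk0 : (6 : ℝ) ≤ k := by exact_mod_cast hk
  set y : ℝ := τ ^ 2 / (4 * k ^ 2) with hy
  have hy0 : 0 ≤ y := by positivity
  have P : ∀ N : ℕ, N ≤ k → ‖Gamma (x + τ * I)‖ ^ 2 * (1 + y) ^ N * Real.Gamma (x + N) ^ 2 ≤
      ‖Gamma ((x + N : ℝ) + τ * I)‖ ^ 2 * Real.Gamma x ^ 2 := by
    intro N
    induction N with
    | zero => simp
    | succ N ih =>
      intro hN
      have ih := ih (by omega)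
      have hN' : (N : ℝ) ≤ k := by exact_mod_cast (by omega : N ≤ k)
      have hp : 0 < x + N := by positivity
      have e1 : Real.Gamma (x + (N + 1 : ℕ)) = (x + N) * Real.Gamma (x + N) := by
        rw [← Real.Gamma_add_one hp.ne']; congr 1; push_cast; ring
      have e2 : Gamma ((x + (N + 1 : ℕ) : ℝ) + τ * I) =
          ((x + N : ℝ) + τ * I) * Gamma ((x + N : ℝ) + τ * I) := by
        rw [← Gamma_add_one _ (H1.ne_zero_of_re hp.ne')]; congr 1; push_cast; ring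
      have e3 : ‖(((x + N : ℝ) : ℂ) + τ * I)‖ ^ 2 = (x + N) ^ 2 + τ ^ 2 := by
        rw [← norm_pow, H1.norm_sq_xy]
      have h4 : (1 + y) * (x + N) ^ 2 ≤ (x + N) ^ 2 + τ ^ 2 := by
        have : y * (x + N) ^ 2 ≤ y * (2 * k) ^ 2 := by gcongr; linarith
        have e : y * (2 * k) ^ 2 = τ ^ 2 := by rw [hy]; field_simp; ring
        linarith
      rw [e1, e2, norm_mul, mul_pow, mul_pow, e3]
      calc _ = ((1 + y) * (x + N) ^ 2) * (‖Gamma (x + τ * I)‖ ^ 2 * (1 + y) ^ N *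
            Real.Gamma (x + N) ^ 2) := by ring
        _ ≤ ((x + N) ^ 2 + τ ^ 2) * (‖Gamma ((x + N : ℝ) + τ * I)‖ ^ 2 * Real.Gamma x ^ 2) := by
            gcongr
        _ = _ := by ring
  have hp : 0 < x + k := by positivity
  have hG := Real.Gamma_pos_of_pos hp
  have h1 : ‖Gamma ((x + k : ℝ) + τ * I)‖ ≤ Real.Gamma (x + k) := by
    simpa using MP_ca0a54_nt.L0.ZetaA.norm_Gamma_le ((x + k : ℝ) + τ * I) (by simpa)
  have h2 : ‖Gamma (x + τ * I)‖ ^ 2 * (1 + y) ^ k ≤ Real.Gamma x ^ 2 := by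
    refine le_of_mul_le_mul_right ((P k le_rfl).trans ?_) (pow_pos hG 2)
    rw [mul_comm]; gcongr
  have h3 : (1 + τ ^ 2 / (24 * k)) ^ 6 ≤ (1 + y) ^ k := by
    have := one_add_mul_self_le_rpow_one_add (s := y) (by linarith) (p := k / 6) (by linarith)
    have e : k / 6 * y = τ ^ 2 / (24 * k) := by rw [hy]; field_simp; ring
    rw [e] at this
    calc _ ≤ ((1 + y) ^ (k / 6 : ℝ)) ^ 6 := by gcongr
      _ = _ := by
        rw [← Real.rpow_natCast, ← Real.rpow_mul (by linarith), ← Real.rpow_natCast]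
        congr 1; push_cast; ring
  refine le_of_pow_le_pow_left₀ two_ne_zero (Real.Gamma_pos_of_pos hx).le (le_trans ?_ h2)
  rw [mul_pow, ← pow_mul]
  gcongr

theorem gamma_int {x M : ℝ} {k : ℕ} (hx : 0 < x) (hxk : x ≤ k) (hk : 6 ≤ k) (hM : 0 ≤ M)
    {g : ℝ → ℂ} (hg : ∀ τ, ‖g τ‖ ≤ M * (1 + |τ|) ^ 3 * ‖Gamma (x + τ * I)‖) :
    ‖∫ τ, g τ‖ ≤ 8000 * M * k ^ 2 * Real.Gamma x := by
  have hk0 : (6 : ℝ) ≤ k := by exact_mod_cast hk
  set A : ℝ := √(24 * k) with hA
  have hA2 : A ^ 2 = 24 * k := Real.sq_sqrt (by positivity)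
  have hA1 : 1 ≤ A := by rw [hA]; exact Real.one_le_sqrt.2 (by linarith)
  have hG := Real.Gamma_pos_of_pos hx
  have hi : Integrable fun τ : ℝ => (1 + (τ / A) ^ 2)⁻¹ :=
    integrable_inv_one_add_sq.comp_div (by linarith : A ≠ 0)
  refine (norm_integral_le_of_norm_le (hi.const_mul (4 * M * A ^ 3 * Real.Gamma x))
    (Eventually.of_forall fun τ => (hg τ).trans ?_)).trans ?_
  · have h1 := gamma_decay hx hxk hk τ
    rw [← hA2, ← div_pow] at h1
    set u := τ / A with hu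
    have hu0 := abs_nonneg u
    have h2 : 1 + |τ| ≤ A * (1 + |u|) := by
      rw [hu, abs_div, abs_of_pos (by linarith : 0 < A), mul_add, mul_div_cancel₀ _ (by linarith)]
      linarith
    have h3 : (1 + |u|) ^ 3 ≤ 4 * (1 + u ^ 2) ^ 2 := by
      have a1 : (1 + |u|) ^ 2 ≤ 2 * (1 + u ^ 2) := by nlinarith [sq_abs u, sq_nonneg (|u| - 1)]
      have a2 : 1 + |u| ≤ 2 * (1 + u ^ 2) := by nlinarith
      calc _ = (1 + |u|) ^ 2 * (1 + |u|) := by ring
        _ ≤ 2 * (1 + u ^ 2) * (2 * (1 + u ^ 2)) := by gcongr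
        _ = _ := by ring
    rw [← div_eq_mul_inv, le_div_iff₀ (by positivity)]
    calc _ ≤ M * (A * (1 + |u|)) ^ 3 * ‖Gamma (x + τ * I)‖ * (1 + u ^ 2) := by gcongr
      _ = M * A ^ 3 * (1 + |u|) ^ 3 * ‖Gamma (x + τ * I)‖ * (1 + u ^ 2) := by ring
      _ ≤ M * A ^ 3 * (4 * (1 + u ^ 2) ^ 2) * ‖Gamma (x + τ * I)‖ * (1 + u ^ 2) := by gcongr
      _ = 4 * M * A ^ 3 * (‖Gamma (x + τ * I)‖ * (1 + u ^ 2) ^ 3) := by ring
      _ ≤ _ := by gcongr
  · rw [integral_const_mul, Measure.integral_comp_div (fun u : ℝ => (1 + u ^ 2)⁻¹) A,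
      integral_univ_inv_one_add_sq, abs_of_pos (by linarith), smul_eq_mul]
    have e : 4 * M * A ^ 3 * Real.Gamma x * (A * π) =
        (4 * 24 ^ 2 * π) * M * k ^ 2 * Real.Gamma x := by
      rw [show 4 * M * A ^ 3 * Real.Gamma x * (A * π) =
        4 * (A ^ 2) ^ 2 * π * M * Real.Gamma x by ring, hA2]; ring
    rw [e]
    gcongr
    linarith [Real.pi_lt_d2]

theorem gamma_three_half (τ : ℝ) :
    ‖Gamma (3 / 2 + τ * I)‖ * Real.exp (π * |τ| / 2) ≤ 3 * (1 + |τ|) := by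
  have e : Gamma (3 / 2 + τ * I) = (1 / 2 + I * τ) * Gamma (1 / 2 + I * τ) := by
    rw [← Gamma_add_one _ (fun h => by simpa using congrArg re h)]; congr 1; ring
  have h1 : ‖(1 / 2 + I * τ : ℂ)‖ ≤ 1 + |τ| := (norm_add_le _ _).trans (by simp; norm_num)
  have h2 : ‖Gamma (1 / 2 + I * τ)‖ * Real.exp (π * |τ| / 2) ≤ 3 := by
    refine le_of_pow_le_pow_left₀ two_ne_zero (by norm_num) ?_
    rw [mul_pow, H35.norm_Gamma_half_sq, ← Real.exp_nat_mul, ← Real.cosh_abs, abs_mul,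
      abs_of_pos Real.pi_pos, div_mul_eq_mul_div, div_le_iff₀ (Real.cosh_pos _), Real.cosh_eq,
      show ((2 : ℕ) : ℝ) * (π * |τ| / 2) = π * |τ| by push_cast; ring]
    nlinarith [Real.pi_lt_d2, Real.exp_pos (π * |τ|), Real.exp_pos (-(π * |τ|))]
  rw [e, norm_mul, mul_assoc, mul_comm]
  gcongr

end Pool.Agent.MP_74e98a_nt.H98
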