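import Pool.Agent.MP_74e98a_nt.H98.Exp

/-! Two-sided bounds for the smoothed triple divisor sum. -/

namespace Pool.Agent.MP_74e98a_nt.H98

open Filter Topology Set MeasureTheory Real
open scoped Nat

theorem wk_nonneg (k : ℕ) {x : ℝ} (hx : 0 ≤ x) : 0 ≤ wk k x := by unfold wk; positivity

theorem pow_le_fac (k : ℕ) {c x : ℝ} (hc : 0 < c) (hx : 0 ≤ x) :
    x ^ k ≤ k ! / c ^ k * exp (c * x) := by
  have h := Real.pow_div_factorial_le_exp (c * x) (by positivity) k
  rw [div_le_iff₀ (by positivity), mul_pow] at h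
  rw [div_mul_eq_mul_div, le_div_iff₀ (by positivity)]
  linarith

theorem wk_le_sq (k : ℕ) {x : ℝ} (hx : 0 < x) : wk k x ≤ (k + 2)! / x ^ 2 := by
  have h := pow_le_fac (k + 2) one_pos hx.le
  rw [one_pow, div_one, one_mul] at h
  rw [wk, exp_neg, ← div_eq_mul_inv, div_le_div_iff₀ (exp_pos _) (by positivity), ← pow_add]
  exact h

theorem wk_tail (k : ℕ) {x : ℝ} (hx : 0 < x) (h : 4 * k ≤ x) :
    wk k x ≤ 32 * k ! * (3 / 4) ^ k / x ^ 2 := by
  have h1 := pow_le_fac k one_half_pos hx.le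
  have h2 := pow_le_fac 2 (c := 1 / 4) (by norm_num) hx.le
  have h3 : 2 ^ k ≤ (3 / 4) ^ k * exp (1 / 4 * x) := by
    calc (2 : ℝ) ^ k ≤ (3 / 4 * exp 1) ^ k := by gcongr; linarith [exp_one_gt_d9]
      _ = (3 / 4) ^ k * exp (k * 1) := by rw [mul_pow, exp_nat_mul]
      _ ≤ _ := mul_le_mul_of_nonneg_left (exp_le_exp.2 (by linarith)) (by positivity)
  rw [wk, exp_neg, ← div_eq_mul_inv, div_le_div_iff₀ (exp_pos _) (by positivity)]
  calc _ ≤ k ! / (1 / 2) ^ k * exp (1 / 2 * x) * ((2 : ℕ)! / (1 / 4) ^ 2 * exp (1 / 4 * x)) := by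
        gcongr
    _ = 32 * k ! * 2 ^ k * (exp (1 / 2 * x) * exp (1 / 4 * x)) := by
        rw [one_div, inv_pow, div_inv_eq_mul]; norm_num; ring
    _ ≤ 32 * k ! * ((3 / 4) ^ k * exp (1 / 4 * x)) * (exp (1 / 2 * x) * exp (1 / 4 * x)) := by
        gcongr
    _ = 32 * k ! * (3 / 4) ^ k * (exp (1 / 4 * x) * exp (1 / 2 * x) * exp (1 / 4 * x)) := by ring
    _ = _ := by rw [← exp_add, ← exp_add]; congr 2; ring

theorem int_wk (k : ℕ) {y : ℝ} (hy : 0 < y) :
    IntegrableOn (fun x => wk k (y * x)) (Ioi 0) ∧ ∫ x in Ioi 0, wk k (y * x) = k ! / y := by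
  have e : EqOn (fun x => y ^ k * (x ^ ((k : ℝ) + 1 - 1) * exp (-(y * x))))
      (fun x => wk k (y * x)) (Ioi 0) := fun x _ => by
    simp only [wk, add_sub_cancel_right, rpow_natCast, mul_pow, mul_assoc]
  constructor
  · have := integrableOn_rpow_mul_exp_neg_mul_rpow (p := 1) (s := (k : ℝ) + 1 - 1) (b := y)
      (by linarith [k.cast_nonneg (α := ℝ)]) one_pos hy
    simp only [rpow_one, neg_mul] at this
    exact IntegrableOn.congr_fun (this.const_mul (y ^ k)) e measurableSet_Ioi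
  · rw [← setIntegral_congr_fun measurableSet_Ioi e, integral_const_mul,
      integral_rpow_mul_exp_neg_mul_Ioi (by positivity) hy, Gamma_nat_eq_factorial,
      ← Nat.cast_succ, rpow_natCast, one_div, inv_pow, pow_succ]
    field_simp

theorem continuous_wk (k : ℕ) : Continuous (wk k) := by unfold wk; fun_prop

theorem summable1 (k : ℕ) {y : ℝ} (hy : 0 < y) : Summable fun c : ℕ => wk k (y * (c + 1)) := by
  have h : Summable fun n : ℕ => 1 / ((n : ℝ) + 1) ^ 2 := by
    simpa using (summable_nat_add_iff 1).2 (Real.summable_one_div_nat_pow.2 one_lt_two)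
  refine .of_nonneg_of_le (fun c => wk_nonneg _ (by positivity)) (fun c => ?_)
    (h.mul_left ((k + 2)! / y ^ 2))
  exact (wk_le_sq k (by positivity)).trans (le_of_eq (by field_simp))

theorem one_var {k : ℕ} (hk : 1 ≤ k) {y : ℝ} (hy : 0 < y) :
    |∑' c : ℕ, wk k (y * (c + 1)) - k ! / y| ≤ 2 * k ! := by
  obtain ⟨k, rfl⟩ : ∃ j, k = j + 1 := ⟨k - 1, by omega⟩
  set g : ℝ → ℝ := fun x => wk (k + 1) (y * x) with hg
  set h : ℝ → ℝ := fun x => y * (k + 1) * wk k (y * x) + y * g x with hh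
  have cw := continuous_wk k
  have cg : Continuous g := (continuous_wk _).comp (by fun_prop)
  have ch : Continuous h := by rw [hh]; fun_prop
  have h0 : ∀ x, 0 ≤ x → 0 ≤ y * (k + 1) * wk k (y * x) ∧ 0 ≤ y * g x := fun x hx =>
    ⟨mul_nonneg (by positivity) (wk_nonneg _ (by positivity)),
      mul_nonneg hy.le (wk_nonneg _ (by positivity))⟩
  have hd : ∀ x, HasDerivAt g (y * (k + 1) * wk k (y * x) - y * g x) x := by
    intro x
    have a := (hasDerivAt_id x).const_mul y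
    refine ((a.pow (k + 1)).mul a.neg.exp).congr_deriv ?_
    simp [hg, wk]
    ring
  have step : ∀ c : ℕ, |g (c + 1) - ∫ x in (c : ℝ)..(c + 1 : ℕ), g x| ≤
      ∫ x in (c : ℝ)..(c + 1 : ℕ), h x := by
    intro c
    have hc : (0 : ℝ) ≤ c := c.cast_nonneg
    push_cast
    have e : g (c + 1) - ∫ x in (c : ℝ)..(c + 1), g x =
        ∫ x in (c : ℝ)..(c + 1), (g (c + 1) - g x) := by
      rw [intervalIntegral.integral_sub (by simp) (cg.intervalIntegrable _ _)]; simp
    rw [e]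
    have := intervalIntegral.norm_integral_le_of_norm_le_const (a := c) (b := c + 1)
      (f := fun x => g (c + 1) - g x) (C := ∫ x in (c : ℝ)..(c + 1), h x) fun x hx => by
        rw [uIoc_of_le (by linarith)] at hx
        rw [← intervalIntegral.integral_eq_sub_of_hasDerivAt (fun t _ => hd t)
          (Continuous.intervalIntegrable (by fun_prop) _ _)]
        refine (intervalIntegral.norm_integral_le_of_norm_le hx.2 (Eventually.of_forall
          fun t ht => ?_) (ch.intervalIntegrable _ _)).trans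
          (intervalIntegral.integral_mono_interval hx.1.le hx.2 le_rfl ?_
            (ch.intervalIntegrable _ _))
        · have := h0 t (by linarith [ht.1, hx.1])
          rw [norm_eq_abs, abs_le, hh]
          constructor <;> simp only <;> linarith [this.1, this.2]
        · filter_upwards [ae_restrict_mem measurableSet_Ioc] with t ht
          have := h0 t (by linarith [ht.1])
          exact add_nonneg this.1 this.2
    simpa using this
  have ig := int_wk (k + 1) hy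
  have ik := int_wk k hy
  have ih : IntegrableOn h (Ioi 0) := (ik.1.const_mul _).add (ig.1.const_mul _)
  have vh : ∫ x in Ioi 0, h x = 2 * (k + 1)! := by
    rw [hh, integral_add (ik.1.const_mul _) (ig.1.const_mul _), integral_const_mul,
      integral_const_mul, ig.2, ik.2, Nat.factorial_succ]
    push_cast
    field_simp
    ring
  have t1 := (summable1 (k + 1) hy).hasSum.tendsto_sum_nat
  have t2 := intervalIntegral_tendsto_integral_Ioi 0 ig.1 tendsto_natCast_atTop_atTop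
  have t3 := intervalIntegral_tendsto_integral_Ioi 0 ih tendsto_natCast_atTop_atTop
  rw [ig.2] at t2
  rw [vh] at t3
  refine le_of_tendsto_of_tendsto' (t1.sub t2).abs t3 fun N => ?_
  have s1 := intervalIntegral.sum_integral_adjacent_intervals (μ := volume) (f := g)
    (a := fun n : ℕ => (n : ℝ)) (n := N) fun _ _ => cg.intervalIntegrable _ _
  have s2 := intervalIntegral.sum_integral_adjacent_intervals (μ := volume) (f := h)
    (a := fun n : ℕ => (n : ℝ)) (n := N) fun _ _ => ch.intervalIntegrable _ _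
  rw [Nat.cast_zero] at s1 s2
  rw [← s1, ← s2, ← Finset.sum_sub_distrib]
  exact (Finset.abs_sum_le_sum_abs _ _).trans (Finset.sum_le_sum fun c _ => step c)

theorem harm (m : ℕ) : log (m + 1) ≤ ∑ b ∈ Finset.range m, 1 / ((b : ℝ) + 1) ∧
    ∑ b ∈ Finset.range m, 1 / ((b : ℝ) + 1) ≤ 1 + log m := by
  have e : ((harmonic m : ℚ) : ℝ) = ∑ b ∈ Finset.range m, 1 / ((b : ℝ) + 1) := by
    simp [harmonic]
  rw [← e]
  exact ⟨by simpa using log_add_one_le_harmonic m, harmonic_le_one_add_log m⟩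

theorem log_tele (L : ℝ) (m : ℕ) (h : log (m + 1) ≤ L) :
    (L ^ 2 - (L - log (m + 1)) ^ 2) / 2 ≤ ∑ a ∈ Finset.range m, (L - log (a + 1)) / (a + 1) ∧
      ∑ a ∈ Finset.range (m + 1), (L - log (a + 1)) / (a + 1) ≤
        L + (L ^ 2 - (L - log (m + 1)) ^ 2) / 2 := by
  induction m with
  | zero => simp
  | succ m ih =>
    push_cast at h
    have hm : (0 : ℝ) < m + 1 := by positivity
    have u1 : log (m + 1 + 1) - log (m + 1) ≤ 1 / ((m : ℝ) + 1) := by
      rw [← log_div (by positivity) hm.ne']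
      exact (log_le_sub_one_of_pos (by positivity)).trans (le_of_eq (by field_simp; ring))
    have u2 : 1 / ((m : ℝ) + 1 + 1) ≤ log (m + 1 + 1) - log (m + 1) := by
      rw [← log_div (by positivity) hm.ne']
      exact (le_of_eq (by field_simp; ring)).trans (one_sub_inv_le_log_of_pos (by positivity))
    have u3 : (0 : ℝ) < 1 / ((m : ℝ) + 1 + 1) := by positivity
    obtain ⟨i1, i2⟩ := ih (by linarith)
    rw [Finset.sum_range_succ, Finset.sum_range_succ _ (m + 1)]
    push_cast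
    rw [div_eq_mul_one_div (L - log (m + 1)), div_eq_mul_one_div (L - log (m + 1 + 1))]
    constructor <;> nlinarith

/-- pairs below a hyperbola -/
def pairs (n : ℕ) : Finset (ℕ × ℕ) :=
  (Finset.range n ×ˢ Finset.range n).filter fun p => p.2 < n / (p.1 + 1)

theorem sum_pairs (n : ℕ) (F : ℕ × ℕ → ℝ) :
    ∑ p ∈ pairs n, F p = ∑ a ∈ Finset.range n, ∑ b ∈ Finset.range (n / (a + 1)), F (a, b) := by
  rw [pairs, Finset.sum_filter, Finset.sum_product]
  refine Finset.sum_congr rfl fun a _ => ?_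
  rw [← Finset.sum_filter]
  congr 1
  ext b
  simp only [Finset.mem_filter, Finset.mem_range, and_iff_right_iff_imp]
  exact fun h => h.trans_le (Nat.div_le_self _ _)

theorem mem_pairs {n : ℕ} {p : ℕ × ℕ} (h : (p.1 + 1) * (p.2 + 1) ≤ n) : p ∈ pairs n := by
  simp only [pairs, Finset.mem_filter, Finset.mem_product, Finset.mem_range]
  refine ⟨⟨by nlinarith, by nlinarith⟩, ?_⟩
  rw [Nat.lt_iff_add_one_le, Nat.le_div_iff_mul_le (by omega), mul_comm]
  exact h

/-- harmonic sum over a set of pairs -/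
noncomputable def hs (S : Finset (ℕ × ℕ)) : ℝ := ∑ p ∈ S, 1 / (((p.1 : ℝ) + 1) * (p.2 + 1))

theorem hs_pairs {n : ℕ} (hn : 1 ≤ n) : log n ^ 2 / 2 ≤ hs (pairs n) ∧
    hs (pairs n) ≤ log n ^ 2 / 2 + 2 * log n + 1 ∧ ((pairs n).card : ℝ) ≤ n * (1 + log n) := by
  obtain ⟨m, rfl⟩ : ∃ m, n = m + 1 := ⟨n - 1, by omega⟩
  have t := log_tele (log (m + 1)) m le_rfl
  rw [sub_self] at t
  have hh := (harm (m + 1)).2
  have e : hs (pairs (m + 1)) = ∑ a ∈ Finset.range (m + 1),
      (∑ b ∈ Finset.range ((m + 1) / (a + 1)), 1 / ((b : ℝ) + 1)) / (a + 1) := by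
    rw [hs, sum_pairs]
    refine Finset.sum_congr rfl fun a _ => ?_
    rw [Finset.sum_div]
    exact Finset.sum_congr rfl fun b _ => by field_simp
  have d1 : ∀ a : ℕ, (((m + 1) / (a + 1) : ℕ) : ℝ) ≤ ((m : ℝ) + 1) / (a + 1) := fun a => by
    simpa using Nat.cast_div_le (α := ℝ) (m := m + 1) (n := a + 1)
  push_cast at hh ⊢
  refine ⟨?_, ?_, ?_⟩
  · rw [e]
    refine le_trans ?_ (Finset.sum_le_sum (f := fun a : ℕ => (log (m + 1) - log (a + 1)) / (a + 1))
      fun a _ => ?_)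
    · rw [Finset.sum_range_succ]
      simpa using t.1
    · gcongr
      refine le_trans ?_ (harm _).1
      rw [← log_div (by positivity) (by positivity)]
      refine log_le_log (by positivity) ?_
      rw [div_le_iff₀ (by positivity)]
      have := Nat.lt_mul_div_succ (m + 1) (show 0 < a + 1 by omega)
      rw [mul_comm]
      exact_mod_cast this.le
  · rw [e]
    refine (Finset.sum_le_sum (g := fun a : ℕ => 1 / ((a : ℝ) + 1) +
      (log (m + 1) - log (a + 1)) / (a + 1)) fun a ha => ?_).trans ?_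
    · rw [← add_div]
      gcongr
      refine (harm _).2.trans ?_
      rw [← log_div (by positivity) (by positivity)]
      gcongr
      · exact_mod_cast Nat.div_pos (Finset.mem_range.1 ha) (by omega)
      · exact d1 a
    · rw [Finset.sum_add_distrib]
      linarith [t.2]
  · rw [Finset.card_eq_sum_ones, Nat.cast_sum, sum_pairs]
    refine le_trans ?_ (mul_le_mul_of_nonneg_left hh (by positivity))
    rw [Finset.mul_sum]
    refine Finset.sum_le_sum fun a _ => ?_
    simpa [div_eq_mul_inv] using d1 a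

theorem hs_box (w z : ℕ) :
    hs (Finset.range w ×ˢ Finset.range z) ≤ (1 + log w) * (1 + log z) := by
  have := (harm w).2
  calc _ = (∑ b ∈ Finset.range w, 1 / ((b : ℝ) + 1)) * ∑ b ∈ Finset.range z, 1 / ((b : ℝ) + 1) := by
        rw [hs, Finset.sum_product, Finset.sum_mul_sum]
        simp only [one_div_mul_one_div]
    _ ≤ _ := mul_le_mul this (harm z).2 (by positivity) (le_trans (by positivity) this)

theorem summable3 (k : ℕ) {ν : ℝ} (hν : 0 < ν) : Summable fun i : Ix => wk k (ν * nN i) := by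
  refine .of_nonneg_of_le (fun i => wk_nonneg _ (by positivity)) (fun i => ?_)
    (summable_nN.mul_left ((k + 2)! / ν ^ 2))
  have := nN_pos i
  exact (wk_le_sq k (by positivity)).trans (le_of_eq (by field_simp))

theorem summable_ite (k : ℕ) {ν : ℝ} (hν : 0 < ν) (p : Ix → Prop) [DecidablePred p] :
    Summable fun i : Ix => if p i then wk k (ν * nN i) else 0 := by
  refine .of_nonneg_of_le (fun i => ?_) (fun i => ?_) (summable3 k hν) <;> split_ifs <;>
    first | rfl | exact wk_nonneg _ (by positivity)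

theorem box {k : ℕ} (hk : 1 ≤ k) {ν : ℝ} (hν : 0 < ν) (S : Finset (ℕ × ℕ)) :
    |(∑' i : Ix, if i.1 ∈ S then wk k (ν * nN i) else 0) - k ! / ν * hs S| ≤
      2 * k ! * S.card := by
  rw [(summable_ite k hν _).tsum_prod, tsum_eq_sum (s := S) (fun p hp => by simp [hp]), hs,
    Finset.mul_sum, ← Finset.sum_sub_distrib, mul_comm, ← nsmul_eq_mul]
  refine (Finset.abs_sum_le_sum_abs _ _).trans (Finset.sum_le_card_nsmul _ _ _ fun p hp => ?_)
  have := one_var hk (y := ν * ((p.1 + 1) * (p.2 + 1))) (by positivity)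
  simp only [hp, if_true, nN_cast, ← mul_assoc] at this ⊢
  rwa [mul_one_div, div_div, ← mul_assoc]

/-- the smoothed triple divisor sum -/
noncomputable def S3 (k : ℕ) (ν : ℝ) : ℝ := ∑' i : Ix, wk k (ν * nN i)

theorem S3_nonneg (k : ℕ) {ν : ℝ} (hν : 0 < ν) : 0 ≤ S3 k ν :=
  tsum_nonneg fun _ => wk_nonneg _ (by positivity)

theorem S3_lower {k : ℕ} (hk : 1 ≤ k) {ν : ℝ} (hν : 0 < ν) {n : ℕ} (hn : 1 ≤ n) :
    k ! / ν * (log n ^ 2 / 2) - 2 * k ! * (n * (1 + log n)) ≤ S3 k ν := by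
  obtain ⟨h1, -, h3⟩ := hs_pairs hn
  have h := (abs_le.1 (box hk hν (pairs n))).1
  have h2 : (∑' i : Ix, if i.1 ∈ pairs n then wk k (ν * nN i) else 0) ≤ S3 k ν :=
    (summable_ite k hν _).tsum_le_tsum (fun i => by
      split_ifs; exacts [le_rfl, wk_nonneg _ (by positivity)]) (summable3 k hν)
  have a1 : k ! / ν * (log n ^ 2 / 2) ≤ k ! / ν * hs (pairs n) := by gcongr
  have a2 : 2 * k ! * ((pairs n).card : ℝ) ≤ 2 * k ! * (n * (1 + log n)) := by gcongr
  linarith

/-- a constant -/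
noncomputable def S2 : ℝ := ∑' i : Ix, 1 / (nN i : ℝ) ^ 2

theorem S2_nonneg : 0 ≤ S2 := tsum_nonneg fun _ => by positivity

/-- a transposition -/
def sw1 : Ix ≃ Ix := ⟨fun i => ((i.1.1, i.2), i.1.2), fun i => ((i.1.1, i.2), i.1.2),
  fun _ => rfl, fun _ => rfl⟩

/-- a cycle -/
def sw2 : Ix ≃ Ix := ⟨fun i => ((i.2, i.1.1), i.1.2), fun i => ((i.1.2, i.2), i.1.1),
  fun _ => rfl, fun _ => rfl⟩

theorem S3_upper {k : ℕ} (hk : 1 ≤ k) {ν : ℝ} (hν : 0 < ν) {n M z w : ℕ} (hn : 1 ≤ n)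
    (hM : 4 * k ≤ ν * M) (hz : ∀ A B C, 1 ≤ C → n < A * B → A * B * C ≤ M → C ≤ z ∧ (A ≤ w ∨ B ≤ w)) :
    S3 k ν ≤ k ! / ν * (log n ^ 2 / 2 + 2 * log n + 1 + 2 * ((1 + log w) * (1 + log z))) +
      2 * k ! * (n * (1 + log n) + 2 * (w * z)) + 32 * k ! * (3 / 4) ^ k / ν ^ 2 * S2 := by
  obtain ⟨-, h1, h3⟩ := hs_pairs hn
  set B := Finset.range w ×ˢ Finset.range z with hB
  have b1 := (abs_le.1 (box hk hν (pairs n))).2
  have b2 := (abs_le.1 (box hk hν B)).2
  have e1 : (∑' i : Ix, if (i.1.1, i.2) ∈ B then wk k (ν * nN i) else 0) =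
      ∑' i : Ix, if i.1 ∈ B then wk k (ν * nN i) else 0 := by
    rw [← sw1.tsum_eq]
    refine tsum_congr fun i => ?_
    simp only [sw1, Equiv.coe_fn_mk, nN, mul_right_comm]
  have e2 : (∑' i : Ix, if (i.1.2, i.2) ∈ B then wk k (ν * nN i) else 0) =
      ∑' i : Ix, if i.1 ∈ B then wk k (ν * nN i) else 0 := by
    rw [← sw2.tsum_eq]
    refine tsum_congr fun i => ?_
    simp only [sw2, Equiv.coe_fn_mk, nN, mul_rotate (i.2 + 1)]
  have s1 := (summable_ite k hν fun i => i.1 ∈ pairs n).hasSum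
  have s2 := (summable_ite k hν fun i => (i.1.1, i.2) ∈ B).hasSum
  have s3 := (summable_ite k hν fun i => (i.1.2, i.2) ∈ B).hasSum
  have s4 := summable_nN.hasSum.mul_left (32 * k ! * (3 / 4) ^ k / ν ^ 2)
  rw [e1] at s2
  rw [e2] at s3
  have h := hasSum_le (fun i => ?_) (summable3 k hν).hasSum (((s1.add s2).add s3).add s4)
  · have a1 : k ! / ν * hs (pairs n) ≤ k ! / ν * (log n ^ 2 / 2 + 2 * log n + 1) := by gcongr
    have a2 : 2 * k ! * ((pairs n).card : ℝ) ≤ 2 * k ! * (n * (1 + log n)) := by gcongr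
    have a3 : k ! / ν * hs B ≤ k ! / ν * ((1 + log w) * (1 + log z)) := by
      gcongr; exact hs_box w z
    have a4 : (B.card : ℝ) = w * z := by simp [hB]
    rw [a4] at b2
    unfold S3 S2
    linarith
  · have hp := nN_pos i
    have w0 := wk_nonneg k (x := ν * nN i) (by positivity)
    have z0 : ∀ (p : Prop) [Decidable p], 0 ≤ if p then wk k (ν * nN i) else 0 := fun p _ => by
      split_ifs; exacts [w0, le_rfl]
    have z1 := z0 (i.1 ∈ pairs n)
    have z2 := z0 ((i.1.1, i.2) ∈ B)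
    have z3 := z0 ((i.1.2, i.2) ∈ B)
    have z4 : 0 ≤ 32 * k ! * (3 / 4) ^ k / ν ^ 2 * (1 / (nN i : ℝ) ^ 2) := by positivity
    by_cases c1 : nN i ≤ M
    · by_cases c2 : (i.1.1 + 1) * (i.1.2 + 1) ≤ n
      · rw [if_pos (mem_pairs c2)]; linarith
      · obtain ⟨c3, c4 | c4⟩ := hz _ _ _ (by omega) (not_le.1 c2) c1
        · rw [if_pos (show (i.1.1, i.2) ∈ B by simp [hB]; omega)]; linarith
        · rw [if_pos (show (i.1.2, i.2) ∈ B by simp [hB]; omega)]; linarith
    · have c : (M : ℝ) ≤ nN i := by exact_mod_cast (not_le.1 c1).le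
      have := wk_tail k (x := ν * nN i) (by positivity) (hM.trans (by gcongr))
      rw [mul_pow, ← div_div, div_eq_mul_one_div _ ((nN i : ℝ) ^ 2)] at this
      linarith

theorem S3_dvd (k : ℕ) (ν : ℝ) {a b c : ℕ} (ha : 1 ≤ a) (hb : 1 ≤ b) (hc : 1 ≤ c) :
    (∑' i : Ix, if a ∣ i.1.1 + 1 ∧ b ∣ i.1.2 + 1 ∧ c ∣ i.2 + 1 then wk k (ν * nN i) else 0) =
      S3 k (ν * (a * b * c : ℕ)) := by
  have e : ∀ {d : ℕ} (_ : 1 ≤ d) (x : ℕ), d * (x + 1) - 1 + 1 = d * (x + 1) := fun hd x =>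
    Nat.sub_add_cancel (Nat.mul_pos hd (by omega))
  have inj : ∀ {d : ℕ} (_ : 1 ≤ d) {x y : ℕ}, d * (x + 1) - 1 = d * (y + 1) - 1 → x = y := by
    intro d hd x y h
    have h2 : d * (x + 1) = d * (y + 1) := by rw [← e hd x, h, e hd]
    simpa using Nat.eq_of_mul_eq_mul_left hd h2
  have sur : ∀ {d x : ℕ}, d ∣ x + 1 → ∃ y, d * (y + 1) - 1 = x := by
    rintro d x ⟨y, hy⟩
    obtain _ | y := y
    · omega
    · exact ⟨y, by omega⟩
  rw [← Function.Injective.tsum_eq (g := fun i : Ix =>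
    (((a * (i.1.1 + 1) - 1, b * (i.1.2 + 1) - 1), c * (i.2 + 1) - 1) : Ix))]
  · refine tsum_congr fun i => ?_
    simp only [nN, e ha, e hb, e hc, dvd_mul_right, and_self, if_true]
    congr 1; push_cast; ring
  · intro i j h
    simp only [Prod.mk.injEq] at h
    exact Prod.ext (Prod.ext (inj ha h.1.1) (inj hb h.1.2)) (inj hc h.2)
  · intro i hi
    by_cases h : a ∣ i.1.1 + 1 ∧ b ∣ i.1.2 + 1 ∧ c ∣ i.2 + 1
    · obtain ⟨x, hx⟩ := sur h.1
      obtain ⟨y, hy⟩ := sur h.2.1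
      obtain ⟨z, hz⟩ := sur h.2.2
      exact ⟨((x, y), z), by simp [hx, hy, hz]⟩
    · simp [h] at hi

theorem U_ge (k : ℕ) {μ : ℝ} (hμ : 0 < μ) (q : ℕ) [Fact q.Prime] :
    (q * (3 * S3 k (μ * q) - 3 * S3 k (μ * q ^ 2)) - S3 k μ) / (q - 1) ≤
      ∑' i : Ix, wt (ZMod q) (nN i : ℕ) * wk k (μ * nN i) := by
  have hq : 1 ≤ q := (Fact.out : q.Prime).one_le
  have hq2 : (0 : ℝ) < q - 1 := by simpa using card_sub_pos (F := ZMod q)
  have s : ∀ {a b c : ℕ} (_ : 1 ≤ a) (_ : 1 ≤ b) (_ : 1 ≤ c), HasSum (fun i : Ix =>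
      if a ∣ i.1.1 + 1 ∧ b ∣ i.1.2 + 1 ∧ c ∣ i.2 + 1 then wk k (μ * nN i) else 0)
      (S3 k (μ * (a * b * c : ℕ))) := fun ha hb hc => by
    rw [← S3_dvd k μ ha hb hc]; exact (summable_ite k hμ _).hasSum
  have s1 := s hq le_rfl le_rfl
  have s2 := s le_rfl hq le_rfl
  have s3 := s le_rfl le_rfl hq
  have s4 := s hq hq le_rfl
  have s5 := s hq le_rfl hq
  have s6 := s le_rfl hq hq
  simp only [mul_one, one_mul, one_dvd, true_and, and_true, Nat.cast_mul] at s1 s2 s3 s4 s5 s6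
  rw [← sq] at s4 s5 s6
  have e : ∀ i : Ix, wt (ZMod q) (nN i : ℕ) * wk k (μ * nN i) =
      (q * (if q ∣ nN i then wk k (μ * nN i) else 0) - wk k (μ * nN i)) / (q - 1) := by
    intro i
    simp only [wt, ZMod.natCast_eq_zero_iff, ZMod.card]
    split_ifs <;> field_simp
    ring
  have t := (((summable_ite k hμ fun i => q ∣ nN i).hasSum.mul_left (q : ℝ)).sub
    (summable3 k hμ).hasSum).div_const ((q : ℝ) - 1)
  simp only [e]
  rw [t.tsum_eq]
  have h := hasSum_le (fun i => ?_) (((((s1.add s2).add s3).sub s4).sub s5).sub s6)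
    (summable_ite k hμ fun i => q ∣ nN i).hasSum
  · unfold S3 at h ⊢
    gcongr
    linarith
  · have w0 := wk_nonneg k (x := μ * nN i) (by positivity)
    have d1 : q ∣ i.1.1 + 1 → q ∣ nN i := fun h => (h.mul_right _).mul_right _
    have d2 : q ∣ i.1.2 + 1 → q ∣ nN i := fun h => (h.mul_left _).mul_right _
    have d3 : q ∣ i.2 + 1 → q ∣ nN i := fun h => h.mul_left _
    by_cases h1 : q ∣ i.1.1 + 1 <;> by_cases h2 : q ∣ i.1.2 + 1 <;> by_cases h3 : q ∣ i.2 + 1 <;>
      by_cases h4 : q ∣ nN i <;> simp_all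

end Pool.Agent.MP_74e98a_nt.H98
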