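import Pool.Agent.MP_6f2ed2_nt.H1.Zeta
import Pool.Agent.MP_74e98a_nt.H98.Sum3

/-! The test functions and their correlation with the cube of Hardy's function. -/

namespace Pool.Agent.MP_74e98a_nt.H98

open Complex Filter Topology Set MeasureTheory
open scoped Real Nat
open Pool.Agent.MP_6f2ed2_nt Pool.Agent.MP_6f2ed2_nt.H1
open Pool.Agent.MP_ca0a54_nt.L0
open Pool.Agent.MP_ca0a54_nt.L0.ZetaA (pw norm_pw pw_eq hasDerivAt_pw)

/-- points of the critical line -/
noncomputable def sl (t : ℝ) : ℂ := (1 / 2 : ℝ) + t * I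

/-- the slowly varying amplitude -/
noncomputable def R (κ : ℕ) (η t : ℝ) : ℂ :=
  (sl t - 1) ^ 3 * (∏ j ∈ Finset.range κ, (sl t + j)) *
    exp ((Real.log (Real.cos η) + η * I) * sl t) / (1 + exp (π * I * sl t))

/-- the test function -/
noncomputable def tf (κ : ℕ) (η : ℝ) (q : ℕ) (t : ℝ) : ℂ :=
  (starRingEnd ℂ) (hardyPhase t) * exp (sl t * Real.log q) * R κ η t

/-- the rotated logarithm -/
noncomputable def WW (η : ℝ) (q : ℕ) : ℂ :=
  (Real.log (2 * π) - Real.log (Real.cos η) - Real.log q : ℝ) + (π / 2 - η : ℝ) * I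

theorem sl_eq (t : ℝ) : sl t = 1 / 2 + I * t := by unfold sl; push_cast; ring

theorem exp_sl (t : ℝ) : exp (π * I * sl t) = (Real.exp (-(π * t)) : ℝ) * I := by
  rw [show π * I * sl t = (-(π * t) : ℝ) + π / 2 * I by
    unfold sl; push_cast; linear_combination (π * t : ℂ) * I_mul_I, exp_add, exp_pi_div_two_mul_I,
    ofReal_exp]

theorem norm_den (t : ℝ) : 1 ≤ ‖1 + exp (π * I * sl t)‖ ∧
    Real.exp (-(π * t)) ≤ ‖1 + exp (π * I * sl t)‖ := by
  rw [exp_sl]
  generalize Real.exp (-(π * t)) = x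
  exact ⟨by simpa using re_le_norm (1 + x * I), by simpa using im_le_norm (1 + x * I)⟩

theorem den_ne (t : ℝ) : 1 + exp (π * I * sl t) ≠ 0 :=
  norm_pos_iff.1 (one_pos.trans_le (norm_den t).1)

theorem Gamma_nat {s : ℂ} (hs : 0 < s.re) (κ : ℕ) :
    Gamma (s + κ) = (∏ j ∈ Finset.range κ, (s + j)) * Gamma s := by
  induction κ with
  | zero => simp
  | succ κ ih =>
    rw [Nat.cast_succ, ← add_assoc, Gamma_add_one _ (fun h => by
      have := congrArg re h
      simp only [add_re, natCast_re, zero_re] at this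
      linarith [κ.cast_nonneg (α := ℝ)]), ih, Finset.prod_range_succ]
    ring

theorem line_eq (κ : ℕ) (η : ℝ) (q : ℕ) (t : ℝ) :
    riemannZeta₁ (sl t) ^ 3 * G κ (WW η q) (sl t) = (hardyZ t : ℂ) ^ 3 * tf κ η q t := by
  have hre : (sl t).re = 1 / 2 := by simp [sl]
  have h1 : sl t ≠ 1 := fun h => by rw [h] at hre; norm_num at hre
  set P := hardyPhase t with hP
  have hZ : (hardyZ t : ℂ) = P * riemannZeta (sl t) := by
    rw [sl_eq]
    exact Complex.ext (by rw [ofReal_re, hardyZ]) (by rw [ofReal_im, phase_zeta_im])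
  have hPP : P * (starRingEnd ℂ) P = 1 := by
    rw [mul_conj, normSq_eq_norm_sq, norm_hardyPhase]; simp
  have hc : (starRingEnd ℂ) (sl t) = 1 - sl t := by
    apply Complex.ext <;> simp [sl]
    norm_num
  have hz : riemannZeta (sl t) = hardyZ t * (starRingEnd ℂ) P := by
    rw [hZ]; linear_combination -riemannZeta (sl t) * hPP
  have hz' : riemannZeta (1 - sl t) = hardyZ t * P := by
    rw [← hc, riemannZeta_conj, hz]; simp
  have fe := riemannZeta_one_sub (s := sl t) (fun n h => by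
    rw [h] at hre
    simp only [neg_re, natCast_re] at hre
    linarith [n.cast_nonneg (α := ℝ)]) h1
  have e1 : riemannZeta₁ (sl t) = (sl t - 1) * riemannZeta (sl t) := by
    rw [riemannZeta_eq_inv_sub_mul h1]; field_simp [sub_ne_zero.2 h1]
  have e2 : exp (sl t * Real.log q) * exp ((Real.log (Real.cos η) + η * I) * sl t) *
      (2 * (2 * π) ^ (-sl t) * cos (π * sl t / 2)) =
      exp (-(sl t * WW η q)) * (1 + exp (π * I * sl t)) := by
    rw [show (2 * π : ℂ) = ((2 * π : ℝ) : ℂ) by push_cast; ring, ← pw_eq _ (by positivity), pw,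
      Complex.cos, WW]
    generalize Real.log (2 * π) = a
    generalize Real.log (Real.cos η) = b
    generalize Real.log q = c
    rw [mul_add, mul_one, ← exp_add, mul_assoc 2, ← mul_div_assoc, ← mul_div_assoc,
      mul_div_cancel_left₀ _ two_ne_zero, mul_add, mul_add, ← exp_add, ← exp_add, ← exp_add,
      ← exp_add, ← exp_add, add_comm]
    congr 2 <;> push_cast <;> ring
  rw [hz, hz'] at fe
  rw [e1, hz, G, Gamma_nat (by rw [hre]; norm_num), tf, R, ← hP]
  rw [mul_div_assoc', mul_div_assoc', eq_div_iff (den_ne t)]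
  linear_combination (sl t - 1) ^ 3 * (∏ j ∈ Finset.range κ, (sl t + j)) *
    (hardyZ t : ℂ) ^ 2 * (starRingEnd ℂ) P ^ 2 *
    (-(hardyZ t * (starRingEnd ℂ) P * Gamma (sl t)) * e2 -
      exp (sl t * Real.log q) * exp ((Real.log (Real.cos η) + η * I) * sl t) * fe) +
    (sl t - 1) ^ 3 * (∏ j ∈ Finset.range κ, (sl t + j)) * (hardyZ t : ℂ) ^ 3 *
      (starRingEnd ℂ) P * exp (sl t * Real.log q) *
      exp ((Real.log (Real.cos η) + η * I) * sl t) * hPP

theorem zeta1_le (σ t : ℝ) (h1 : 1 / 2 ≤ σ) (h2 : σ ≤ 2) :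
    ‖riemannZeta₁ (σ + t * I) ^ 3‖ ≤ (9 * (ZetaA.Z + 1)) ^ 3 * (1 + |t|) ^ 6 := by
  set u : ℂ := σ + t * I with hu
  have hre : u.re = σ := by simp [hu]
  have hZ := ZetaA.Z_nonneg
  have b1 : ‖riemannZeta₁ u - 1‖ ≤ ‖u - 1‖ * ‖u‖ * ZetaA.Z := by
    rw [← ZetaA.tsum_tm u (by linarith), ← ZetaA.tsum_Z', ← tsum_mul_left]
    exact tsum_of_norm_bounded (ZetaA.summable_Z'.mul_left _).hasSum
      fun n => ZetaA.norm_tm_le n u (by linarith)
  have b0 : ‖u‖ ≤ 2 + |t| := by
    have := norm_add_le (σ : ℂ) (t * I)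
    simp only [norm_real, Real.norm_eq_abs, norm_mul, norm_I, mul_one] at this
    have : |σ| ≤ 2 := abs_le.2 ⟨by linarith, h2⟩
    linarith
  have b2 : ‖u - 1‖ ≤ 3 * (1 + |t|) :=
    (norm_sub_le _ _).trans (by rw [norm_one]; linarith [abs_nonneg t])
  have b3 : ‖riemannZeta₁ u‖ ≤ 9 * (ZetaA.Z + 1) * (1 + |t|) ^ 2 := by
    have h := norm_add_le (riemannZeta₁ u - 1) 1
    simp only [sub_add_cancel, norm_one] at h
    have h3 : ‖u - 1‖ * ‖u‖ * ZetaA.Z ≤ 3 * (1 + |t|) * (3 * (1 + |t|)) * ZetaA.Z := by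
      gcongr
      linarith [abs_nonneg t]
    nlinarith [abs_nonneg t]
  rw [norm_pow]
  calc _ ≤ (9 * (ZetaA.Z + 1) * (1 + |t|) ^ 2) ^ 3 := by gcongr
    _ = _ := by ring

theorem zeta_hasSum {z : ℂ} (hz : 1 < z.re) :
    HasSum (fun n : ℕ => 1 * pw (-z) (n + 1)) (riemannZeta z) := by
  simpa [ZMod.LFunction_modOne_eq] using LF_hasSum (q := 1) (fun _ => 1) hz

variable {η : ℝ} (q : ℕ) [Fact q.Prime]

/-- the twisted sum -/
noncomputable def T3 (k : ℕ) (μ : ℝ) : ℂ := ∑' i : Ix, ch q (-(nN i : ℕ)) * wk k (μ * nN i)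

theorem norm_T3 (k : ℕ) {μ : ℝ} (hμ : 0 < μ) : ‖T3 q k μ‖ ≤ S3 k μ :=
  tsum_of_norm_bounded (summable3 k hμ).hasSum fun i => by
    rw [norm_mul, AddChar.norm_apply, one_mul, norm_real,
      Real.norm_of_nonneg (wk_nonneg _ (by positivity))]

theorem re_T3 (k : ℕ) {μ : ℝ} (hμ : 0 < μ) :
    ∑' i : Ix, wt (ZMod q) (nN i : ℕ) * wk k (μ * nN i) -
      ‖∑' i : Ix, Ph (ch q) (nN i : ℕ) * wk k (μ * nN i)‖ ≤ (T3 q k μ).re := by
  have h2 : (2 : ℝ) ≤ q := by exact_mod_cast (Fact.out : q.Prime).two_le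
  have hw : ∀ u, |wt (ZMod q) u| ≤ 1 := fun u => by
    unfold wt
    split_ifs
    · simp
    · rw [ZMod.card, abs_div, abs_neg, abs_one, abs_of_pos (by linarith), div_le_one (by linarith)]
      linarith
  have w0 : ∀ i : Ix, 0 ≤ wk k (μ * nN i) := fun i => wk_nonneg _ (by positivity)
  have s1 : Summable fun i : Ix => wt (ZMod q) (nN i : ℕ) * wk k (μ * nN i) :=
    (summable3 k hμ).of_norm_bounded fun i => by
      rw [norm_mul, Real.norm_of_nonneg (w0 i)]
      exact mul_le_of_le_one_left (w0 i) (hw _)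
  have s2 : Summable fun i : Ix => ch q (-(nN i : ℕ)) * wk k (μ * nN i) :=
    (summable3 k hμ).of_norm_bounded fun i => by
      rw [norm_mul, AddChar.norm_apply, one_mul, norm_real, Real.norm_of_nonneg (w0 i)]
  have s3 := (s2.hasSum.sub (hasSum_ofReal.2 s1.hasSum)).tsum_eq
  have e : ∀ i : Ix, ch q (-(nN i : ℕ)) * wk k (μ * nN i) -
      ((wt (ZMod q) (nN i : ℕ) * wk k (μ * nN i) : ℝ) : ℂ) =
      Ph (ch q) (nN i : ℕ) * wk k (μ * nN i) := fun i => by rw [Ph]; push_cast; ring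
  simp only [e] at s3
  rw [s3, ← T3]
  have := (abs_le.1 (abs_re_le_norm (T3 q k μ -
    ((∑' i : Ix, wt (ZMod q) (nN i : ℕ) * wk k (μ * nN i) : ℝ) : ℂ)))).1
  rw [sub_re, ofReal_re] at this
  linarith

/-- the common phase -/
noncomputable def th (η : ℝ) : ℂ := 1 + ((Real.tan η)⁻¹ : ℝ) * I

theorem line2 (h0 : 0 < η) (h1 : η ≤ 1) (k : ℕ) :
    (Integrable fun t : ℝ => riemannZeta ((2 : ℝ) + t * I) ^ 3 * G k (WW η q) ((2 : ℝ) + t * I)) ∧
    ∫ t : ℝ, riemannZeta ((2 : ℝ) + t * I) ^ 3 * G k (WW η q) ((2 : ℝ) + t * I) =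
      2 * π * (th η ^ k * T3 q k (2 * π * Real.tan η / q)) := by
  have hq : (0 : ℝ) < q := by exact_mod_cast (Fact.out : q.Prime).pos
  have hπ := Real.pi_gt_three
  have hc : 0 < Real.cos η := Real.cos_pos_of_mem_Ioo ⟨by linarith, by linarith⟩
  have hs : 0 < Real.sin η := Real.sin_pos_of_pos_of_lt_pi h0 (by linarith)
  have hW : |(WW η q).im| < π / 2 := by
    have : (WW η q).im = π / 2 - η := by
      simp only [WW, add_im, ofReal_im, mul_im, ofReal_re, I_im, I_re]; ring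
    rw [this, abs_lt]; constructor <;> linarith
  constructor
  · refine (master (F := fun z => riemannZeta z ^ 3) hW (k := k) (m := 0) (a := 2) (b := 2)
      (C := S5 ^ 3) (by positivity) le_rfl (fun z h _ => (differentiableAt_riemannZeta
        (by rintro rfl; norm_num at h)).pow 3) fun σ t a b => ?_).1 2 le_rfl le_rfl
    rw [pow_zero, mul_one, norm_pow]
    gcongr
    rw [← (zeta_hasSum (by simp; linarith)).tsum_eq]
    exact tsum_of_norm_bounded H35.summable_aux.hasSum fun n => by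
      rw [one_mul]; exact norm_pw_le (by simp; linarith) n le_rfl
  · have h := (series hW k (c := fun _ : Ix => 1) (n := fun i => nN i) nN_pos
      (by simpa only [norm_one] using summable_nN)).tsum_eq
    have e1 : ∀ t : ℝ, ∑' i : Ix, 1 * exp (-(((2 : ℝ) + t * I) * Real.log (nN i))) =
        riemannZeta ((2 : ℝ) + t * I) ^ 3 := by
      intro t
      have hz := zeta_hasSum (z := (2 : ℝ) + t * I) (by simp)
      have := prod3 (f := fun _ => 1) (g := fun _ => 1) (h := fun _ => 1) (by simp) (by simp)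
        (by simp) (by simp; norm_num) hz hz hz
      rw [pow_three', ← this.tsum_eq]
      simp only [one_mul]
    simp only [e1] at h
    rw [← h, tsum_mul_left, T3, ← tsum_mul_left (a := th η ^ k)]
    congr 1
    refine tsum_congr fun i => ?_
    set μ := 2 * π * Real.tan η / q with hμ
    have e2 : exp (WW η q) = (μ : ℂ) + 2 * π * I / q := by
      rw [WW, exp_add, ← ofReal_exp, exp_mul_I, ← ofReal_cos, ← ofReal_sin, Real.cos_pi_div_two_sub,
        Real.sin_pi_div_two_sub, Real.exp_sub, Real.exp_sub, Real.exp_log (by positivity),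
        Real.exp_log hc, Real.exp_log hq, hμ, Real.tan_eq_sin_div_cos]
      have := ofReal_ne_zero.2 hc.ne'
      have := ofReal_ne_zero.2 hq.ne'
      simp only [ofReal_div, ofReal_mul, ofReal_ofNat, ofReal_natCast] at this ⊢
      field_simp
    have e3 : exp (WW η q) = th η * μ := by
      rw [e2, th, hμ]
      have := ofReal_ne_zero.2 (Real.tan_pos_of_pos_of_lt_pi_div_two h0 (by linarith)).ne'
      have := ofReal_ne_zero.2 hq.ne'
      simp only [ofReal_div, ofReal_mul, ofReal_ofNat, ofReal_natCast, ofReal_inv] at this ⊢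
      field_simp
    have e4 : ch q (-(nN i : ℕ)) = exp (-(nN i * (2 * π * I / q))) := by
      have := ZMod.stdAddChar_coe (N := q) (-(nN i : ℕ))
      push_cast at this
      rw [this]; congr 1; ring
    rw [e4, wk, one_mul]
    nth_rewrite 1 [e3]
    rw [e2, mul_add, neg_add, exp_add]
    push_cast
    ring_nf

theorem corr (h0 : 0 < η) (h1 : η ≤ 1) (κ : ℕ) :
    (Integrable fun t : ℝ => (hardyZ t : ℂ) ^ 3 * tf κ η q t) ∧
    ∫ t : ℝ, (hardyZ t : ℂ) ^ 3 * tf κ η q t = 2 * π * (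
      th η ^ (κ + 3) * T3 q (κ + 3) (2 * π * Real.tan η / q) -
      3 * (κ + 2) * (th η ^ (κ + 2) * T3 q (κ + 2) (2 * π * Real.tan η / q)) +
      (3 * (κ + 1) ^ 2 + 3 * (κ + 1) + 1) *
        (th η ^ (κ + 1) * T3 q (κ + 1) (2 * π * Real.tan η / q)) -
      (κ + 1) ^ 3 * (th η ^ κ * T3 q κ (2 * π * Real.tan η / q))) := by
  have hπ := Real.pi_gt_three
  have hW : |(WW η q).im| < π / 2 := by
    have : (WW η q).im = π / 2 - η := by
      simp only [WW, add_im, ofReal_im, mul_im, ofReal_re, I_im, I_re]; ring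
    rw [this, abs_lt]; constructor <;> linarith
  have hm := master (F := fun z => riemannZeta₁ z ^ 3) hW (k := κ) (a := 1 / 2) (b := 2)
    (by positivity) (by norm_num) (fun z _ _ => (differentiable_riemannZeta₁ z).pow 3) zeta1_le
  have hl := line_eq κ η q
  simp only [sl] at hl
  refine ⟨by simpa only [hl] using hm.1 (1 / 2) le_rfl (by norm_num), ?_⟩
  have e : ∀ t : ℝ, riemannZeta₁ ((2 : ℝ) + t * I) ^ 3 * G κ (WW η q) ((2 : ℝ) + t * I) =
      riemannZeta ((2 : ℝ) + t * I) ^ 3 * G (κ + 3) (WW η q) ((2 : ℝ) + t * I) -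
      3 * (κ + 2) * (riemannZeta ((2 : ℝ) + t * I) ^ 3 * G (κ + 2) (WW η q) ((2 : ℝ) + t * I)) +
      (3 * (κ + 1) ^ 2 + 3 * (κ + 1) + 1) *
        (riemannZeta ((2 : ℝ) + t * I) ^ 3 * G (κ + 1) (WW η q) ((2 : ℝ) + t * I)) -
      (κ + 1) ^ 3 * (riemannZeta ((2 : ℝ) + t * I) ^ 3 * G κ (WW η q) ((2 : ℝ) + t * I)) := by
    intro t
    set s : ℂ := (2 : ℝ) + t * I with hs
    have hre : s.re = 2 := by simp [hs]
    have h1 : s ≠ 1 := fun h => by rw [h] at hre; norm_num at hre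
    have e1 : riemannZeta₁ s = (s - 1) * riemannZeta s := by
      rw [riemannZeta_eq_inv_sub_mul h1]; field_simp [sub_ne_zero.2 h1]
    simp only [e1, G, Gamma_nat (show 0 < s.re by linarith), Finset.prod_range_succ]
    push_cast
    ring
  obtain ⟨a0, b0⟩ := line2 q h0 h1 κ
  obtain ⟨a1, b1⟩ := line2 q h0 h1 (κ + 1)
  obtain ⟨a2, b2⟩ := line2 q h0 h1 (κ + 2)
  obtain ⟨a3, b3⟩ := line2 q h0 h1 (κ + 3)
  have := hm.2
  simp only [hl, e] at this
  rw [this, integral_sub _ (a0.const_mul _), integral_add _ (a1.const_mul _),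
    integral_sub a3 (a2.const_mul _),
    integral_const_mul, integral_const_mul, integral_const_mul, b0, b1, b2, b3]
  · ring
  · exact a3.sub (a2.const_mul _)
  · exact (a3.sub (a2.const_mul _)).add (a1.const_mul _)

end Pool.Agent.MP_74e98a_nt.H98
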