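import Pool.Agent.MP_6f2ed2_nt.H1.Assemble
import Pool.Agent.MP_74e98a_nt.H44.Cube
import Pool.Agent.MP_74e98a_nt.H93.Phase
import Pool.Agent.MP_74e98a_nt.H98.Test

/-! Size and logarithmic derivative of the amplitude of the test functions. -/

namespace Pool.Agent.MP_74e98a_nt.H98

open Complex Filter Topology Set MeasureTheory
open scoped Real Nat
open Pool.Agent.MP_6f2ed2_nt Pool.Agent.MP_6f2ed2_nt.H1
open H93 (Fq ell th0)

/-- a bound for the logarithmic derivative -/
def LD (f : ℝ → ℂ) (ρ t : ℝ) : Prop := DifferentiableAt ℝ f t ∧ ‖deriv f t‖ ≤ ρ * ‖f t‖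

variable {f g : ℝ → ℂ} {ρ σ t : ℝ}

theorem LD.mono (h : LD f ρ t) (h' : ρ ≤ σ) : LD f σ t :=
  ⟨h.1, h.2.trans (mul_le_mul_of_nonneg_right h' (norm_nonneg _))⟩

theorem LD.mul (hf : LD f ρ t) (hg : LD g σ t) : LD (fun x => f x * g x) (ρ + σ) t := by
  refine ⟨hf.1.mul hg.1, ?_⟩
  rw [deriv_fun_mul hf.1 hg.1]
  refine (norm_add_le _ _).trans ?_
  simp only [norm_mul]
  nlinarith [mul_le_mul_of_nonneg_right hf.2 (norm_nonneg (g t)),
    mul_le_mul_of_nonneg_left hg.2 (norm_nonneg (f t))]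

theorem LD.div (hf : LD f ρ t) (hg : LD g σ t) (h0 : g t ≠ 0) :
    LD (fun x => f x / g x) (ρ + σ) t := by
  simp only [div_eq_mul_inv]
  refine hf.mul ⟨hg.1.inv h0, ?_⟩
  have hp := norm_pos_iff.2 h0
  rw [(hg.1.hasDerivAt.fun_inv h0).deriv, norm_div, norm_neg, norm_pow, norm_inv,
    div_le_iff₀ (by positivity)]
  exact hg.2.trans (le_of_eq (by field_simp))

theorem LD.prod {F : ℕ → ℝ → ℂ} (h : ∀ j, LD (F j) ρ t) (n : ℕ) :
    LD (fun x => ∏ j ∈ Finset.range n, F j x) (n * ρ) t := by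
  induction n with
  | zero => simp [LD]
  | succ n ih =>
    simp only [Finset.prod_range_succ]
    exact (ih.mul (h n)).mono (le_of_eq (by push_cast; ring))

theorem LD_exp {g' : ℂ} (h : HasDerivAt g g' t) : LD (fun x => exp (g x)) ‖g'‖ t :=
  ⟨h.cexp.differentiableAt, by rw [h.cexp.deriv, norm_mul, mul_comm]⟩

theorem hasDerivAt_sl (t : ℝ) : HasDerivAt sl I t :=
  (((hasDerivAt_id t).ofReal_comp.mul_const I).const_add ((1 / 2 : ℝ) : ℂ)).congr_deriv (by simp)

theorem LD_sl (c : ℝ) (ht : 0 < t) : LD (fun x => sl x + c) (1 / t) t := by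
  have h := (hasDerivAt_sl t).add_const (c : ℂ)
  refine ⟨h.differentiableAt, ?_⟩
  rw [h.deriv, norm_I, one_div, ← div_eq_inv_mul, one_le_div ht]
  simpa [sl] using im_le_norm (sl t + c)

theorem LD_den (t : ℝ) : LD (fun x => 1 + exp (π * I * sl x)) (π * Real.exp (-(π * t))) t := by
  have h := (((hasDerivAt_sl t).const_mul (π * I)).cexp).const_add 1
  refine ⟨h.differentiableAt, ?_⟩
  rw [h.deriv]
  nth_rewrite 1 [exp_sl]
  simp only [norm_mul, norm_I, norm_real, mul_one, Real.norm_of_nonneg Real.pi_pos.le,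
    Real.norm_of_nonneg (Real.exp_pos _).le]
  rw [mul_comm]
  exact le_mul_of_one_le_right (by positivity) (norm_den t).1

theorem LD_R (κ : ℕ) (η : ℝ) (ht : 0 < t) :
    LD (R κ η) ((κ + 3) / t + (|Real.log (Real.cos η)| + |η|) + π * Real.exp (-(π * t))) t := by
  have h1 := LD.prod (F := fun _ x => sl x + ((-1 : ℝ) : ℂ)) (fun _ => LD_sl (-1) ht) 3
  have h2 := LD.prod (F := fun j x => sl x + ((j : ℝ) : ℂ)) (fun j => LD_sl j ht) κ
  have h3 := LD_exp ((hasDerivAt_sl t).const_mul (Real.log (Real.cos η) + η * I : ℂ))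
  have h4 := ((h1.mul h2).mul h3).div (LD_den t) (den_ne t)
  have e : R κ η = fun x => (∏ _j ∈ Finset.range 3, (sl x + ((-1 : ℝ) : ℂ))) *
      (∏ j ∈ Finset.range κ, (sl x + ((j : ℝ) : ℂ))) *
      exp ((Real.log (Real.cos η) + η * I) * sl x) / (1 + exp (π * I * sl x)) := by
    funext x
    simp [R, sub_eq_add_neg]
  rw [e]
  refine h4.mono ?_
  have : ‖(Real.log (Real.cos η) + η * I : ℂ) * I‖ ≤ |Real.log (Real.cos η)| + |η| := by
    rw [norm_mul, norm_I, mul_one]
    refine (norm_add_le _ _).trans ?_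
    simp only [norm_mul, norm_I, mul_one, norm_real, Real.norm_eq_abs, le_refl]
  push_cast at this ⊢
  have e2 : 3 * (1 / t) + κ * (1 / t) = (κ + 3) / t := by ring
  linarith

theorem diff_phase (t : ℝ) : DifferentiableAt ℝ hardyPhase t := by
  have h0 : DifferentiableAt ℝ (fun x : ℝ => (x : ℂ)) t := ofRealCLM.differentiableAt
  have h1 : DifferentiableAt ℝ (fun x : ℝ => Gamma (1 / 4 + I * x / 2)) t := by
    refine DifferentiableAt.comp (g := Gamma) t (DifferentiableAt.restrictScalars ℝ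
      (differentiableAt_Gamma _ fun m h => ?_)) (((h0.const_mul I).div_const 2).const_add _)
    have := congrArg re h
    simp at this
    linarith [m.cast_nonneg (α := ℝ)]
  unfold hardyPhase
  simp_rw [b_cpow]
  refine ((((h0.const_mul I).div_const 2).neg.const_mul _).cexp.mul h1).div
    (ofRealCLM.differentiableAt.comp t (h1.norm ℝ (b_ne_quarter t))) ?_
  exact ofReal_ne_zero.mpr (norm_ne_zero_iff.mpr (b_ne_quarter t))

theorem LD_Fq : ∃ C t0 : ℝ, 0 ≤ C ∧ ∀ T t : ℝ, t0 ≤ T → 0 < T → T < t →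
    LD (fun x => (starRingEnd ℂ) (Fq x)) (C / T) t := by
  obtain ⟨C, t0, h⟩ := H93.phase.2.2
  refine ⟨|C|, t0, abs_nonneg _, fun T t h0 hT ht => ⟨?_, ?_⟩⟩
  · refine conjCLE.differentiableAt.comp t ((diff_phase t).mul ?_)
    exact ((H44.hasDerivAt_th0 (hT.trans ht)).ofReal_comp.const_mul I).neg.cexp.differentiableAt
  · rw [norm_conj, H93.norm_Fq, mul_one]
    refine norm_deriv_le_of_lip' (by positivity) ?_
    filter_upwards [Ioi_mem_nhds ht] with x hx
    rw [← map_sub, norm_conj]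
    refine (h T x t h0 (le_of_lt hx) ht.le).trans ?_
    rw [Real.norm_eq_abs, div_mul_eq_mul_div]
    gcongr
    exact le_abs_self C

/-- the amplitude with the central frequency -/
noncomputable def Am (κ : ℕ) (η L t : ℝ) : ℂ :=
  (starRingEnd ℂ) (Fq t) * exp (I * (t * L - th0 t : ℝ)) * R κ η t

theorem norm_Am (κ : ℕ) (η L t : ℝ) : ‖Am κ η L t‖ = ‖R κ η t‖ := by
  rw [Am, norm_mul, norm_mul, norm_conj, H93.norm_Fq, mul_comm I, norm_exp_ofReal_mul_I]
  simp

theorem tf_eq (κ : ℕ) (η L : ℝ) {q : ℕ} (hq : 1 ≤ q) (t : ℝ) :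
    tf κ η q t = Am κ η L t * ((√q : ℝ) * exp (I * (t * (Real.log q - L) : ℝ))) := by
  have e1 : (starRingEnd ℂ) (Fq t) = (starRingEnd ℂ) (hardyPhase t) * exp (I * th0 t) := by
    rw [Fq, map_mul, ← exp_conj]
    simp
  have e2 : ((√q : ℝ) : ℂ) = exp (Real.log q / 2 : ℝ) := by
    rw [← ofReal_exp, Real.exp_half, Real.exp_log (by exact_mod_cast hq)]
  have e3 : exp (sl t * Real.log q) = exp (I * th0 t) * exp (I * (t * L - th0 t : ℝ)) *
      (exp (Real.log q / 2 : ℝ) * exp (I * (t * (Real.log q - L) : ℝ))) := by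
    rw [← exp_add, ← exp_add, ← exp_add, sl]
    congr 1
    simp only [ofReal_sub, ofReal_mul, ofReal_div, ofReal_ofNat, ofReal_one]
    ring
  rw [tf, Am, e1, e2, e3]
  ring

theorem LD_Am : ∃ C t0 : ℝ, 0 ≤ C ∧ ∀ (κ : ℕ) (η L T t : ℝ), t0 ≤ T → 0 < T → T < t →
    LD (Am κ η L) (C / T + |L - ell t| +
      ((κ + 3) / t + (|Real.log (Real.cos η)| + |η|) + π * Real.exp (-(π * t)))) t := by
  obtain ⟨C, t0, hC, h⟩ := LD_Fq
  refine ⟨C, t0, hC, fun κ η L T t h0 hT ht => ?_⟩
  have h1 : HasDerivAt (fun x => x * L - th0 x) (L - ell t) t :=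
    (((hasDerivAt_id t).mul_const L).sub (H44.hasDerivAt_th0 (hT.trans ht))).congr_deriv (by simp)
  have h2 := LD_exp (h1.ofReal_comp.const_mul I)
  rw [norm_mul, norm_I, one_mul, norm_real, Real.norm_eq_abs] at h2
  exact ((h T t h0 hT ht).mul h2).mul (LD_R κ η (hT.trans ht))

theorem norm_R_le {κ : ℕ} (hκ : 1 ≤ κ) {η : ℝ} (h0 : 0 < η) (h1 : η ≤ 1) (t : ℝ) :
    ‖R κ η t‖ ≤ (|t| + κ) ^ (κ + 3) * Real.exp (-(η * t)) / ‖1 + exp (π * I * sl t)‖ := by
  have hκ' : (1 : ℝ) ≤ κ := by exact_mod_cast hκ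
  have hc : 0 < Real.cos η :=
    Real.cos_pos_of_mem_Ioo ⟨by linarith [Real.pi_gt_three], by linarith [Real.pi_gt_three]⟩
  have a : ∀ c : ℝ, |1 / 2 + c| ≤ κ → ‖sl t + c‖ ≤ |t| + κ := fun c hc => by
    rw [show sl t + c = (1 / 2 + c : ℝ) + t * I by rw [sl]; push_cast; ring]
    refine (norm_add_le _ _).trans ?_
    rw [norm_mul, norm_I, mul_one, norm_real, norm_real, Real.norm_eq_abs, Real.norm_eq_abs]
    linarith
  have a1 : ‖sl t - 1‖ ≤ |t| + κ := by
    have := a (-1) (by rw [abs_le]; constructor <;> linarith)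
    simpa [sub_eq_add_neg] using this
  have a2 : ‖∏ j ∈ Finset.range κ, (sl t + j)‖ ≤ (|t| + κ) ^ κ := by
    rw [norm_prod]
    refine (Finset.prod_le_prod (fun _ _ => norm_nonneg _) (g := fun _ => |t| + κ)
      fun j hj => ?_).trans (by simp)
    have : (j : ℝ) + 1 ≤ κ := by exact_mod_cast Finset.mem_range.1 hj
    simpa using a j (by rw [abs_le]; constructor <;> linarith [j.cast_nonneg (α := ℝ)])
  have a3 : ‖exp ((Real.log (Real.cos η) + η * I) * sl t)‖ ≤ Real.exp (-(η * t)) := by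
    rw [norm_exp]
    refine Real.exp_le_exp.2 ?_
    have := Real.log_nonpos hc.le (Real.cos_le_one η)
    simp only [sl, mul_re, add_re, add_im, ofReal_re, ofReal_im, mul_im, I_re, I_im]
    linarith
  rw [R, norm_div, norm_mul, norm_mul, norm_pow, pow_add, mul_comm (_ ^ κ)]
  gcongr

/-- the weight -/
noncomputable def gw (k : ℕ) (η u : ℝ) : ℝ := u ^ k * Real.exp (-(η * u))

theorem norm_R_pos {κ : ℕ} (hκ : 1 ≤ κ) {η : ℝ} (h0 : 0 < η) (h1 : η ≤ 1) (h2 : η * κ ≤ 1)
    (ht : 0 ≤ t) : ‖R κ η t‖ ≤ 3 * gw (κ + 3) η (t + κ) := by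
  refine (norm_R_le hκ h0 h1 t).trans ((div_le_self (by positivity) (norm_den t).1).trans ?_)
  rw [abs_of_nonneg ht, gw, mul_left_comm]
  gcongr
  rw [show -(η * t) = η * κ + -(η * (t + κ)) by ring, Real.exp_add]
  gcongr
  exact (Real.exp_le_exp.2 h2).trans (by linarith [Real.exp_one_lt_d9])

theorem norm_R_tail {κ : ℕ} (hκ : 1 ≤ κ) {η : ℝ} (h0 : 0 < η) (h1 : η ≤ 1 / 4) (h2 : η * κ ≤ 1)
    (ht : η * t ≤ (κ + 3) / 2 ∨ 2 * (κ + 3) ≤ η * t) :
    ‖R κ η t‖ ≤ 9 * ((κ + 3)! / η ^ (κ + 3)) * (7 / 8) ^ (κ + 3) * Real.exp (-(η / 20 * |t|)) := by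
  have hκ0 : (0 : ℝ) ≤ κ := κ.cast_nonneg
  have hp : ∀ {x y : ℝ}, 0 ≤ x → x * Real.exp y ≤ 7 / 8 →
      x ^ (κ + 3) * Real.exp ((κ + 3 : ℕ) * y) ≤ (7 / 8) ^ (κ + 3) := fun hx h => by
    rw [Real.exp_nat_mul, ← mul_pow]
    exact pow_le_pow_left₀ (by positivity) h _
  set k := κ + 3 with hk
  have hk' : (k : ℝ) = κ + 3 := by rw [hk]; push_cast; ring
  rcases le_total t 0 with h | h
  · refine (norm_R_le hκ h0 (by linarith) t).trans ?_
    rw [div_le_iff₀ (one_pos.trans_le (norm_den t).1)]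
    have b1 := pow_le_fac k one_pos (show 0 ≤ |t| + κ by positivity)
    have b2 := hp (x := η) (y := 1) h0.le (by nlinarith [Real.exp_one_lt_d9])
    have b3 : Real.exp (1 * (|t| + κ)) * Real.exp (-(η * t)) ≤
        Real.exp (k * 1) * (Real.exp (-(η / 20 * |t|)) * Real.exp (-(π * t))) := by
      rw [← Real.exp_add, ← Real.exp_add, ← Real.exp_add, abs_of_nonpos h, hk']
      refine Real.exp_le_exp.2 ?_
      nlinarith [Real.pi_gt_three]
    calc _ ≤ k ! / 1 ^ k * Real.exp (1 * (|t| + κ)) * Real.exp (-(η * t)) := by gcongr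
      _ ≤ k ! * (Real.exp (k * 1) * (Real.exp (-(η / 20 * |t|)) * Real.exp (-(π * t)))) := by
          rw [one_pow, div_one, mul_assoc]
          gcongr
      _ = 1 * (k ! / η ^ k) * (η ^ k * Real.exp (k * 1)) * Real.exp (-(η / 20 * |t|)) *
          Real.exp (-(π * t)) := by field_simp
      _ ≤ _ := by
          gcongr
          · norm_num
          · exact (norm_den t).2
  · refine (norm_R_pos hκ h0 (by linarith) h2 h).trans ?_
    rw [abs_of_nonneg h, gw]
    have hu : 0 ≤ t + κ := by positivity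
    rcases ht with ht | ht
    · have b1 := pow_le_fac k (c := 2 * η) (by positivity) hu
      have b2 := hp (x := 1 / 2) (y := 21 / 40) (by norm_num) (by
        have := Real.exp_bound' (x := 21 / 40) (by norm_num) (by norm_num) (n := 4) (by norm_num)
        norm_num [Finset.sum_range_succ, Nat.factorial] at this ⊢
        linarith)
      have b3 : Real.exp (2 * η * (t + κ)) * Real.exp (-(η * (t + κ))) ≤
          Real.exp 1 * (Real.exp (k * (21 / 40)) * Real.exp (-(η / 20 * t))) := by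
        rw [← Real.exp_add, ← Real.exp_add, ← Real.exp_add, hk']
        refine Real.exp_le_exp.2 ?_
        nlinarith
      calc _ ≤ 3 * (k ! / (2 * η) ^ k * Real.exp (2 * η * (t + κ)) *
            Real.exp (-(η * (t + κ)))) := by gcongr
        _ ≤ 3 * (k ! / (2 * η) ^ k *
            (Real.exp 1 * (Real.exp (k * (21 / 40)) * Real.exp (-(η / 20 * t))))) := by
            rw [mul_assoc (_ / _)]
            gcongr
        _ = 3 * Real.exp 1 * (k ! / η ^ k) * ((1 / 2) ^ k * Real.exp (k * (21 / 40))) *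
            Real.exp (-(η / 20 * t)) := by rw [mul_pow, one_div, inv_pow]; field_simp
        _ ≤ _ := by
            gcongr
            linarith [Real.exp_one_lt_d9]
    · have b1 := pow_le_fac k (c := η / 2) (by positivity) hu
      have b2 := hp (x := 2) (y := -(9 / 10)) (by norm_num) (by
        have := Real.sum_le_exp_of_nonneg (x := 9 / 10) (by norm_num) 4
        norm_num [Finset.sum_range_succ, Nat.factorial] at this
        rw [Real.exp_neg, ← div_eq_mul_inv, div_le_iff₀ (Real.exp_pos _)]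
        linarith)
      have b3 : Real.exp (η / 2 * (t + κ)) * Real.exp (-(η * (t + κ))) ≤
          Real.exp (k * -(9 / 10)) * Real.exp (-(η / 20 * t)) := by
        rw [← Real.exp_add, ← Real.exp_add, hk']
        refine Real.exp_le_exp.2 ?_
        nlinarith
      calc _ ≤ 3 * (k ! / (η / 2) ^ k * Real.exp (η / 2 * (t + κ)) *
            Real.exp (-(η * (t + κ)))) := by gcongr
        _ ≤ 3 * (k ! / (η / 2) ^ k *
            (Real.exp (k * -(9 / 10)) * Real.exp (-(η / 20 * t)))) := by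
            rw [mul_assoc (_ / _)]
            gcongr
        _ = 3 * (k ! / η ^ k) * (2 ^ k * Real.exp (k * -(9 / 10))) *
            Real.exp (-(η / 20 * t)) := by rw [div_pow]; field_simp
        _ ≤ _ := by
            gcongr
            norm_num

theorem ibp {ψ W : ℝ → ℝ} {a b B : ℝ} (hψ : Continuous ψ) (hab : a ≤ b) (hW : Continuous W)
    (hg : ∀ t ∈ Icc a b, DifferentiableAt ℝ g t ∧ ‖deriv g t‖ ≤ W t)
    (hB : ∀ t ∈ Icc a b, |∫ x in a..t, ψ x| ≤ B) :
    ‖∫ t in a..b, (ψ t : ℂ) * g t‖ ≤ B * (‖g b‖ + ∫ t in a..b, W t) := by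
  have hB0 : 0 ≤ B := (abs_nonneg _).trans (hB a (left_mem_Icc.2 hab))
  have h1 : ∀ t, HasDerivAt (fun t => ((∫ x in a..t, ψ x : ℝ) : ℂ)) (ψ t) t := fun t =>
    (hψ.integral_hasStrictDerivAt a t).hasDerivAt.ofReal_comp
  have h2 : IntervalIntegrable (deriv g) volume a b := by
    refine (hW.intervalIntegrable a b).mono_fun' (measurable_deriv g).aestronglyMeasurable ?_
    rw [uIoc_of_le hab]
    exact (ae_restrict_iff' measurableSet_Ioc).2 (.of_forall fun t ht =>
      (hg t (Ioc_subset_Icc_self ht)).2)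
  have h3 := intervalIntegral.integral_mul_deriv_eq_deriv_mul (u := g) (u' := deriv g)
    (fun t ht => (hg t (by rwa [uIcc_of_le hab] at ht)).1.hasDerivAt) (fun t _ => h1 t) h2
    ((continuous_ofReal.comp hψ).intervalIntegrable a b)
  simp only [mul_comm (ψ _ : ℂ)]
  rw [h3, intervalIntegral.integral_same, ofReal_zero, mul_zero, sub_zero, mul_add]
  refine (norm_sub_le _ _).trans (add_le_add ?_ ?_)
  · rw [norm_mul, mul_comm, norm_real]
    exact mul_le_mul_of_nonneg_right (hB b (right_mem_Icc.2 hab)) (norm_nonneg _)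
  · rw [← intervalIntegral.integral_const_mul]
    refine intervalIntegral.norm_integral_le_of_norm_le hab (.of_forall fun t ht => ?_)
      ((hW.const_mul B).intervalIntegrable a b)
    rw [norm_mul, mul_comm, norm_real]
    exact mul_le_mul (hB t (Ioc_subset_Icc_self ht)) (hg t (Ioc_subset_Icc_self ht)).2
      (norm_nonneg _) hB0

end Pool.Agent.MP_74e98a_nt.H98
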