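import Pool.Agent.MP_6f2ed2_nt.H35.Alt
import Pool.Agent.MP_74e98a_nt.H98.Ker
import Pool.Agent.MP_74e98a_nt.H98.Klo

/-! The oscillating part of the additively twisted triple sum. -/

namespace Pool.Agent.MP_74e98a_nt.H98

open Complex Filter Topology Set MeasureTheory
open scoped Real Nat
open Pool.Agent.MP_6f2ed2_nt
open Pool.Agent.MP_ca0a54_nt.L0.ZetaA (pw norm_pw pw_eq hasDerivAt_pw)

/-- triples -/
abbrev Ix := (ℕ × ℕ) × ℕ

/-- the product of a triple of positive integers -/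
def nN (i : Ix) : ℕ := (i.1.1 + 1) * (i.1.2 + 1) * (i.2 + 1)

theorem nN_cast (i : Ix) : (nN i : ℝ) = ((i.1.1 : ℝ) + 1) * (i.1.2 + 1) * (i.2 + 1) := by
  simp [nN]

theorem nN_pos (i : Ix) : (0 : ℝ) < nN i := by rw [nN_cast]; positivity

/-- a constant -/
noncomputable def S5 : ℝ := ∑' n : ℕ, ((n : ℝ) + 1) ^ (-(5 / 4) : ℝ)

theorem S5_nonneg : 0 ≤ S5 := tsum_nonneg fun _ => by positivity

theorem norm_pw_le {z : ℂ} (hz : z.re ≤ -(5 / 4)) (n : ℕ) {u : ℝ} (hu : (n : ℝ) + 1 ≤ u) :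
    ‖pw z u‖ ≤ ((n : ℝ) + 1) ^ (-(5 / 4) : ℝ) := by
  have h : (1 : ℝ) ≤ n + 1 := by linarith [n.cast_nonneg (α := ℝ)]
  rw [norm_pw _ (by linarith)]
  exact (Real.rpow_le_rpow_of_exponent_le (by linarith) hz).trans
    (Real.rpow_le_rpow_of_nonpos (by linarith) hu (by norm_num))

theorem sum_norm_pw {f : ℕ → ℂ} (hf : ∀ n, ‖f n‖ ≤ 1) {z : ℂ} (hz : 5 / 4 ≤ z.re) :
    Summable fun n : ℕ => ‖f n * pw (-z) (n + 1)‖ :=
  .of_nonneg_of_le (fun _ => norm_nonneg _) (fun n => by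
    rw [norm_mul]
    exact (mul_le_of_le_one_left (norm_nonneg _) (hf n)).trans
      (norm_pw_le (by simpa) n le_rfl)) H35.summable_aux

theorem prod3 {f g h : ℕ → ℂ} (hf : ∀ n, ‖f n‖ ≤ 1) (hg : ∀ n, ‖g n‖ ≤ 1) (hh : ∀ n, ‖h n‖ ≤ 1)
    {z A B C : ℂ} (hz : 5 / 4 ≤ z.re) (hA : HasSum (fun n : ℕ => f n * pw (-z) (n + 1)) A)
    (hB : HasSum (fun n : ℕ => g n * pw (-z) (n + 1)) B)
    (hC : HasSum (fun n : ℕ => h n * pw (-z) (n + 1)) C) :
    HasSum (fun i : Ix => f i.1.1 * g i.1.2 * h i.2 * exp (-(z * Real.log (nN i)))) (A * B * C) := by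
  have h1 := (sum_norm_pw hf hz).mul_norm (sum_norm_pw hg hz)
  have h2 := (hA.mul hB h1.of_norm).mul hC (h1.mul_norm (sum_norm_pw hh hz)).of_norm
  refine h2.congr_fun fun i => ?_
  rw [nN_cast, Real.log_mul (by positivity) (by positivity),
    Real.log_mul (by positivity) (by positivity)]
  simp only [pw, ofReal_add, mul_add, neg_add, exp_add, neg_mul]
  ring

theorem summable_nN : Summable fun i : Ix => 1 / (nN i : ℝ) ^ 2 := by
  have h : Summable fun n : ℕ => 1 / ((n : ℝ) + 1) ^ 2 := by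
    simpa using (summable_nat_add_iff 1).2 (Real.summable_one_div_nat_pow.2 one_lt_two)
  have h0 : (0 : ℕ → ℝ) ≤ fun n : ℕ => 1 / ((n : ℝ) + 1) ^ 2 := fun n => by positivity
  refine ((h.mul_of_nonneg h h0 h0).mul_of_nonneg h (fun n => mul_nonneg (h0 _) (h0 _)) h0).congr
    fun i => ?_
  rw [nN_cast]; field_simp

theorem LF_hasSum {q : ℕ} [NeZero q] (Φ : ZMod q → ℂ) {z : ℂ} (hz : 1 < z.re) :
    HasSum (fun n : ℕ => Φ ((n + 1 : ℕ) : ZMod q) * pw (-z) (n + 1)) (ZMod.LFunction Φ z) := by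
  have h := (ZMod.LSeriesSummable_of_one_lt_re Φ hz).hasSum
  rw [← hasSum_nat_add_iff' 1] at h
  simp only [Finset.range_one, Finset.sum_singleton, LSeries.term_zero, sub_zero] at h
  rw [ZMod.LFunction_eq_LSeries Φ hz]
  refine h.congr_fun fun n => ?_
  rw [LSeries.term_of_ne_zero (by omega), pw_eq _ (by positivity), cpow_neg]
  simp [div_eq_mul_inv]

/-- second difference -/
noncomputable def d2 (ξ : ℂ) (n : ℕ) (z : ℂ) : ℂ :=
  ξ ^ (n + 2) * (pw (-z) (n + 1 + 2) - 2 * pw (-z) (n + 1 + 1) + pw (-z) (n + 1))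

theorem norm_d2 {ξ z : ℂ} (hξ : ‖ξ‖ = 1) (hz : -(3 / 4) ≤ z.re) (n : ℕ) :
    ‖d2 ξ n z‖ ≤ ‖z‖ * (‖z‖ + 1) * ((n : ℝ) + 1) ^ (-(5 / 4) : ℝ) := by
  have h : (0 : ℝ) < n + 1 := by positivity
  rw [d2, norm_mul, norm_pow, hξ, one_pow, one_mul]
  refine H35.second_diff (f' := fun u => -z * pw (-z - 1) u)
    (f'' := fun u => -z * ((-z - 1) * pw (-z - 1 - 1) u))
    (fun u hu => hasDerivAt_pw _ (by linarith))
    (fun u hu => (hasDerivAt_pw _ (by linarith)).const_mul _) fun u hu => ?_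
  rw [norm_mul, norm_mul, norm_neg, mul_assoc]
  gcongr
  · exact (norm_sub_le _ _).trans (by simp)
  · exact norm_pw_le (by simp; linarith) n hu

theorem growth {ξ : ℂ} (hξ : ‖ξ‖ = 1) (h1 : ξ ≠ 1) {E : ℂ → ℂ} (hE : Differentiable ℂ E)
    (hs : ∀ z : ℂ, 1 < z.re → HasSum (fun n : ℕ => ξ ^ (n + 1) * pw (-z) (n + 1)) (E z)) :
    ∃ C, ∀ z : ℂ, -(1 / 2) ≤ z.re → ‖E z‖ ≤ C * (1 + ‖z‖) ^ 2 := by
  have hU : IsOpen {s : ℂ | -(3 / 4) < s.re} := isOpen_lt continuous_const continuous_re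
  have hdd : ∀ n, Differentiable ℂ (d2 ξ n) := fun n => by unfold d2 pw; fun_prop
  have hd : DifferentiableOn ℂ (fun s => ∑' n, d2 ξ n s) {s : ℂ | -(3 / 4) < s.re} := by
    intro z hz
    have hV : IsOpen ({s : ℂ | -(3 / 4) < s.re} ∩ Metric.ball 0 (‖z‖ + 1)) :=
      hU.inter Metric.isOpen_ball
    have := differentiableOn_tsum_of_summable_norm (F := d2 ξ)
      (H35.summable_aux.mul_left ((‖z‖ + 1) * (‖z‖ + 1 + 1))) (fun n => (hdd n).differentiableOn)
      hV (fun n w hw => by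
        have hw2 : ‖w‖ < ‖z‖ + 1 := by simpa using hw.2
        refine (norm_d2 hξ (le_of_lt hw.1) n).trans ?_
        gcongr)
    exact (this.differentiableAt (hV.mem_nhds ⟨hz, by simp⟩)).differentiableWithinAt
  have key : ∀ z : ℂ, -(3 / 4) < z.re → ξ * ∑' n, d2 ξ n z =
      (1 - ξ) ^ 2 * E z - ξ - ξ ^ 2 * pw (-z) 2 + 2 * ξ ^ 2 := by
    intro s hs'
    have hb : AnalyticOnNhd ℂ (fun z => (1 - ξ) ^ 2 * E z - ξ - ξ ^ 2 * pw (-z) 2 + 2 * ξ ^ 2)
        {s : ℂ | -(3 / 4) < s.re} :=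
      (Differentiable.differentiableOn (by unfold pw; fun_prop)).analyticOnNhd hU
    refine ((hd.const_mul ξ).analyticOnNhd hU).eqOn_of_preconnected_of_eventuallyEq hb
      (convex_halfSpace_re_gt _).isPreconnected (z₀ := 3) (by simp; norm_num) ?_ hs'
    have : {s : ℂ | 1 < s.re} ∈ 𝓝 (3 : ℂ) :=
      (isOpen_lt continuous_const continuous_re).mem_nhds (by simp)
    filter_upwards [this] with z hz
    have a0 := hs z hz
    have a1 := (hasSum_nat_add_iff' 1).2 a0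
    have a2 := (hasSum_nat_add_iff' 2).2 a0
    have a3 := (a2.sub (a1.mul_left (2 * ξ))).add (a0.mul_left (ξ ^ 2))
    have a4 : HasSum (fun n => ξ * d2 ξ n z) _ := a3.congr_fun fun n => by
      simp only [d2]
      push_cast
      ring_nf
    rw [← tsum_mul_left, a4.tsum_eq]
    simp only [Finset.sum_range_succ, Finset.range_zero, Finset.sum_empty, pw]
    norm_num
    ring
  have hp : 0 < ‖1 - ξ‖ ^ 2 := pow_pos (norm_pos_iff.2 (sub_ne_zero.2 h1.symm)) 2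
  refine ⟨(S5 + 5) / ‖1 - ξ‖ ^ 2, fun z hz => ?_⟩
  have b1 : ‖∑' n, d2 ξ n z‖ ≤ ‖z‖ * (‖z‖ + 1) * S5 := by
    rw [S5, ← tsum_mul_left]
    exact tsum_of_norm_bounded (H35.summable_aux.mul_left _).hasSum
      fun n => norm_d2 hξ (by linarith) n
  have b2 : ‖pw (-z) 2‖ ≤ 2 := by
    rw [norm_pw _ two_pos]
    simpa using Real.rpow_le_rpow_of_exponent_le (x := 2) (y := (-z).re) (z := 1) one_le_two
      (by simp; linarith)
  have e : (1 - ξ) ^ 2 * E z = ξ * ∑' n, d2 ξ n z + ξ + ξ ^ 2 * pw (-z) 2 - 2 * ξ ^ 2 := by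
    rw [key z (by linarith)]; ring
  have b3 : ‖(1 - ξ) ^ 2 * E z‖ ≤ ‖z‖ * (‖z‖ + 1) * S5 + 1 + 2 + 2 := by
    rw [e]
    refine (norm_sub_le _ _).trans (add_le_add (norm_add₃_le.trans ?_) ?_)
    · simp only [norm_mul, norm_pow, hξ, one_mul, one_pow]; gcongr
    · simp [hξ]
  rw [norm_mul, norm_pow] at b3
  rw [div_mul_eq_mul_div, le_div_iff₀ hp]
  have := norm_nonneg z
  have := S5_nonneg
  nlinarith [mul_nonneg S5_nonneg (norm_nonneg z)]

variable {q : ℕ} [Fact q.Prime]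

/-- the standard character -/
noncomputable abbrev ch (q : ℕ) [Fact q.Prime] : AddChar (ZMod q) ℂ := ZMod.stdAddChar

theorem ch_prim : (ch q).IsPrimitive := ZMod.isPrimitive_stdAddChar q

/-- the additively twisted zeta function -/
noncomputable def E (r : ZMod q) : ℂ → ℂ := ZMod.LFunction (er (ch q) r)

theorem E_diff (r : ZMod q) : Differentiable ℂ (E r) :=
  ZMod.differentiable_LFunction_of_sum_zero (sum_er ch_prim r)

theorem norm_er (r x : ZMod q) : ‖er (ch q) r x‖ ≤ 1 := by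
  unfold er; split_ifs <;> simp

theorem E_growth : ∃ C, ∀ (r : ZMod q) (σ t : ℝ), -(1 / 2) ≤ σ → σ ≤ 2 →
    ‖E r (σ + t * I)‖ ≤ C * (1 + |t|) ^ 2 := by
  have h : ∀ r : ZMod q, ∃ C, ∀ z : ℂ, -(1 / 2) ≤ z.re → ‖E r z‖ ≤ C * (1 + ‖z‖) ^ 2 := by
    intro r
    by_cases hr : r = 0
    · exact ⟨0, fun z _ => by simp [E, er, hr, ZMod.LFunction]⟩
    · refine growth (ξ := ch q r) (by simp) (fun h => hr ?_) (E_diff r) fun z hz => ?_
      · exact ZMod.injective_stdAddChar (h.trans (AddChar.map_zero_eq_one _).symm)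
      · refine (LF_hasSum _ hz).congr_fun fun n => ?_
        rw [er, if_neg hr, ← AddChar.map_nsmul_eq_pow, nsmul_eq_mul, mul_comm r]
  choose C hC using h
  refine ⟨9 * ∑ r, |C r|, fun r σ t h1 h2 => (hC r _ (by simpa using h1)).trans ?_⟩
  have a1 : C r ≤ ∑ r, |C r| := (le_abs_self _).trans
    (Finset.single_le_sum (f := fun r => |C r|) (fun _ _ => abs_nonneg _) (Finset.mem_univ r))
  have a2 : 1 + ‖(σ + t * I : ℂ)‖ ≤ 3 * (1 + |t|) := by
    have := norm_add_le (σ : ℂ) (t * I)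
    simp only [norm_real, Real.norm_eq_abs, norm_mul, norm_I, mul_one] at this
    have : |σ| ≤ 2 := abs_le.2 ⟨by linarith, h2⟩
    linarith [abs_nonneg t]
  calc _ ≤ (∑ r, |C r|) * (3 * (1 + |t|)) ^ 2 := by gcongr
    _ = _ := by ring

theorem dft_er (r k : ZMod q) : ‖ZMod.dft (er (ch q) r) k‖ ≤ if r = k then (q : ℝ) else 0 := by
  rw [ZMod.dft_apply]
  by_cases hr : r = 0
  · simp only [er, hr, if_true, smul_zero, Finset.sum_const_zero, norm_zero]
    positivity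
  · have e : ∀ j, ch q (-(j * k)) • er (ch q) r j = ch q (j * (r - k)) := fun j => by
      rw [er, if_neg hr, smul_eq_mul, ← AddChar.map_add_eq_mul]; congr 1; ring
    simp only [e, orth ch_prim, sub_eq_zero]
    split_ifs <;> simp

theorem sum_dual {s : ℂ} (hs : 5 / 4 ≤ s.re) :
    ∑ r : ZMod q, ‖ZMod.LFunction (ZMod.dft (er (ch q) r)) s‖ ≤ q * S5 := by
  have h : ∀ r : ZMod q, Summable fun n : ℕ =>
      (if r = ((n + 1 : ℕ) : ZMod q) then (q : ℝ) else 0) * ((n : ℝ) + 1) ^ (-(5 / 4) : ℝ) :=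
    fun r => .of_nonneg_of_le (fun _ => by positivity)
      (fun n => mul_le_mul_of_nonneg_right (by split_ifs <;> simp) (by positivity))
      (H35.summable_aux.mul_left (q : ℝ))
  calc _ ≤ ∑ r : ZMod q, ∑' n : ℕ, (if r = ((n + 1 : ℕ) : ZMod q) then (q : ℝ) else 0) *
        ((n : ℝ) + 1) ^ (-(5 / 4) : ℝ) := by
        refine Finset.sum_le_sum fun r _ => ?_
        rw [← (LF_hasSum _ (by linarith : 1 < s.re)).tsum_eq]
        refine tsum_of_norm_bounded (h r).hasSum fun n => ?_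
        rw [norm_mul]
        gcongr
        · exact dft_er _ _
        · exact norm_pw_le (by simpa) n le_rfl
    _ = _ := by
        rw [← Summable.tsum_finsetSum fun r _ => h r, S5, ← tsum_mul_left]
        simp [← Finset.sum_mul]

theorem E_dual (τ : ℝ) : ∑ r : ZMod q, ‖E r ((-(1 / 2) : ℝ) + τ * I)‖ ≤
    6 * S5 * (q : ℝ) ^ (3 / 2 : ℝ) * (1 + |τ|) := by
  have hq : (0 : ℝ) < q := by exact_mod_cast (Fact.out : q.Prime).pos
  set s : ℂ := 3 / 2 + (-τ : ℝ) * I with hs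
  have hre : s.re = 3 / 2 := by simp [hs]
  have him : s.im = -τ := by simp [hs]
  have e : ((-(1 / 2) : ℝ) + τ * I : ℂ) = 1 - s := by rw [hs]; push_cast; ring
  have hG := gamma_three_half (-τ)
  rw [← hs, abs_neg] at hG
  have n1 : ‖(q : ℂ) ^ (s - 1)‖ = (q : ℝ) ^ (1 / 2 : ℝ) := by
    rw [norm_natCast_cpow_of_pos (Fact.out : q.Prime).pos, sub_re, hre]; norm_num
  have n2 : ‖(2 * π : ℂ) ^ (-s)‖ ≤ 1 := by
    rw [show (2 * π : ℂ) = ((2 * π : ℝ) : ℂ) by push_cast; ring,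
      norm_cpow_eq_rpow_re_of_pos (by positivity)]
    exact Real.rpow_le_one_of_one_le_of_nonpos (by linarith [Real.pi_gt_three])
      (by rw [neg_re, hre]; norm_num)
  have n3 : ∀ c : ℝ, |c| = π → ‖exp (c * I * s / 2)‖ ≤ Real.exp (π * |τ| / 2) := by
    intro c hc
    rw [norm_exp, Real.exp_le_exp, ← hc, ← abs_mul]
    have : (c * I * s / 2 : ℂ).re = c * τ / 2 := by simp [him]
    rw [this]
    linarith [le_abs_self (c * τ)]
  have n4 := n3 π (abs_of_pos Real.pi_pos)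
  have n5 := n3 (-π) (by rw [abs_neg, abs_of_pos Real.pi_pos])
  have b : ∀ r : ZMod q, ‖E r (1 - s)‖ ≤ (q : ℝ) ^ (1 / 2 : ℝ) * (3 * (1 + |τ|)) *
      (‖ZMod.LFunction (ZMod.dft (er (ch q) r)) s‖ +
        ‖ZMod.LFunction (ZMod.dft (er (ch q) (-r))) s‖) := by
    intro r
    have e2 : (fun x => er (ch q) r (-x)) = er (ch q) (-r) := by
      ext x; simp [er]
    rw [E, ZMod.LFunction_one_sub _ (fun n h => by
      have := congrArg re h
      rw [hre] at this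
      simp only [neg_re, natCast_re] at this
      linarith [n.cast_nonneg (α := ℝ)]) (Or.inr fun h => by
      have := congrArg re h
      rw [hre] at this
      norm_num at this), e2, norm_mul, norm_mul, norm_mul, n1]
    push_cast at n5
    calc _ ≤ (q : ℝ) ^ (1 / 2 : ℝ) * 1 * ‖Gamma s‖ * (Real.exp (π * |τ| / 2) *
          ‖ZMod.LFunction (ZMod.dft (er (ch q) r)) s‖ + Real.exp (π * |τ| / 2) *
          ‖ZMod.LFunction (ZMod.dft (er (ch q) (-r))) s‖) := by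
          gcongr
          refine (norm_add_le _ _).trans ?_
          rw [norm_mul, norm_mul]
          gcongr
      _ = (q : ℝ) ^ (1 / 2 : ℝ) * (‖Gamma s‖ * Real.exp (π * |τ| / 2)) *
          (‖ZMod.LFunction (ZMod.dft (er (ch q) r)) s‖ +
            ‖ZMod.LFunction (ZMod.dft (er (ch q) (-r))) s‖) := by ring
      _ ≤ _ := by gcongr
  rw [e]
  refine (Finset.sum_le_sum fun r _ => b r).trans ?_
  rw [← Finset.mul_sum, Finset.sum_add_distrib, Fintype.sum_equiv (Equiv.neg (ZMod q))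
    (fun r => ‖ZMod.LFunction (ZMod.dft (er (ch q) (-r))) s‖)
    (fun r => ‖ZMod.LFunction (ZMod.dft (er (ch q) r)) s‖) fun _ => rfl]
  have := sum_dual (q := q) (s := s) (by rw [hre]; norm_num)
  calc _ ≤ (q : ℝ) ^ (1 / 2 : ℝ) * (3 * (1 + |τ|)) * (q * S5 + q * S5) := by gcongr
    _ = 6 * S5 * ((q : ℝ) ^ (1 / 2 : ℝ) * q) * (1 + |τ|) := by ring
    _ = _ := by rw [← Real.rpow_add_one hq.ne']; norm_num

/-- the weight -/
noncomputable def wk (k : ℕ) (x : ℝ) : ℝ := x ^ k * Real.exp (-x)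

theorem V_le {k : ℕ} (hk : 6 ≤ k) {μ : ℝ} (hμ : 0 < μ) :
    ‖∑' i : Ix, Ph (ch q) (nN i : ℕ) * wk k (μ * nN i)‖ ≤
      8000 * (3 * (q : ℝ) ^ (-(5 / 4) : ℝ) * (6 * S5 * (q : ℝ) ^ (3 / 2 : ℝ)) ^ 3 * √μ) * k ^ 2 *
        Real.Gamma (k - 1 / 2) := by
  obtain ⟨K, hK, hPh⟩ := expand3 (ch_prim (q := q))
  rw [ZMod.card] at hK
  obtain ⟨C, hC⟩ := E_growth (q := q)
  have hk0 : (6 : ℝ) ≤ k := by exact_mod_cast hk
  set D : ℂ → ℂ := fun z => ∑ r, ∑ s, ∑ t, K r s t * (E r z * E s z * E t z) with hD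
  have hDn : ∀ z, ‖D z‖ ≤ 3 * (q : ℝ) ^ (-(5 / 4) : ℝ) * (∑ r : ZMod q, ‖E r z‖) ^ 3 := by
    intro z
    rw [pow_three', Finset.sum_mul_sum, Finset.sum_mul, Finset.mul_sum]
    refine (norm_sum_le _ _).trans (Finset.sum_le_sum fun r _ => ?_)
    rw [Finset.sum_mul, Finset.mul_sum]
    refine (norm_sum_le _ _).trans (Finset.sum_le_sum fun s _ => ?_)
    rw [Finset.mul_sum, Finset.mul_sum]
    refine (norm_sum_le _ _).trans (Finset.sum_le_sum fun t _ => ?_)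
    rw [norm_mul, norm_mul, norm_mul]
    gcongr
    exact hK r s t
  have hW : |(Real.log μ : ℂ).im| < π / 2 := by simpa using Real.pi_pos
  have hm := (master (F := D) hW (k := k) (m := 6) (a := -(1 / 2)) (b := 2)
    (C := 3 * (q : ℝ) ^ (-(5 / 4) : ℝ) * (q * C) ^ 3) (by linarith) (by norm_num)
    (fun z _ _ => by
      have := fun r : ZMod q => E_diff r z
      simp only [hD]
      fun_prop)
    (fun σ t h1 h2 => (hDn _).trans (by
      have : ∑ r : ZMod q, ‖E r (σ + t * I)‖ ≤ q * (C * (1 + |t|) ^ 2) := by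
        simpa using Finset.sum_le_card_nsmul Finset.univ _ _ fun r _ => hC r σ t h1 h2
      calc _ ≤ 3 * (q : ℝ) ^ (-(5 / 4) : ℝ) * (q * (C * (1 + |t|) ^ 2)) ^ 3 := by gcongr
        _ = _ := by ring))).2
  have hPn : ∀ u : ZMod q, ‖Ph (ch q) u‖ ≤ 2 := by
    intro u
    refine (norm_sub_le _ _).trans ?_
    have h2 : (2 : ℝ) ≤ q := by exact_mod_cast (Fact.out : q.Prime).two_le
    have : |wt (ZMod q) u| ≤ 1 := by
      unfold wt
      split_ifs
      · simp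
      · rw [ZMod.card, abs_div, abs_neg, abs_one, abs_of_pos (by linarith),
          div_le_one (by linarith)]
        linarith
    simp only [AddChar.norm_apply, norm_real, Real.norm_eq_abs]
    linarith
  have hs := series hW k (c := fun i : Ix => Ph (ch q) (nN i : ℕ)) (n := fun i => nN i) nN_pos
    (.of_nonneg_of_le (fun _ => by positivity)
      (fun i => by rw [← mul_one_div]; gcongr; exact hPn _) (summable_nN.mul_left 2))
  have e1 : ∀ t : ℝ, ∑' i : Ix, Ph (ch q) (nN i : ℕ) *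
      exp (-(((2 : ℝ) + t * I) * Real.log (nN i))) = D ((2 : ℝ) + t * I) := by
    intro t
    have hz : 1 < (((2 : ℝ) : ℂ) + t * I).re := by simp
    refine HasSum.tsum_eq ?_
    refine (hasSum_sum fun r _ => hasSum_sum fun s _ => hasSum_sum fun u _ =>
      (prod3 (fun _ => norm_er r _) (fun _ => norm_er s _) (fun _ => norm_er u _)
        (by simp; norm_num) (LF_hasSum _ hz) (LF_hasSum _ hz) (LF_hasSum _ hz)).mul_left
          (K r s u)).congr_fun fun i => ?_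
    rw [nN, Nat.cast_mul, Nat.cast_mul, hPh]
    simp only [Finset.sum_mul, mul_assoc]
  simp only [e1, ← hm] at hs
  have e2 : ∀ i : Ix, ((nN i : ℝ) * exp (Real.log μ : ℂ)) ^ k *
      exp (-((nN i : ℝ) * exp (Real.log μ : ℂ))) = wk k (μ * nN i) := by
    intro i
    rw [← ofReal_exp, Real.exp_log hμ, wk, mul_comm μ]; push_cast; rfl
  simp only [e2] at hs
  have h3 := hs.tsum_eq
  rw [tsum_mul_left] at h3
  have h4 := gamma_int (x := k - 1 / 2) (k := k) (by linarith) (by linarith) hk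
    (M := 3 * (q : ℝ) ^ (-(5 / 4) : ℝ) * (6 * S5 * (q : ℝ) ^ (3 / 2 : ℝ)) ^ 3 * √μ)
    (by have := S5_nonneg; positivity)
    (g := fun t => D ((-(1 / 2) : ℝ) + t * I) * G k (Real.log μ) ((-(1 / 2) : ℝ) + t * I))
    fun τ => by
      rw [norm_mul, G, norm_mul, norm_exp, show ((-(1 / 2) : ℝ) + τ * I + k : ℂ) =
        (k - 1 / 2 : ℝ) + τ * I by push_cast; ring]
      have : (-((((-(1 / 2) : ℝ) : ℂ) + τ * I) * Real.log μ)).re = Real.log μ * (1 / 2) := by
        simp only [neg_re, mul_re, add_re, ofReal_re, I_re, mul_zero, ofReal_im, I_im, mul_one,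
          sub_self, add_zero, sub_zero]
        ring
      rw [this, ← Real.rpow_def_of_pos hμ, ← Real.sqrt_eq_rpow]
      calc _ ≤ 3 * (q : ℝ) ^ (-(5 / 4) : ℝ) * (6 * S5 * (q : ℝ) ^ (3 / 2 : ℝ) * (1 + |τ|)) ^ 3 *
            (‖Gamma ((k - 1 / 2 : ℝ) + τ * I)‖ * √μ) := by
            gcongr
            exact (hDn _).trans (by gcongr; exact E_dual τ)
        _ = _ := by ring
  rw [← h3, norm_mul] at h4
  refine le_trans (le_mul_of_one_le_left (norm_nonneg _) ?_) h4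
  rw [show (2 * π : ℂ) = ((2 * π : ℝ) : ℂ) by push_cast; ring, norm_real,
    Real.norm_of_nonneg (by positivity)]
  linarith [Real.pi_gt_three]

end Pool.Agent.MP_74e98a_nt.H98
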