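import Pool.Agent.MP_74e98a_nt.H98.Low

/-! Choice of the parameters. -/

namespace Pool.Agent.MP_74e98a_nt.H98

open Filter Topology Set MeasureTheory
open scoped Real Nat
open Pool.Agent.MP_6f2ed2_nt Pool.Agent.MP_6f2ed2_nt.H1

theorem theta_gap {x : ℝ} (hx : 10 ^ 9 ≤ x) : x ≤ Chebyshev.theta (4 * x) - Chebyshev.theta x := by
  have h1 := Chebyshev.theta_ge' (x := 4 * x) (by linarith)
  have h2 := Chebyshev.theta_le_log4_mul_x (x := x) (by linarith)
  obtain ⟨s, hs, e⟩ : ∃ s : ℝ, 0 < s ∧ 4 * x = s ^ 4 := ⟨(4 * x) ^ ((4 : ℕ) : ℝ)⁻¹, by positivity,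
    (Real.rpow_inv_natCast_pow (by linarith) four_ne_zero).symm⟩
  have s1 : 200 ≤ s := le_of_pow_le_pow_left₀ four_ne_zero hs.le (by linarith)
  have a1 : Real.log (4 * x) ≤ 4 * s := by
    rw [e, Real.log_pow]
    push_cast
    linarith [Real.log_le_sub_one_of_pos hs]
  have a2 : Real.log (4 * x + 2) ≤ Real.log 2 + Real.log (4 * x) := by
    rw [← Real.log_mul (by norm_num) (by linarith)]
    exact Real.log_le_log (by linarith) (by linarith)
  have a3 : √(4 * x) = s ^ 2 := by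
    rw [e, show s ^ 4 = (s ^ 2) ^ 2 by ring, Real.sqrt_sq (by positivity)]
  have a4 : Real.log 4 = 2 * Real.log 2 := by
    rw [show (4 : ℝ) = 2 ^ 2 by norm_num, Real.log_pow]
    norm_num
  have a5 := mul_le_mul_of_nonneg_left a1 (show 0 ≤ 2 * s ^ 2 by positivity)
  have a6 := mul_le_mul_of_nonneg_left Real.log_two_gt_d9.le (show 0 ≤ x by linarith)
  have a7 : 200 * s ^ 3 ≤ 4 * x := by
    rw [e, pow_succ s 3, mul_comm]
    gcongr
  have a8 : s ≤ s ^ 3 := le_self_pow₀ (by linarith) (by norm_num)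
  rw [a3] at h1
  rw [a4] at h2
  nlinarith [Real.log_two_lt_d9]

theorem band {x : ℝ} (hx : 10 ^ 9 ≤ x) {H : ℕ} (hH : 1 ≤ H) : ∃ (Q : ℝ) (S : Finset ℕ), x ≤ Q ∧
    Q ≤ 4 * x ∧ (∀ q ∈ S, q.Prime ∧ Q ≤ q ∧ q ≤ Q + Q / H) ∧ Q ≤ 24 * H * Real.log Q * S.card := by
  have hH' : (1 : ℝ) ≤ H := by exact_mod_cast hH
  have hx0 : 0 < x := by linarith
  set y : ℕ → ℝ := fun j => x + j * (x / H) with hy
  have hd : 0 < x / H := by positivity
  obtain ⟨j, hj, h⟩ : ∃ j ∈ Finset.range (3 * H), x / (3 * H) ≤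
      Chebyshev.theta (y (j + 1)) - Chebyshev.theta (y j) := by
    refine Finset.exists_le_of_sum_le (Finset.nonempty_range_iff.2 (by omega)) ?_
    rw [Finset.sum_range_sub fun j => Chebyshev.theta (y j), Finset.sum_const, Finset.card_range,
      nsmul_eq_mul, show y (3 * H) = 4 * x by simp only [hy]; push_cast; field_simp; ring,
      show y 0 = x by simp [hy]]
    refine le_trans (le_of_eq ?_) (theta_gap hx)
    push_cast
    field_simp
  have j1 : (j : ℝ) + 1 ≤ 3 * H := by exact_mod_cast Finset.mem_range.1 hj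
  have y0 : x ≤ y j := le_add_of_nonneg_right (by positivity)
  have y1 : y (j + 1) = y j + x / H := by simp only [hy]; push_cast; ring
  have y2 : y (j + 1) ≤ 4 * x := by
    have : (j + 1 : ℝ) * (x / H) ≤ 3 * H * (x / H) := by gcongr
    rw [show 3 * H * (x / H) = 3 * x by field_simp] at this
    simp only [hy]
    push_cast
    linarith
  set S := (Finset.Ioc ⌊y j⌋₊ ⌊y (j + 1)⌋₊).filter Nat.Prime with hS
  have m : ∀ q ∈ S, q.Prime ∧ y j ≤ q ∧ q ≤ y (j + 1) := fun q hq => by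
    obtain ⟨a, b⟩ := Finset.mem_filter.1 hq
    obtain ⟨a1, a2⟩ := Finset.mem_Ioc.1 a
    exact ⟨b, (Nat.lt_of_floor_lt a1).le, (Nat.le_floor_iff (by linarith)).1 a2⟩
  refine ⟨y j, S, y0, by linarith, fun q hq => ⟨(m q hq).1, (m q hq).2.1, (m q hq).2.2.trans ?_⟩, ?_⟩
  · rw [y1]
    gcongr
  · have e : Chebyshev.theta (y (j + 1)) - Chebyshev.theta (y j) = ∑ q ∈ S, Real.log q := by
      simp only [Chebyshev.theta, hS, Finset.sum_filter]
      rw [← Finset.sum_Ioc_consecutive _ (Nat.zero_le ⌊y j⌋₊) (Nat.floor_mono (by linarith)),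
        add_sub_cancel_left]
    have b : ∑ q ∈ S, Real.log q ≤ S.card * (2 * Real.log (y j)) := by
      rw [← nsmul_eq_mul]
      refine Finset.sum_le_card_nsmul _ _ _ fun q hq => ?_
      rw [show 2 * Real.log (y j) = Real.log (y j ^ 2) by rw [Real.log_pow]; norm_num]
      refine Real.log_le_log (by linarith [(m q hq).2.1]) ((m q hq).2.2.trans (y2.trans ?_))
      nlinarith
    rw [e, div_le_iff₀ (by positivity)] at h
    have := mul_le_mul_of_nonneg_right b (show (0 : ℝ) ≤ 3 * H by positivity)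
    linarith

theorem core : ∃ K : ℝ, ∀ (κ : ℕ) (η Q h : ℝ) (S : Finset ℕ), Par κ η Q h S → 10 ≤ h →
    K ≤ Real.log Q → 10 ^ 16 * Q ^ 9 * (7 / 8) ^ (κ + 3) ≤ 1 → Q ≤ 24 * h * Real.log Q * S.card →
    ∃ t ∈ Icc (π * Q ^ 2) (4 * π * Q ^ 2), 3 * √h ≤ |∫ x in (0 : ℝ)..t, hardyZ x ^ 3| := by
  obtain ⟨K, hK⟩ := tv
  refine ⟨max K (1000 + 32 * S2 + 3 * 10 ^ 10 * S5 ^ 3), fun κ η Q h S p hh h1 hs hn => ?_⟩
  by_contra hc
  push Not at hc
  obtain ⟨-, a2, -, -, a5, -⟩ := p.basic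
  have n1 := p.card.1
  have hL : 1000 ≤ Real.log Q := by
    linarith [le_max_right K (1000 + 32 * S2 + 3 * 10 ^ 10 * S5 ^ 3), S2_nonneg,
      pow_nonneg S5_nonneg 3]
  have hQ : π * Q ^ 2 ≤ 4 * π * Q ^ 2 := by nlinarith [Real.pi_pos, sq_nonneg Q]
  have u := (low p hh ((le_max_right _ _).trans h1) hs).trans (hK κ η Q h (6 * √h) S p
    (by linarith [le_max_left K (1000 + 32 * S2 + 3 * 10 ^ 10 * S5 ^ 3),
      Real.log_le_sub_one_of_pos (show 0 < Q by linarith)]) hs fun t ht => by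
      have i := fun a b => (continuous_hardyZ.pow 3).intervalIntegrable (μ := volume) a b
      have e := intervalIntegral.integral_interval_sub_left (i 0 t) (i 0 (π * Q ^ 2))
      simp only [Pi.pow_apply] at e
      rw [← e]
      exact (abs_sub _ _).trans (by linarith [hc t ht, hc _ (left_mem_Icc.2 hQ)]))
  have u1 := le_of_mul_le_mul_left u (by positivity)
  generalize Real.log Q = L at *
  generalize (S.card : ℝ) = n at *
  have u2 : √h * √(n * Q) ≤ h * n * L / 6 := by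
    rw [← Real.sqrt_mul (by linarith)]
    refine Real.sqrt_le_iff.2 ⟨by positivity, ?_⟩
    calc h * (n * Q) ≤ h * (n * (24 * h * L * n)) := by gcongr
      _ = (h * n) ^ 2 * L * 24 := by ring
      _ ≤ (h * n) ^ 2 * L * (L / 36) := by gcongr; linarith
      _ = _ := by ring
  have u3 : 30 * (6 * √h) * √(n * Q) / h ≤ 30 * n * L := by
    rw [div_le_iff₀ (by linarith)]
    linarith
  have u4 : n * (1000 * L) ≤ n * L ^ 2 := by rw [sq]; gcongr
  have u5 : n * 1000 ≤ n * L := by gcongr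
  linarith

theorem omega_power : ∃ T₀ : ℝ, ∀ T : ℝ, T₀ ≤ T → ∃ t ∈ Icc T (64 * T),
    T ^ (1 / 64 : ℝ) ≤ |∫ x in (0 : ℝ)..t, hardyZ x ^ 3| := by
  obtain ⟨K, hK⟩ := core
  obtain ⟨H₀, h0⟩ := eventually_atTop.1 (((tendsto_pow_const_mul_const_pow_of_abs_lt_one 144
    (r := 7 / 8) (by rw [abs_of_pos] <;> norm_num)).const_mul
      (10 ^ 16 * (4 * 2 ^ 16) ^ 9)).eventually_le_const (by simp : _ < (1 : ℝ)))
  set x₀ : ℝ := max (Real.exp K) (((H₀ + 10 : ℕ) : ℝ) ^ 16) with hx₀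
  refine ⟨π * x₀ ^ 2, fun T hT => ?_⟩
  have hπ := Real.pi_pos
  have x0 : 0 < x₀ := (Real.exp_pos K).trans_le (le_max_left _ _)
  have hT0 : 0 < T := lt_of_lt_of_le (by positivity) hT
  set x := √(T / π) with hx
  have x1 : π * x ^ 2 = T := by rw [hx, Real.sq_sqrt (by positivity)]; field_simp
  have x2 : x₀ ≤ x := Real.le_sqrt_of_sq_le (by rwa [le_div_iff₀' hπ])
  obtain ⟨s, hs, e⟩ : ∃ s : ℝ, 0 < s ∧ x = s ^ 16 := ⟨x ^ ((16 : ℕ) : ℝ)⁻¹,
    Real.rpow_pos_of_pos (by linarith) _,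
    (Real.rpow_inv_natCast_pow (by linarith) (by norm_num)).symm⟩
  set H := ⌊s⌋₊ with hH
  have H1 : H₀ + 10 ≤ H := Nat.le_floor (le_of_pow_le_pow_left₀ (n := 16) (by norm_num) hs.le
    (by linarith [le_max_right (Real.exp K) (((H₀ + 10 : ℕ) : ℝ) ^ 16)]))
  have H2 : (10 : ℝ) ≤ H := by exact_mod_cast (by omega : 10 ≤ H)
  have H3 : (H : ℝ) ^ 16 ≤ x := by
    rw [e]
    exact pow_le_pow_left₀ (by positivity) (Nat.floor_le hs.le) _
  have H4 : x ≤ (2 * H) ^ 16 := by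
    rw [e]
    exact pow_le_pow_left₀ hs.le (by linarith [Nat.lt_floor_add_one s]) _
  have x3 : 10 ^ 9 ≤ x := by
    refine le_trans ?_ H3
    exact le_trans (by norm_num) (pow_le_pow_left₀ (by norm_num) H2 16)
  obtain ⟨Q, S, q1, q2, q3, q4⟩ := band x3 (show 1 ≤ H by omega)
  have hQ : 0 < Q := by linarith
  have k1 : H ^ 2 - 3 + 3 = H ^ 2 := Nat.sub_add_cancel (by nlinarith)
  obtain ⟨t, ht, h⟩ := hK (H ^ 2 - 3) (H ^ 2 / (2 * π * Q ^ 2)) Q H S
    ⟨by exact_mod_cast k1, by linarith, by field_simp, H3.trans q1, q3,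
      Finset.nonempty_iff_ne_empty.2 (by rintro rfl; simp at q4; linarith)⟩ H2
    ((Real.le_log_iff_exp_le hQ).2 (by
      linarith [le_max_left (Real.exp K) (((H₀ + 10 : ℕ) : ℝ) ^ 16)])) (by
    refine le_trans ?_ (h0 H (by omega))
    rw [k1]
    calc _ ≤ 10 ^ 16 * (4 * (2 * H) ^ 16) ^ 9 * (7 / 8 : ℝ) ^ H :=
          mul_le_mul (by gcongr; linarith) (pow_le_pow_of_le_one (by norm_num) (by norm_num)
            (Nat.le_self_pow two_ne_zero H)) (by positivity) (by positivity)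
      _ = _ := by ring) q4
  refine ⟨t, ⟨le_trans ?_ ht.1, ht.2.trans ?_⟩, le_trans ?_ h⟩
  · rw [← x1]
    gcongr
  · rw [← x1, show 64 * (π * x ^ 2) = 4 * π * (4 * x) ^ 2 by ring]
    gcongr
  · have : T ≤ (3 * √H) ^ 64 := by
      calc T = π * x ^ 2 := x1.symm
        _ ≤ 4 * ((2 * H : ℝ) ^ 16) ^ 2 := by gcongr; exact Real.pi_lt_four.le
        _ = 4 * 2 ^ 32 * (H : ℝ) ^ 32 := by ring
        _ ≤ 3 ^ 64 * (√H ^ 2) ^ 32 := by
          rw [Real.sq_sqrt (by positivity)]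
          gcongr
          norm_num
        _ = _ := by ring
    refine (Real.rpow_le_rpow hT0.le this (by norm_num)).trans (le_of_eq ?_)
    rw [one_div]
    exact_mod_cast Real.pow_rpow_inv_natCast (by positivity : (0 : ℝ) ≤ 3 * √H) (n := 64) (by norm_num)

end Pool.Agent.MP_74e98a_nt.H98
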