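import Pool.Agent.MP_74e98a_nt.H98.TV

/-! The correlation is large. -/

namespace Pool.Agent.MP_74e98a_nt.H98

open Complex Filter Topology Set MeasureTheory
open scoped Real Nat
open Pool.Agent.MP_6f2ed2_nt Pool.Agent.MP_6f2ed2_nt.H1

theorem log_le_of {x Q : ℝ} (e : ℕ) (hx : 1 ≤ x) (h : x ≤ Q ^ e) :
    0 ≤ Real.log x ∧ Real.log x ≤ e * Real.log Q :=
  ⟨Real.log_nonneg hx, by rw [← Real.log_pow]; exact Real.log_le_log (by linarith) h⟩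

theorem crude {j : ℕ} (hj : 1 ≤ j) {ν Q : ℝ} (h0 : 0 < ν) (h1 : ν ≤ 1) (h2 : 5 * j ≤ Q ^ 4 * ν)
    (h3 : 1 ≤ Real.log Q) (h4 : S2 ≤ Real.log Q) (h5 : (3 / 4) ^ j ≤ ν) :
    S3 j ν ≤ j ! / ν * (110 * j * Real.log Q ^ 2) := by
  have hj' : (1 : ℝ) ≤ j := by exact_mod_cast hj
  set n := ⌈4 * j / ν⌉₊ with hn
  have n1 : 1 ≤ n := Nat.ceil_pos.2 (by positivity)
  have n2 : 4 * j ≤ ν * n := by rw [← div_le_iff₀' h0]; exact Nat.le_ceil _
  have n3 : ν * n ≤ 5 * j := by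
    have := (Nat.ceil_lt_add_one (show 0 ≤ 4 * j / ν by positivity)).le
    rw [← hn, ← sub_le_iff_le_add, le_div_iff₀ h0] at this
    linarith
  obtain ⟨l0, l1⟩ := log_le_of (x := n) (Q := Q) 4 (by exact_mod_cast n1)
    (le_of_mul_le_mul_left (by linarith) h0)
  refine (S3_upper hj h0 n1 n2 (z := 0) (w := 0) fun A B C a b c => by nlinarith).trans ?_
  set L := Real.log Q
  set l := Real.log n
  push_cast at l1 ⊢
  have hS := S2_nonneg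
  have e : (j ! : ℝ) / ν * (l ^ 2 / 2 + 2 * l + 1 + 2 * ((1 + Real.log 0) * (1 + Real.log 0))) +
      2 * j ! * (n * (1 + l) + 2 * (0 * 0)) + 32 * j ! * (3 / 4) ^ j / ν ^ 2 * S2 =
      j ! / ν * (l ^ 2 / 2 + 2 * l + 3 + 2 * (ν * n) * (1 + l) + 32 * ((3 / 4) ^ j / ν) * S2) := by
    rw [Real.log_zero]
    field_simp
    ring
  rw [e]
  refine mul_le_mul_of_nonneg_left ?_ (by positivity)
  have b1 : (3 / 4) ^ j / ν ≤ 1 := (div_le_one h0).2 h5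
  have b2 : L ≤ L ^ 2 := by nlinarith
  calc _ ≤ (4 * L) ^ 2 / 2 + 2 * (4 * L) + 3 + 2 * (5 * j) * (1 + 4 * L) + 32 * 1 * L := by gcongr
    _ ≤ 8 * L ^ 2 + 8 * L ^ 2 + 3 * L ^ 2 + 10 * j * (L ^ 2 + 4 * L ^ 2) + 32 * L ^ 2 := by
        have : 2 * (5 * j) * (1 + 4 * L) ≤ 10 * j * (L ^ 2 + 4 * L ^ 2) := by
          rw [← mul_assoc, show (2 * 5 : ℝ) = 10 by norm_num]
          gcongr
          linarith
        linarith
    _ ≤ _ := by nlinarith [mul_le_mul_of_nonneg_right hj' (sq_nonneg L)]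

theorem main_lower {k : ℕ} (hk : 1 ≤ k) {Q h ν : ℝ} (hh : 1 ≤ h) (hQ : h ^ 16 ≤ Q) (h0 : 0 < ν)
    (h1 : ν * Q ^ 2 ≤ 2 * h ^ 2) (hL : 1 ≤ Real.log Q) :
    k ! / ν * ((15 / 8 * Real.log Q - 1) ^ 2 / 2 - 4 * (1 + 2 * Real.log Q)) ≤ S3 k ν := by
  have a1 : h ≤ Q := (le_self_pow₀ hh (by norm_num)).trans hQ
  have a2 : 1 ≤ Q ^ 2 / h ^ 2 := by rw [one_le_div (by positivity)]; gcongr
  set n := ⌊Q ^ 2 / h ^ 2⌋₊ with hn
  have n1 : 1 ≤ n := Nat.le_floor (by exact_mod_cast a2)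
  have n1' : (1 : ℝ) ≤ n := by exact_mod_cast n1
  have n2 : (n : ℝ) ≤ Q ^ 2 / h ^ 2 := Nat.floor_le (by positivity)
  have n3 : Q ^ 2 / h ^ 2 ≤ 2 * n := by linarith [Nat.lt_floor_add_one (Q ^ 2 / h ^ 2)]
  have n4 : ν * n ≤ 2 := by
    rw [le_div_iff₀ (by positivity)] at n2
    refine le_of_mul_le_mul_right ?_ (show 0 < h ^ 2 by positivity)
    nlinarith [mul_le_mul_of_nonneg_left n2 h0.le]
  obtain ⟨l0, l1⟩ := log_le_of (x := n) (Q := Q) 2 n1'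
    (n2.trans (div_le_self (by positivity) (one_le_pow₀ hh)))
  have l2 : 15 / 8 * Real.log Q - 1 ≤ Real.log n := by
    have b1 := Real.log_le_log (by positivity) n3
    have b2 := Real.log_le_log (by positivity) hQ
    rw [Real.log_div (by nlinarith) (by positivity), Real.log_mul (by norm_num) (by positivity),
      Real.log_pow, Real.log_pow] at b1
    rw [Real.log_pow] at b2
    push_cast at b1 b2
    linarith [Real.log_two_lt_d9]
  refine le_trans ?_ (S3_lower hk h0 n1)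
  have e : k ! / ν * (Real.log n ^ 2 / 2) - 2 * k ! * (n * (1 + Real.log n)) =
      k ! / ν * (Real.log n ^ 2 / 2 - 2 * (ν * n) * (1 + Real.log n)) := by field_simp
  rw [e]
  refine mul_le_mul_of_nonneg_left (sub_le_sub ?_ ?_) (by positivity)
  · gcongr
    linarith
  · push_cast at l1
    calc _ ≤ 2 * 2 * (1 + 2 * Real.log Q) := by gcongr
      _ = _ := by ring

theorem main_upper {k : ℕ} {Q h ν : ℝ} (hk : (k : ℝ) = h ^ 2) (hh : 10 ≤ h) (hQ : h ^ 16 ≤ Q)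
    (h0 : 0 < ν) (h1 : ν * Q ^ 3 ≤ 2 * h ^ 2) (h2 : h ^ 2 ≤ 2 * (ν * Q ^ 3))
    (h5 : (3 / 4) ^ k ≤ ν) :
    S3 k ν ≤ k ! / ν * (39 / 8 * Real.log Q ^ 2 + 40 * Real.log Q + 20 + 32 * S2) := by
  have a0 : 100 ≤ h ^ 2 := by nlinarith
  have a1 : 2 * h ^ 4 ≤ Q := by
    refine le_trans ?_ hQ
    rw [show h ^ 16 = h ^ 12 * h ^ 4 by ring]
    gcongr
    exact le_trans (by linarith) (le_self_pow₀ (by linarith) (by norm_num))
  have a2 : 100 * h ^ 2 ≤ Q := by nlinarith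
  have hQ1 : 10 ≤ Q := by linarith
  have a3 : Q ≤ Q ^ 3 := le_self_pow₀ (by linarith) (by norm_num)
  have hν : ν ≤ 1 := le_of_mul_le_mul_right (by linarith) (show 0 < Q ^ 3 by positivity)
  have hk1 : 1 ≤ k := by exact_mod_cast (show (1 : ℝ) ≤ k by linarith)
  set n := ⌈4 / ν⌉₊ with hn
  have n1 : 1 ≤ n := Nat.ceil_pos.2 (by positivity)
  have n2 : 4 ≤ ν * n := by rw [← div_le_iff₀' h0]; exact Nat.le_ceil _
  have n3 : ν * n ≤ 5 := by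
    have := (Nat.ceil_lt_add_one (show 0 ≤ 4 / ν by positivity)).le
    rw [← hn, ← sub_le_iff_le_add, le_div_iff₀ h0] at this
    linarith
  have n4 : n * h ^ 2 ≤ 10 * Q ^ 3 := by
    nlinarith [mul_le_mul_of_nonneg_left h2 (n.cast_nonneg (α := ℝ)),
      mul_le_mul_of_nonneg_right n3 (show 0 ≤ Q ^ 3 by positivity)]
  set w := Nat.sqrt (n * k) with hw
  have w1 : 1 ≤ w := Nat.le_sqrt.2 (Nat.mul_pos n1 hk1)
  have w1' : (1 : ℝ) ≤ w := by exact_mod_cast w1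
  have w2 : (w : ℝ) ^ 2 ≤ 10 * Q ^ 3 := by
    have : (w : ℝ) ^ 2 ≤ n * k := by exact_mod_cast Nat.sqrt_le' (n * k)
    rw [hk] at this
    linarith
  have w3 : (w : ℝ) ≤ Q ^ 2 := by
    refine abs_le_of_sq_le_sq' (w2.trans ?_) (by positivity) |>.2
    rw [show (Q ^ 2) ^ 2 = Q * Q ^ 3 by ring]
    gcongr
  obtain ⟨l0, l1⟩ := log_le_of (x := n) (Q := Q) 3 (by exact_mod_cast n1)
    (le_of_mul_le_mul_right (n4.trans (by nlinarith)) (show 0 < h ^ 2 by positivity))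
  have l2 : Real.log w ≤ 3 / 2 * Real.log Q + 3 / 2 := by
    have b := Real.log_le_log (by positivity) w2
    rw [Real.log_pow, Real.log_mul (by norm_num) (by positivity), Real.log_pow] at b
    have b2 : Real.log 10 ≤ 3 := by
      rw [Real.log_le_iff_le_exp (by norm_num)]
      have := Real.sum_le_exp_of_nonneg (x := 3) (by norm_num) 4
      norm_num [Finset.sum_range_succ, Nat.factorial] at this
      linarith
    push_cast at b
    linarith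
  have l3 : Real.log k ≤ Real.log Q / 8 := by
    have b := Real.log_le_log (by positivity) hQ
    rw [hk]
    rw [Real.log_pow] at b ⊢
    push_cast at b ⊢
    linarith
  have l4 : 0 ≤ Real.log w := Real.log_nonneg w1'
  have l5 : 0 ≤ Real.log k := Real.log_natCast_nonneg k
  have l6 : ν * w * k ≤ 1 := by
    refine le_of_mul_le_mul_right ?_ (show 0 < Q ^ 3 by positivity)
    calc ν * w * k * Q ^ 3 = ν * Q ^ 3 * h ^ 2 * w := by rw [hk]; ring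
      _ ≤ 2 * h ^ 2 * h ^ 2 * Q ^ 2 := by gcongr
      _ = 2 * h ^ 4 * Q ^ 2 := by ring
      _ ≤ Q * Q ^ 2 := by gcongr
      _ = _ := by ring
  refine (S3_upper hk1 h0 n1 (M := n * k) (z := k) (w := w) (by push_cast; nlinarith)
    fun A B C a b c => ⟨?_, ?_⟩).trans ?_
  · by_contra d
    nlinarith [Nat.mul_le_mul b.le (not_le.1 d)]
  · by_contra d
    obtain ⟨d1, d2⟩ := not_or.1 d
    have := Nat.lt_succ_sqrt (n * k)
    nlinarith [Nat.mul_le_mul (not_le.1 d1) (not_le.1 d2), Nat.mul_le_mul_left (A * B) a]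
  · set L := Real.log Q
    set l := Real.log n
    push_cast at l1
    have hS := S2_nonneg
    have e : (k ! : ℝ) / ν * (l ^ 2 / 2 + 2 * l + 1 + 2 * ((1 + Real.log w) * (1 + Real.log k))) +
        2 * k ! * (n * (1 + l) + 2 * (w * k)) + 32 * k ! * (3 / 4) ^ k / ν ^ 2 * S2 =
        k ! / ν * (l ^ 2 / 2 + 2 * l + 1 + 2 * ((1 + Real.log w) * (1 + Real.log k)) +
          2 * (ν * n) * (1 + l) + 4 * (ν * w * k) + 32 * ((3 / 4) ^ k / ν) * S2) := by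
      field_simp
      ring
    rw [e]
    refine mul_le_mul_of_nonneg_left ?_ (by positivity)
    have b1 : (3 / 4) ^ k / ν ≤ 1 := (div_le_one h0).2 h5
    calc _ ≤ (3 * L) ^ 2 / 2 + 2 * (3 * L) + 1 + 2 * ((1 + (3 / 2 * L + 3 / 2)) * (1 + L / 8)) +
          2 * 5 * (1 + 3 * L) + 4 * 1 + 32 * 1 * S2 := by
          gcongr
          linarith
      _ ≤ _ := by linarith

theorem Gamma_half_le {κ : ℕ} {h : ℝ} (hκ : (κ : ℝ) + 3 = h ^ 2) (hh : 0 < h) :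
    Real.Gamma ((κ + 3 : ℕ) - 1 / 2) ≤ 2 * (κ + 3)! / h ^ 3 := by
  have h0 : (0 : ℝ) ≤ κ := κ.cast_nonneg
  have a := Real.Gamma_mul_add_mul_le_rpow_Gamma_mul_rpow_Gamma (s := (κ + 1 : ℕ) + 1)
    (t := (κ + 2 : ℕ) + 1) (a := 1 / 2) (b := 1 / 2) (by positivity) (by positivity) one_half_pos
    one_half_pos (by norm_num)
  rw [Real.Gamma_nat_eq_factorial, Real.Gamma_nat_eq_factorial,
    ← Real.mul_rpow (by positivity) (by positivity), ← Real.sqrt_eq_rpow] at a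
  rw [show ((κ + 3 : ℕ) : ℝ) - 1 / 2 = 1 / 2 * ((κ + 1 : ℕ) + 1) + 1 / 2 * ((κ + 2 : ℕ) + 1) by
    push_cast; ring]
  refine a.trans (Real.sqrt_le_iff.2 ⟨by positivity, ?_⟩)
  rw [div_pow, le_div_iff₀ (by positivity), show (h ^ 3) ^ 2 = (h ^ 2) ^ 3 by ring, ← hκ,
    Nat.factorial_succ (κ + 2), Nat.factorial_succ (κ + 1)]
  push_cast
  have : (0 : ℝ) < (κ + 1)! := by positivity
  generalize ((κ + 1)! : ℝ) = f at *
  calc _ = (f ^ 2 * (κ + 2) * (κ + 3) ^ 2) * (κ + 3) := by ring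
    _ ≤ (f ^ 2 * (κ + 2) * (κ + 3) ^ 2) * (4 * (κ + 2)) := by gcongr; linarith
    _ = _ := by ring

theorem V_small {κ : ℕ} {h μ : ℝ} (q : ℕ) [Fact q.Prime] (hκ : (κ : ℝ) + 3 = h ^ 2) (hh : 10 ≤ h)
    (hq : h ^ 16 ≤ q) (h0 : 0 < μ) (h1 : μ * q ^ 3 ≤ 9 * h ^ 2) :
    ‖∑' i : Ix, Ph (ch q) (nN i : ℕ) * wk (κ + 3) (μ * nN i)‖ ≤
      (κ + 3)! / (μ * q) * (3 * 10 ^ 8 * S5 ^ 3) := by
  have hq0 : (0 : ℝ) < q := lt_of_lt_of_le (by positivity) hq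
  have hk : 6 ≤ κ + 3 := by
    have : (3 : ℝ) ≤ κ := by nlinarith
    have : 3 ≤ κ := by exact_mod_cast this
    omega
  obtain ⟨r, hr, hr4⟩ : ∃ r : ℝ, 0 < r ∧ (q : ℝ) = r ^ 4 :=
    ⟨(q : ℝ) ^ ((4 : ℕ) : ℝ)⁻¹, by positivity, (Real.rpow_inv_natCast_pow hq0.le four_ne_zero).symm⟩
  have e1 : (q : ℝ) ^ (-(5 / 4) : ℝ) = (r ^ 5)⁻¹ := by
    rw [hr4, ← Real.rpow_natCast, ← Real.rpow_mul hr.le, ← Real.rpow_natCast, ← Real.rpow_neg hr.le]
    norm_num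
  have e2 : (q : ℝ) ^ (3 / 2 : ℝ) = r ^ 6 := by
    rw [hr4, ← Real.rpow_natCast, ← Real.rpow_mul hr.le, ← Real.rpow_natCast]
    norm_num
  have a1 : h ^ 4 ≤ r := by
    refine le_of_pow_le_pow_left₀ four_ne_zero hr.le ?_
    rw [← hr4, ← pow_mul]
    exact hq
  have a2 : μ ≤ 9 * h ^ 2 / r ^ 12 := by
    rw [le_div_iff₀ (by positivity), show r ^ 12 = (r ^ 4) ^ 3 by ring, ← hr4]
    exact h1
  have a3 : √μ ≤ 3 * h / r ^ 6 :=
    Real.sqrt_le_iff.2 ⟨by positivity, a2.trans (le_of_eq (by ring))⟩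
  have hS := S5_nonneg
  have g0 : 0 < Real.Gamma ((κ + 3 : ℕ) - 1 / 2) := Real.Gamma_pos_of_pos (by
    push_cast
    linarith [κ.cast_nonneg (α := ℝ)])
  have g1 := Gamma_half_le hκ (by linarith)
  refine (V_le hk h0).trans ?_
  rw [e1, e2, div_mul_eq_mul_div, le_div_iff₀ (by positivity), hr4,
    show ((κ + 3 : ℕ) : ℝ) ^ 2 = h ^ 4 by push_cast; rw [hκ]; ring]
  calc _ ≤ 8000 * (3 * (r ^ 5)⁻¹ * (6 * S5 * r ^ 6) ^ 3 * (3 * h / r ^ 6)) * h ^ 4 *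
        (2 * (κ + 3)! / h ^ 3) * (9 * h ^ 2 / r ^ 12 * r ^ 4) := by
        gcongr
    _ = (κ + 3)! * (279936000 * S5 ^ 3 * (h ^ 4 / r)) := by field_simp; ring
    _ ≤ (κ + 3)! * (3 * 10 ^ 8 * S5 ^ 3 * 1) := by
        gcongr
        · norm_num
        · exact (div_le_one hr).2 a1
    _ = _ := by ring

variable {κ : ℕ} {η Q h : ℝ} {S : Finset ℕ}

theorem Par.lam (p : Par κ η Q h S) : h ^ 2 ≤ 2 * π * Real.tan η * Q ^ 2 ∧
    2 * π * Real.tan η * Q ^ 2 ≤ 2 * h ^ 2 ∧ Real.tan η ≤ 2 * η ∧ 1 ≤ ‖th η‖ * η := by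
  obtain ⟨-, -, -, -, a5, -, a7, -⟩ := p.basic
  have hπ := Real.pi_gt_three
  have b1 := Real.le_tan a5.le (by linarith)
  have hc : 1 / 2 ≤ Real.cos η := by nlinarith [Real.one_sub_sq_div_two_le_cos (x := η)]
  have hs := Real.sin_le a5.le
  have hs0 : 0 < Real.sin η := Real.sin_pos_of_pos_of_lt_pi a5 (by linarith)
  have b2 : Real.tan η ≤ 2 * η := by
    rw [Real.tan_eq_sin_div_cos, div_le_iff₀ (by linarith)]
    nlinarith
  have c : 0 ≤ 2 * π * Q ^ 2 := by positivity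
  refine ⟨?_, ?_, b2, ?_⟩
  · linarith [mul_le_mul_of_nonneg_right b1 c, p.hη]
  · linarith [mul_le_mul_of_nonneg_right b2 c, p.hη]
  · refine le_trans (le_of_eq ?_) (mul_le_mul_of_nonneg_left hs (norm_nonneg _))
    refine (sq_eq_sq₀ zero_le_one (by positivity)).1 ?_
    rw [mul_pow, th, Complex.sq_norm, show (1 : ℂ) = (1 : ℝ) from rfl, normSq_add_mul_I,
      Real.tan_eq_sin_div_cos]
    field_simp
    linarith [Real.sin_sq_add_cos_sq η]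

theorem num1 {L s : ℝ} (h : 1000 + 32 * s ≤ L) (hs : 0 ≤ s) :
    L ^ 2 * (29 / 100) ≤ 3 * ((15 / 8 * L - 1) ^ 2 / 2 - 4 * (1 + 2 * L)) -
      3 * (L ^ 2 / 300) - (39 / 8 * L ^ 2 + 40 * L + 20 + 32 * s) := by nlinarith

theorem num2 (κ : ℕ) {X : ℝ} (hX : 0 ≤ X) :
    3 * (κ + 2) * ((κ + 2)! * X) + (3 * (κ + 1) ^ 2 + 3 * (κ + 1) + 1) * ((κ + 1)! * X) +
      (κ + 1) ^ 3 * (κ ! * X) ≤ 7 * (κ + 3)! * X := by
  have hκ0 : (0 : ℝ) ≤ κ := κ.cast_nonneg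
  rw [Nat.factorial_succ (κ + 2), Nat.factorial_succ (κ + 1), Nat.factorial_succ κ]
  push_cast
  calc _ = κ ! * X * (κ + 1) * (3 * (κ + 2) ^ 2 + (3 * (κ + 1) ^ 2 + 3 * (κ + 1) + 1) +
        (κ + 1) ^ 2) := by ring
    _ ≤ κ ! * X * (κ + 1) * (7 * (κ + 2) * (κ + 3)) := by gcongr; nlinarith
    _ = _ := by ring

theorem Par.mu (p : Par κ η Q h S) (hh : 10 ≤ h) (hs : 10 ^ 16 * Q ^ 9 * (7 / 8) ^ (κ + 3) ≤ 1)
    {q : ℕ} (hq : q ∈ S) {lam μ : ℝ} (hl : lam = 2 * π * Real.tan η) (hμ : μ = lam / q) :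
    0 < lam ∧ 0 < μ ∧ μ * q = lam ∧ μ * Q ^ 3 ≤ 2 * h ^ 2 ∧ h ^ 2 ≤ 2 * (μ * Q ^ 3) ∧
      lam * q ≤ 1 ∧ μ ≤ lam * q ∧ μ * q ^ 3 ≤ 9 * h ^ 2 ∧ 10 ^ 12 * h ^ 4 ≤ Q ∧
      ∀ j, κ ≤ j → (3 / 4 : ℝ) ^ j ≤ μ := by
  have a2 := p.basic.2.1
  obtain ⟨l1, l2, -, -⟩ := p.lam
  rw [← hl] at l1 l2
  obtain ⟨-, q1, -⟩ := p.hS q hq
  have q2 := (p.ell hq).1
  have hQ4 : 10 ^ 12 * h ^ 4 ≤ Q := by
    refine le_trans ?_ p.hQ
    rw [show h ^ 16 = h ^ 12 * h ^ 4 by ring]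
    gcongr
  have h2 : 100 ≤ h ^ 2 := by nlinarith
  have h4 : h ^ 2 ≤ h ^ 4 := pow_le_pow_right₀ (by linarith) (by norm_num)
  have hQ0 : 0 < Q := by linarith
  have hq0 : (0 : ℝ) < q := by linarith
  have hl0 : 0 < lam := (mul_pos_iff_of_pos_right (show 0 < Q ^ 2 by positivity)).1 (by linarith)
  have hμ0 : 0 < μ := by rw [hμ]; positivity
  have m0 : μ * q = lam := by rw [hμ]; exact div_mul_cancel₀ _ hq0.ne'
  have m2 : h ^ 2 ≤ 2 * (μ * Q ^ 3) := by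
    refine l1.trans ?_
    rw [← m0, show 2 * (μ * Q ^ 3) = μ * (2 * Q) * Q ^ 2 by ring]
    gcongr
  refine ⟨hl0, hμ0, m0, le_trans ?_ l2, m2, ?_, ?_, ?_, hQ4, fun j hj => ?_⟩
  · rw [← m0, show μ * Q ^ 3 = μ * Q * Q ^ 2 by ring]
    gcongr
  · refine le_of_mul_le_mul_right ?_ (show 0 < Q ^ 2 by positivity)
    calc lam * q * Q ^ 2 = lam * Q ^ 2 * q := by ring
      _ ≤ 2 * h ^ 2 * (2 * Q) := by gcongr
      _ = 4 * h ^ 2 * Q := by ring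
      _ ≤ Q * Q := by gcongr; linarith
      _ = _ := by ring
  · rw [← m0, mul_assoc]
    exact le_mul_of_one_le_right hμ0.le (one_le_mul_of_one_le_of_one_le (by linarith) (by linarith))
  · calc μ * q ^ 3 = lam * q ^ 2 := by rw [← m0]; ring
      _ ≤ lam * (2 * Q) ^ 2 := by gcongr
      _ ≤ _ := by linarith
  · refine (pow_le_pow_of_le_one (by norm_num) (by norm_num) hj).trans ?_
    refine le_of_mul_le_mul_right ?_ (show 0 < Q ^ 3 by positivity)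
    calc (3 / 4 : ℝ) ^ κ * Q ^ 3 ≤ (7 / 8) ^ κ * Q ^ 9 :=
          mul_le_mul (pow_le_pow_left₀ (by norm_num) (by norm_num) _)
            (pow_le_pow_right₀ (by linarith) (by norm_num)) (by positivity) (by positivity)
      _ = (8 / 7) ^ 3 * Q ^ 9 * (7 / 8) ^ (κ + 3) := by rw [pow_add]; ring
      _ ≤ 10 ^ 16 * Q ^ 9 * (7 / 8) ^ (κ + 3) := by gcongr; norm_num
      _ ≤ _ := by linarith

theorem Par.cr (p : Par κ η Q h S) {μ ν : ℝ} {j : ℕ} (hμ0 : 0 < μ) (m2 : h ^ 2 ≤ 2 * (μ * Q ^ 3))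
    (m5 : ∀ j, κ ≤ j → (3 / 4 : ℝ) ^ j ≤ μ) (hK : 1 + S2 ≤ Real.log Q) (a : κ ≤ j) (b : j ≤ κ + 3)
    (c : μ ≤ ν) (d : ν ≤ 1) : S3 j ν ≤ j ! / ν * (110 * h ^ 2 * Real.log Q ^ 2) := by
  obtain ⟨-, a2, -, -, -, -, -, -, a9, -⟩ := p.basic
  have b' : (j : ℝ) ≤ h ^ 2 := by rw [← p.hκ]; exact_mod_cast b
  have : 0 < ν := hμ0.trans_le c
  have hS2 := S2_nonneg
  refine (crude (a9.trans a) this d ?_ (by linarith) (by linarith) ((m5 j a).trans c)).trans ?_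
  · calc 5 * (j : ℝ) ≤ 10 * (μ * Q ^ 3) := by linarith
      _ ≤ Q * (ν * Q ^ 3) := by gcongr; linarith
      _ = _ := by ring
  · gcongr

theorem one_q (p : Par κ η Q h S) (hh : 10 ≤ h)
    (hK : 1000 + 32 * S2 + 3 * 10 ^ 10 * S5 ^ 3 ≤ Real.log Q)
    (hs : 10 ^ 16 * Q ^ 9 * (7 / 8) ^ (κ + 3) ≤ 1) (q : ℕ) [Fact q.Prime] (hq : q ∈ S) :
    (κ + 3)! / (2 * π * Real.tan η) * Real.log Q ^ 2 * (28 / 100) ≤
      (T3 q (κ + 3) (2 * π * Real.tan η / q)).re := by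
  obtain ⟨hl0, hμ0, m0, m1, m2, m3, m4, m6, hQ4, m5⟩ := p.mu hh hs hq rfl rfl
  have a2 := p.basic.2.1
  have l2 := p.lam.2.1
  obtain ⟨-, q1, -⟩ := p.hS q hq
  have hS2 := S2_nonneg
  have hS5 : 0 ≤ S5 ^ 3 := pow_nonneg S5_nonneg 3
  have hk : ((κ + 3 : ℕ) : ℝ) = h ^ 2 := by rw [← p.hκ]; push_cast; ring
  have h4 : h ^ 2 ≤ h ^ 4 := pow_le_pow_right₀ (by linarith) (by norm_num)
  have hq0 : (0 : ℝ) < q := by linarith
  have u3 := p.cr hμ0 m2 m5 (by linarith) (Nat.le_add_right κ 3) le_rfl m4 m3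
  generalize 2 * π * Real.tan η = lam at *
  generalize lam / q = μ at *
  have u1 := main_lower (k := κ + 3) (by omega) (by linarith) p.hQ hl0 l2 (by linarith)
  have u2 := main_upper hk hh p.hQ hμ0 m1 m2 (m5 _ (by omega))
  have u4 := V_small q p.hκ hh (p.hQ.trans q1) hμ0 m6
  have u5 := U_ge (κ + 3) hμ0 q
  have u6 := re_T3 q (κ + 3) hμ0
  rw [m0, show μ * q ^ 2 = lam * q by rw [← m0]; ring] at u5
  rw [m0] at u4
  rw [show ((κ + 3)! : ℝ) / μ = q * ((κ + 3)! / lam) by rw [← m0]; field_simp] at u2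
  rw [← div_div] at u3
  have hE0 : (0 : ℝ) < (κ + 3)! / lam := by positivity
  generalize ((κ + 3)! : ℝ) / lam = E at *
  generalize Real.log Q = L at *
  have u7 : S3 (κ + 3) (lam * q) ≤ E * (L ^ 2 / 300) := by
    refine u3.trans ?_
    rw [div_mul_eq_mul_div, div_le_iff₀ hq0, mul_assoc E]
    refine mul_le_mul_of_nonneg_left ?_ hE0.le
    linarith [mul_le_mul_of_nonneg_left (show 33000 * h ^ 2 ≤ q by linarith [sq_nonneg h])
      (sq_nonneg L)]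
  have u8 : E * L ^ 2 * (29 / 100) ≤ (q * (3 * S3 (κ + 3) lam - 3 * S3 (κ + 3) (lam * q)) -
      S3 (κ + 3) μ) / (q - 1) := by
    rw [le_div_iff₀ (by linarith)]
    have v2 := mul_le_mul_of_nonneg_left (num1 (L := L) (by linarith) hS2) (mul_pos hq0 hE0).le
    have v3 := mul_le_mul_of_nonneg_left u1 hq0.le
    have v4 := mul_le_mul_of_nonneg_left u7 hq0.le
    have v5 : 0 ≤ E * L ^ 2 := by positivity
    linarith
  have u9 : E * (3 * 10 ^ 8 * S5 ^ 3) ≤ E * (L ^ 2 / 100) := by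
    refine mul_le_mul_of_nonneg_left ?_ hE0.le
    linarith [le_self_pow₀ (show 1 ≤ L by linarith) two_ne_zero]
  linarith

theorem one_q' (p : Par κ η Q h S) (hh : 10 ≤ h) (hK : 1 + S2 ≤ Real.log Q)
    (hs : 10 ^ 16 * Q ^ 9 * (7 / 8) ^ (κ + 3) ≤ 1) {q : ℕ} (hq : q ∈ S) :
    η * (3 * (κ + 2) * S3 (κ + 2) (2 * π * Real.tan η / q) +
      (3 * (κ + 1) ^ 2 + 3 * (κ + 1) + 1) * S3 (κ + 1) (2 * π * Real.tan η / q) +
      (κ + 1) ^ 3 * S3 κ (2 * π * Real.tan η / q)) ≤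
      (κ + 3)! / (2 * π * Real.tan η) * Real.log Q ^ 2 * (1 / 100) := by
  obtain ⟨hl0, hμ0, m0, -, m2, m3, m4, -, hQ4, m5⟩ := p.mu hh hs hq rfl rfl
  obtain ⟨-, a2, -, -, a5, -⟩ := p.basic
  have q2 := (p.ell hq).1
  have hq0 : (0 : ℝ) < q := by linarith [(p.hS q hq).2.1]
  have hQ0 : 0 < Q := by linarith
  generalize 2 * π * Real.tan η = lam at *
  generalize lam / q = μ at *
  set X := 110 * h ^ 2 * Real.log Q ^ 2 / μ with hX
  have hX0 : 0 ≤ X := by positivity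
  have c : ∀ j, κ ≤ j → j ≤ κ + 3 → S3 j μ ≤ j ! * X := fun j a b =>
    (p.cr hμ0 m2 m5 hK a b le_rfl (m4.trans m3)).trans (le_of_eq (by rw [hX]; ring))
  calc _ ≤ η * (3 * (κ + 2) * ((κ + 2)! * X) +
        (3 * (κ + 1) ^ 2 + 3 * (κ + 1) + 1) * ((κ + 1)! * X) + (κ + 1) ^ 3 * (κ ! * X)) := by
        gcongr <;> exact c _ (by omega) (by omega)
    _ ≤ η * (7 * (κ + 3)! * X) := mul_le_mul_of_nonneg_left (num2 κ hX0) a5.le
    _ = (κ + 3)! / lam * Real.log Q ^ 2 * (770 * h ^ 2 * (η * q)) := by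
        rw [hX, ← m0]
        field_simp
        ring
    _ ≤ _ := by
        refine mul_le_mul_of_nonneg_left (le_of_mul_le_mul_right ?_ hQ0) (by positivity)
        have v2 : η * q * Q ≤ h ^ 2 := by
          rw [← p.hη]
          calc _ ≤ η * (2 * Q) * Q := by gcongr
            _ = η * (2 * 1 * Q ^ 2) := by ring
            _ ≤ _ := by gcongr; linarith [Real.pi_gt_three]
        linarith [mul_le_mul_of_nonneg_left v2 (sq_nonneg h), show 0 ≤ h ^ 4 by positivity]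

theorem low (p : Par κ η Q h S) (hh : 10 ≤ h)
    (hK : 1000 + 32 * S2 + 3 * 10 ^ 10 * S5 ^ 3 ≤ Real.log Q)
    (hs : 10 ^ 16 * Q ^ 9 * (7 / 8) ^ (κ + 3) ≤ 1) :
    (κ + 3)! / η ^ (κ + 3 + 1) * (S.card * Real.log Q ^ 2 / 8) ≤
      ‖∫ t, (hardyZ t : ℂ) ^ 3 * ∑ q ∈ S, tf κ η q t‖ := by
  obtain ⟨-, -, -, -, a5, -, a7, -⟩ := p.basic
  obtain ⟨-, -, l3, l4⟩ := p.lam
  have hπ := Real.pi_pos
  have ht : 0 < Real.tan η := Real.tan_pos_of_pos_of_lt_pi_div_two a5 (by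
    linarith [Real.pi_gt_three])
  set E : ℝ := (κ + 3)! / (2 * π * Real.tan η) * Real.log Q ^ 2 with hE
  set θ := th η with hθ
  have t0 : 0 < ‖θ‖ := (mul_pos_iff_of_pos_right a5).1 (by linarith)
  have t1 : 1 ≤ ‖θ‖ := by nlinarith
  have t2 : ∀ j, j ≤ κ + 2 → ‖θ‖ ^ j ≤ ‖θ‖ ^ (κ + 3) * η := fun j hj => by
    rw [pow_succ, mul_assoc]
    exact (pow_le_pow_right₀ t1 hj).trans (le_mul_of_one_le_right (by positivity) l4)
  have key : ∀ q ∈ S, 2 * π * E / 4 ≤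
      ((∫ t, (hardyZ t : ℂ) ^ 3 * tf κ η q t) / θ ^ (κ + 3)).re := by
    intro q hq
    have := Fact.mk (p.hS q hq).1
    have b1 := one_q p hh hK hs q hq
    have b2 := one_q' p hh (by linarith [S2_nonneg, pow_nonneg S5_nonneg 3]) hs hq
    have hq0 : (0 : ℝ) < q := by exact_mod_cast (p.hS q hq).1.pos
    have hμ : 0 < 2 * π * Real.tan η / q := by positivity
    rw [(corr q a5 (by linarith) κ).2]
    set μ := 2 * π * Real.tan η / q
    set Y := 3 * (κ + 2) * (θ ^ (κ + 2) * T3 q (κ + 2) μ) -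
      (3 * (κ + 1) ^ 2 + 3 * (κ + 1) + 1) * (θ ^ (κ + 1) * T3 q (κ + 1) μ) +
      (κ + 1) ^ 3 * (θ ^ κ * T3 q κ μ) with hY
    have n : ∀ (c : ℝ) (j : ℕ), 0 ≤ c → j ≤ κ + 2 →
        ‖c * (θ ^ j * T3 q j μ)‖ ≤ ‖θ‖ ^ (κ + 3) * η * (c * S3 j μ) := fun c j hc hj => by
      rw [norm_mul, norm_mul, norm_pow, norm_real, Real.norm_of_nonneg hc, mul_left_comm]
      gcongr
      exacts [t2 j hj, norm_T3 q j hμ]
    have n2 := n (3 * (κ + 2)) (κ + 2) (by positivity) le_rfl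
    have n1 := n (3 * (κ + 1) ^ 2 + 3 * (κ + 1) + 1) (κ + 1) (by positivity) (by omega)
    have n0 := n ((κ + 1) ^ 3) κ (by positivity) (by omega)
    push_cast at n0 n1 n2
    have b3 : ‖Y / θ ^ (κ + 3)‖ ≤ E * (1 / 100) := by
      rw [norm_div, norm_pow, div_le_iff₀' (by positivity)]
      refine le_trans ?_ (mul_le_mul_of_nonneg_left b2 (by positivity))
      refine (norm_add_le _ _).trans ((add_le_add_left (norm_sub_le _ _) _).trans ?_)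
      linarith
    have e : 2 * π * (θ ^ (κ + 3) * T3 q (κ + 3) μ -
        3 * (κ + 2) * (θ ^ (κ + 2) * T3 q (κ + 2) μ) +
        (3 * (κ + 1) ^ 2 + 3 * (κ + 1) + 1) * (θ ^ (κ + 1) * T3 q (κ + 1) μ) -
        (κ + 1) ^ 3 * (θ ^ κ * T3 q κ μ)) / θ ^ (κ + 3) =
        (2 * π : ℝ) * (T3 q (κ + 3) μ - Y / θ ^ (κ + 3)) := by
      have := pow_ne_zero (κ + 3) (norm_pos_iff.1 t0)
      rw [hY]
      push_cast
      field_simp
      ring
    rw [e, re_ofReal_mul, sub_re, mul_div_assoc]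
    have hE0 : 0 ≤ E := by positivity
    gcongr
    linarith [re_le_norm (Y / θ ^ (κ + 3))]
  simp only [Finset.mul_sum]
  rw [integral_finsetSum _ fun q hq => by
    have := Fact.mk (p.hS q hq).1
    exact (corr q a5 (by linarith) κ).1]
  have k2 := (Finset.card_nsmul_le_sum _ _ _ key).trans_eq (re_sum _ _).symm
  rw [← Finset.sum_div, nsmul_eq_mul] at k2
  have k3 := k2.trans (re_le_norm _)
  rw [norm_div, norm_pow, le_div_iff₀ (by positivity)] at k3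
  refine le_trans ?_ k3
  have t3 : (η ^ (κ + 3))⁻¹ ≤ ‖θ‖ ^ (κ + 3) := by
    rw [← inv_pow]
    gcongr
    rwa [inv_le_iff_one_le_mul₀ a5]
  calc _ = S.card * ((κ + 3)! / (2 * η) * Real.log Q ^ 2 / 4) * (η ^ (κ + 3))⁻¹ := by
        rw [pow_succ η (κ + 3)]
        field_simp
        ring
    _ ≤ S.card * ((κ + 3)! / Real.tan η * Real.log Q ^ 2 / 4) * ‖θ‖ ^ (κ + 3) := by gcongr
    _ = _ := by rw [hE]; field_simp

end Pool.Agent.MP_74e98a_nt.H98
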