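import Pool.Agent.MP_74e98a_nt.H98.Amp

/-! Mean values against the Gamma weight. -/

namespace Pool.Agent.MP_74e98a_nt.H98

open Complex Filter Topology Set MeasureTheory
open scoped Real Nat
open Pool.Agent.MP_6f2ed2_nt

variable {η : ℝ}

theorem gw_nonneg (k : ℕ) {u : ℝ} (hu : 0 ≤ u) : 0 ≤ gw k η u := by unfold gw; positivity

theorem continuous_gw (k : ℕ) (η : ℝ) : Continuous (gw k η) := by unfold gw; fun_prop

theorem gw_int (k : ℕ) (hη : 0 < η) :
    IntegrableOn (gw k η) (Ioi 0) ∧ ∫ u in Ioi 0, gw k η u = k ! / η ^ (k + 1) := by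
  obtain ⟨h1, h2⟩ := int_wk k hη
  have e : gw k η = fun u => (η ^ k)⁻¹ * wk k (η * u) := by
    funext u
    rw [gw, wk, mul_pow]
    field_simp
  rw [e, integral_const_mul, h2]
  exact ⟨h1.const_mul _, by rw [pow_succ]; field_simp⟩

theorem gw_second (k : ℕ) (hη : 0 < η) :
    IntegrableOn (fun u => gw k η u * (u - k / η) ^ 2) (Ioi 0) ∧
      ∫ u in Ioi 0, gw k η u * (u - k / η) ^ 2 = k ! / η ^ (k + 1) * ((k + 2) / η ^ 2) := by
  obtain ⟨a0, b0⟩ := gw_int k hη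
  obtain ⟨a1, b1⟩ := gw_int (k + 1) hη
  obtain ⟨a2, b2⟩ := gw_int (k + 2) hη
  have e : (fun u => gw k η u * (u - k / η) ^ 2) = fun u =>
      gw (k + 2) η u - 2 * (k / η) * gw (k + 1) η u + (k / η) ^ 2 * gw k η u := by
    funext u
    simp only [gw]
    ring
  rw [e]
  refine ⟨(a2.sub (a1.const_mul _)).add (a0.const_mul _), ?_⟩
  rw [integral_add _ (a0.const_mul _), integral_sub a2 (a1.const_mul _),
    integral_const_mul, integral_const_mul, b0, b1, b2]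
  · simp only [Nat.factorial_succ]
    push_cast
    field_simp
    ring
  · exact a2.sub (a1.const_mul _)

theorem gw_osc (k : ℕ) (hη : 0 < η) (δ : ℝ) :
    IntegrableOn (fun u : ℝ => (gw k η u : ℂ) * exp (I * (u * δ : ℝ))) (Ioi 0) ∧
      ‖∫ u in Ioi 0, (gw k η u : ℂ) * exp (I * (u * δ : ℝ))‖ = k ! / ‖(η - I * δ : ℂ)‖ ^ (k + 1) := by
  have e : (fun u : ℝ => (gw k η u : ℂ) * exp (I * (u * δ : ℝ))) = fun u : ℝ =>
      (u : ℂ) ^ (((k + 1 : ℕ) : ℂ) - 1) * exp (-((η - I * δ) * u)) := by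
    funext u
    rw [gw, show ((k + 1 : ℕ) : ℂ) - 1 = k by push_cast; ring, cpow_natCast]
    push_cast
    rw [mul_assoc, ← exp_add]
    congr 2
    ring
  have h1 : 0 < ((k + 1 : ℕ) : ℂ).re := by simp only [natCast_re]; positivity
  have h2 : 0 < (η - I * δ : ℂ).re := by simpa using hη
  rw [e, H35.gamma_cplx h1 h2, cpow_neg, cpow_natCast, Nat.cast_succ, Gamma_nat_eq_factorial,
    norm_mul, norm_inv, norm_pow, norm_natCast, ← Nat.cast_succ]
  exact ⟨H35.integrableOn_gamma h1 h2, by rw [div_eq_inv_mul]⟩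

/-- an exponential sum -/
noncomputable def DP (S : Finset ℕ) (b : ℕ → ℂ) (l : ℕ → ℝ) (u : ℝ) : ℂ :=
  ∑ q ∈ S, b q * exp (I * (u * l q : ℝ))

theorem continuous_DP (S : Finset ℕ) (b : ℕ → ℂ) (l : ℕ → ℝ) : Continuous (DP S b l) := by
  unfold DP; fun_prop

theorem hasDerivAt_DP (S : Finset ℕ) (b : ℕ → ℂ) (l : ℕ → ℝ) (u : ℝ) :
    HasDerivAt (DP S b l) (DP S (fun q => b q * (I * l q)) l u) u := by
  refine HasDerivAt.fun_sum fun q _ => ?_
  refine (((((hasDerivAt_id u).mul_const (l q)).ofReal_comp.const_mul I).cexp).const_mul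
    (b q)).congr_deriv ?_
  simp only [id, one_mul]
  ring

theorem mvt (k : ℕ) (hη : 0 < η) (S : Finset ℕ) (b : ℕ → ℂ) (l : ℕ → ℝ)
    (hs : ∀ q ∈ S, ∀ r ∈ S, q ≠ r → S.card * η ^ (k + 1) ≤ |l q - l r| ^ (k + 1)) :
    IntegrableOn (fun u => gw k η u * ‖DP S b l u‖ ^ 2) (Ioi 0) ∧
      ∫ u in Ioi 0, gw k η u * ‖DP S b l u‖ ^ 2 ≤ 2 * (k ! / η ^ (k + 1)) * ∑ q ∈ S, ‖b q‖ ^ 2 := by
  set m : ℝ := k ! / η ^ (k + 1) with hm
  have hm0 : 0 < m := by positivity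
  have e : ∀ u, ((gw k η u * ‖DP S b l u‖ ^ 2 : ℝ) : ℂ) = ∑ q ∈ S, ∑ r ∈ S,
      b q * (starRingEnd ℂ) (b r) * (gw k η u * exp (I * (u * (l q - l r) : ℝ))) := by
    intro u
    rw [ofReal_mul, ofReal_pow, ← mul_conj', DP, map_sum, Finset.sum_mul_sum, Finset.mul_sum]
    refine Finset.sum_congr rfl fun q _ => ?_
    rw [Finset.mul_sum]
    refine Finset.sum_congr rfl fun r _ => ?_
    rw [map_mul, ← exp_conj, map_mul, conj_I, conj_ofReal,
      show (I * (u * (l q - l r) : ℝ) : ℂ) = I * (u * l q : ℝ) + -I * (u * l r : ℝ) by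
        push_cast; ring, exp_add]
    ring
  have i1 : ∀ q r, IntegrableOn (fun u : ℝ =>
      b q * (starRingEnd ℂ) (b r) * (gw k η u * exp (I * (u * (l q - l r) : ℝ)))) (Ioi 0) :=
    fun q r => (gw_osc k hη _).1.const_mul _
  have i2 : IntegrableOn (fun u => ((gw k η u * ‖DP S b l u‖ ^ 2 : ℝ) : ℂ)) (Ioi 0) := by
    simp only [e]
    exact integrable_finsetSum _ fun q _ => integrable_finsetSum _ fun r _ => i1 q r
  refine ⟨i2.re, (le_abs_self _).trans ?_⟩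
  rw [← Real.norm_eq_abs, ← norm_real, ← integral_complex_ofReal]
  simp only [e]
  rw [integral_finsetSum _ fun q _ => integrable_finsetSum _ fun r _ => i1 q r]
  have h3 : ∀ q ∈ S, ‖∫ u in Ioi 0, ∑ r ∈ S,
      b q * (starRingEnd ℂ) (b r) * (gw k η u * exp (I * (u * (l q - l r) : ℝ)))‖ ≤
      ∑ r ∈ S, (m / S.card * (‖b q‖ * ‖b r‖) + if q = r then m * ‖b q‖ ^ 2 else 0) := by
    intro q hq
    have hn : (0 : ℝ) < S.card := by exact_mod_cast Finset.card_pos.2 ⟨q, hq⟩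
    rw [integral_finsetSum _ fun r _ => i1 q r]
    refine (norm_sum_le _ _).trans (Finset.sum_le_sum fun r hr => ?_)
    rw [integral_const_mul, norm_mul, norm_mul, norm_conj, (gw_osc k hη _).2]
    split_ifs with h
    · rw [← h, sub_self, ofReal_zero, mul_zero, sub_zero, norm_real, Real.norm_of_nonneg hη.le]
      have : 0 ≤ m / S.card * (‖b q‖ * ‖b q‖) := by positivity
      nlinarith
    · rw [add_zero, mul_comm]
      refine mul_le_mul_of_nonneg_right ?_ (by positivity)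
      rw [hm, div_div, mul_comm (η ^ (k + 1))]
      refine div_le_div_of_nonneg_left (by positivity) (by positivity) ((hs q hq r hr h).trans ?_)
      gcongr
      simpa [abs_sub_comm] using abs_im_le_norm (η - I * (l q - l r : ℝ) : ℂ)
  refine (norm_sum_le _ _).trans ((Finset.sum_le_sum h3).trans ?_)
  simp only [Finset.sum_add_distrib, Finset.sum_ite_eq, ← Finset.mul_sum, ← Finset.sum_mul]
  have h4 : ∑ q ∈ S, (if q ∈ S then m * ‖b q‖ ^ 2 else 0) = m * ∑ q ∈ S, ‖b q‖ ^ 2 := by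
    rw [Finset.mul_sum]
    exact Finset.sum_congr rfl fun q hq => if_pos hq
  have h5 : m / S.card * ((∑ q ∈ S, ‖b q‖) * ∑ q ∈ S, ‖b q‖) ≤ m * ∑ q ∈ S, ‖b q‖ ^ 2 := by
    rcases S.eq_empty_or_nonempty with rfl | h
    · simp
    · have hn : (0 : ℝ) < S.card := by exact_mod_cast h.card_pos
      rw [← sq, div_mul_eq_mul_div, div_le_iff₀ hn, mul_assoc, mul_comm _ (S.card : ℝ)]
      exact mul_le_mul_of_nonneg_left sq_sum_le_card_mul_sum_sq hm0.le
  linarith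

theorem shift_le {F : ℝ → ℝ} {a b σ : ℝ} (hF : IntegrableOn F (Ioi 0)) (h0 : ∀ u, 0 ≤ u → 0 ≤ F u)
    (ha : 0 ≤ a + σ) (hab : a ≤ b) : ∫ t in a..b, F (t + σ) ≤ ∫ u in Ioi 0, F u := by
  rw [intervalIntegral.integral_comp_add_right, intervalIntegral.integral_of_le (by linarith)]
  refine setIntegral_mono_set hF ((ae_restrict_iff' measurableSet_Ioi).2
    (.of_forall fun u hu => h0 u (le_of_lt hu))) (LE.le.eventuallyLE fun u hu => ?_)
  exact ha.trans_lt hu.1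

theorem mvt' (k : ℕ) (hη : 0 < η) (S : Finset ℕ) (c : ℕ → ℂ) (l : ℕ → ℝ)
    (hs : ∀ q ∈ S, ∀ r ∈ S, q ≠ r → S.card * η ^ (k + 1) ≤ |l q - l r| ^ (k + 1))
    {a b σ : ℝ} (ha : 0 ≤ a + σ) (hab : a ≤ b) :
    ∫ t in a..b, gw k η (t + σ) * ‖DP S c l t‖ ^ 2 ≤
      2 * (k ! / η ^ (k + 1)) * ∑ q ∈ S, ‖c q‖ ^ 2 := by
  obtain ⟨h1, h2⟩ := mvt k hη S (fun q => c q * exp (-(σ * l q : ℝ) * I)) l hs
  have e : ∀ t, DP S c l t = DP S (fun q => c q * exp (-(σ * l q : ℝ) * I)) l (t + σ) := fun t =>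
    Finset.sum_congr rfl fun q _ => by
      rw [mul_assoc, ← exp_add]
      congr 2
      push_cast
      ring
  simp only [e]
  refine (shift_le h1 (fun u hu => mul_nonneg (gw_nonneg k hu) (sq_nonneg _)) ha hab).trans
    (h2.trans (le_of_eq ?_))
  simp only [norm_mul, ← ofReal_neg, norm_exp_ofReal_mul_I, mul_one]

end Pool.Agent.MP_74e98a_nt.H98
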