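import Pool.Agent.MP_74e98a_nt.H98.Mvt

/-! The correlation is bounded by the oscillation of the cubic moment. -/

namespace Pool.Agent.MP_74e98a_nt.H98

open Complex Filter Topology Set MeasureTheory
open scoped Real Nat
open Pool.Agent.MP_6f2ed2_nt Pool.Agent.MP_6f2ed2_nt.H1
open H93 (Fq ell th0)

theorem log_sep {Q : ℝ} {q r : ℕ} (hq : 1 ≤ q) (h : q < r) (hr : (r : ℝ) ≤ 2 * Q) :
    1 / (2 * Q) ≤ Real.log r - Real.log q := by
  have h0 : (0 : ℝ) < q := by exact_mod_cast hq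
  have h1 : (q : ℝ) + 1 ≤ r := by exact_mod_cast h
  have h2 := Real.log_le_sub_one_of_pos (show (0 : ℝ) < q / r by
    have : (0 : ℝ) < r := by linarith
    positivity)
  rw [Real.log_div h0.ne' (by linarith)] at h2
  have h3 : 1 / (2 * Q) ≤ 1 / (r : ℝ) := one_div_le_one_div_of_le (by linarith) hr
  have h4 : (q : ℝ) / r + 1 / r ≤ 1 := by rw [← add_div, div_le_one (by linarith)]; exact h1
  linarith

theorem log_cos {η : ℝ} (h0 : 0 < η) (h1 : η ≤ 1) : |Real.log (Real.cos η)| ≤ η := by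
  have a := Real.one_sub_sq_div_two_le_cos (x := η)
  have hc : 1 / 2 ≤ Real.cos η := by nlinarith
  have b := Real.one_sub_inv_le_log_of_pos (show 0 < Real.cos η by linarith)
  rw [abs_of_nonpos (Real.log_nonpos (by linarith) (Real.cos_le_one η))]
  have c : (Real.cos η)⁻¹ ≤ 1 + η := by
    rw [inv_le_iff_one_le_mul₀ (by linarith)]
    nlinarith [mul_le_mul_of_nonneg_left a (show 0 ≤ 1 + η by linarith), mul_pos h0 h0]
  linarith

theorem ell_close {Q t : ℝ} (hQ : 0 < Q) (ht : π * Q ^ 2 ≤ t) :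
    |Real.log Q - ell t| ≤ |t - 2 * π * Q ^ 2| / (2 * π * Q ^ 2) := by
  have hπ := Real.pi_pos
  set T := 2 * π * Q ^ 2 with hT
  have hT0 : 0 < T := by positivity
  have ht0 : 0 < t := lt_of_lt_of_le (by positivity) ht
  have e : Real.log Q - ell t = -(Real.log (t / T) / 2) := by
    rw [ell, hT, ← div_div t (2 * π), Real.log_div (y := Q ^ 2) (by positivity) (by positivity),
      Real.log_pow]
    push_cast
    ring
  have a := Real.log_le_sub_one_of_pos (div_pos ht0 hT0)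
  have b := Real.one_sub_inv_le_log_of_pos (div_pos ht0 hT0)
  have c1 : t / T - 1 ≤ |t - T| / T := by
    rw [div_sub_one hT0.ne']
    exact div_le_div_of_nonneg_right (le_abs_self _) hT0.le
  have c2 : (t / T)⁻¹ - 1 ≤ 2 * (|t - T| / T) := by
    rw [inv_div, div_sub_one ht0.ne', ← mul_div_assoc, div_le_div_iff₀ ht0 hT0]
    have := neg_abs_le (t - T)
    nlinarith [abs_nonneg (t - T)]
  have c3 : 0 ≤ |t - T| / T := by positivity
  rw [e, abs_neg, abs_le]
  constructor <;> linarith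

/-- the admissible parameters -/
structure Par (κ : ℕ) (η Q h : ℝ) (S : Finset ℕ) : Prop where
  hκ : (κ : ℝ) + 3 = h ^ 2
  hh : 2 ≤ h
  hη : η * (2 * π * Q ^ 2) = h ^ 2
  hQ : h ^ 16 ≤ Q
  hS : ∀ q ∈ S, q.Prime ∧ Q ≤ q ∧ q ≤ Q + Q / h
  hn : S.Nonempty

variable {κ : ℕ} {η Q h : ℝ} {S : Finset ℕ}

theorem Par.basic (p : Par κ η Q h S) : h ^ 4 ≤ Q ∧ 16 ≤ Q ∧ 8 * h ≤ Q ∧ h ^ 2 ≤ Q ∧ 0 < η ∧
    6 * η * Q ≤ 1 ∧ η ≤ 1 / 4 ∧ η * κ ≤ 1 ∧ 1 ≤ κ ∧ Q / h ≤ Q := by
  have h2 := p.hh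
  have h4 : 4 ≤ h ^ 2 := by nlinarith
  have a1 : h ^ 4 ≤ Q := (pow_le_pow_right₀ (by linarith) (by norm_num)).trans p.hQ
  have a2 : 16 ≤ Q := by nlinarith
  have a3 : 8 * h ≤ Q := by nlinarith
  have a4 : h ^ 2 ≤ Q := by nlinarith
  have hπ := Real.pi_gt_three
  have a5 : 0 < η := (mul_pos_iff_of_pos_right (show 0 < 2 * π * Q ^ 2 by positivity)).1
    (by rw [p.hη]; positivity)
  have b : 6 * η * Q ^ 2 ≤ h ^ 2 := by
    rw [← p.hη]
    nlinarith [mul_pos a5 (show 0 < Q ^ 2 by positivity)]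
  have a6 : 6 * η * Q ≤ 1 := le_of_mul_le_mul_right (by nlinarith) (show 0 < Q by linarith)
  have a9 : (1 : ℝ) ≤ κ := by linarith [p.hκ]
  refine ⟨a1, a2, a3, a4, a5, a6, by nlinarith, by nlinarith [p.hκ], by exact_mod_cast a9,
    div_le_self (by linarith) (by linarith)⟩

theorem Par.card (p : Par κ η Q h S) : (1 : ℝ) ≤ S.card ∧ (S.card : ℝ) ≤ 2 * Q := by
  obtain ⟨-, a2, -, -, -, -, -, -, -, a10⟩ := p.basic
  refine ⟨by exact_mod_cast p.hn.card_pos, ?_⟩
  have : S ⊆ Finset.Icc 1 ⌊2 * Q⌋₊ := fun q hq => Finset.mem_Icc.2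
    ⟨(p.hS q hq).1.one_le, Nat.le_floor (by linarith [(p.hS q hq).2.2])⟩
  have := Finset.card_le_card this
  rw [Nat.card_Icc, add_tsub_cancel_right] at this
  exact (Nat.cast_le.2 this).trans (Nat.floor_le (by linarith))

theorem Par.sep (p : Par κ η Q h S) : ∀ q ∈ S, ∀ r ∈ S, q ≠ r → S.card * η ^ (κ + 3 + 1) ≤
    |(Real.log q - Real.log Q) - (Real.log r - Real.log Q)| ^ (κ + 3 + 1) := by
  obtain ⟨a1, a2, -, -, a5, a6, -, -, -, a10⟩ := p.basic
  intro q hq r hr hne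
  have b1 : 1 / (2 * Q) ≤ |(Real.log q - Real.log Q) - (Real.log r - Real.log Q)| := by
    rcases hne.lt_or_gt with c | c
    · have := log_sep (p.hS q hq).1.one_le c (Q := Q) (by linarith [(p.hS r hr).2.2])
      exact le_abs.2 (Or.inr (by linarith))
    · have := log_sep (p.hS r hr).1.one_le c (Q := Q) (by linarith [(p.hS q hq).2.2])
      exact le_abs.2 (Or.inl (by linarith))
  refine le_trans ?_ (pow_le_pow_left₀ (by positivity) b1 _)
  have b2 : (2 * Q * η) ^ (κ + 3 + 1) ≤ (2 * Q * η) ^ 2 :=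
    pow_le_pow_of_le_one (by positivity) (by linarith) (by omega)
  have b3 : 2 * Q * (2 * Q * η) ^ 2 ≤ 1 := by
    have hπ := Real.pi_gt_three
    have c : (η * (2 * π * Q ^ 2)) ^ 2 ≤ Q := by rw [p.hη]; linarith
    have c2 : 9 ≤ π ^ 2 := by nlinarith
    refine le_of_mul_le_mul_right ?_ (show 0 < Q by linarith)
    nlinarith [mul_le_mul_of_nonneg_left c2 (sq_nonneg (η * Q ^ 2))]
  rw [one_div, inv_pow, ← one_div, le_div_iff₀ (by positivity), mul_assoc, ← mul_pow, mul_comm η]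
  exact (mul_le_mul p.card.2 b2 (by positivity) (by positivity)).trans b3

theorem Par.ell (p : Par κ η Q h S) {q : ℕ} (hq : q ∈ S) :
    (q : ℝ) ≤ 2 * Q ∧ |Real.log q - Real.log Q| ≤ 1 / h := by
  obtain ⟨-, a2, -, -, -, -, -, -, -, a10⟩ := p.basic
  obtain ⟨-, b1, b2⟩ := p.hS q hq
  refine ⟨by linarith, ?_⟩
  rw [abs_of_nonneg (sub_nonneg.2 (Real.log_le_log (by linarith) b1)),
    ← Real.log_div (by linarith) (by linarith)]
  refine (Real.log_le_sub_one_of_pos (div_pos (by linarith) (by linarith))).trans ?_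
  rw [sub_le_iff_le_add, div_le_iff₀ (by linarith)]
  linarith [show (1 / h + 1) * Q = Q + Q / h by ring]

theorem Par.rho (p : Par κ η Q h S) {C t : ℝ} (hC : C ≤ Q) (ht : π * Q ^ 2 ≤ t) :
    C / (π * Q ^ 2 / 2) + |Real.log Q - H93.ell t| +
      ((κ + 3) / t + (|Real.log (Real.cos η)| + |η|) + π * Real.exp (-(π * t))) ≤
      |t + κ - 2 * π * Q ^ 2| / (2 * π * Q ^ 2) + 1 / h := by
  obtain ⟨a1, a2, a3, a4, a5, a6, a7, -, -, -⟩ := p.basic
  have hπ := Real.pi_gt_three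
  have hQ : 0 < Q := by linarith
  have hq2 : 3 * Q ^ 2 ≤ t := by nlinarith [sq_nonneg Q]
  have ht0 : 0 < t := by nlinarith
  have b1 : C / (π * Q ^ 2 / 2) ≤ 1 / Q := by
    rw [div_le_div_iff₀ (by positivity) hQ]
    nlinarith [sq_nonneg Q]
  have b2 : (κ + 3) / t ≤ 1 / Q := by
    rw [div_le_div_iff₀ ht0 hQ, p.hκ]
    nlinarith
  have b3 : η ≤ 1 / Q := by rw [le_div_iff₀ hQ]; nlinarith
  have b4 : π * Real.exp (-(π * t)) ≤ 1 / Q := by
    rw [Real.exp_neg, ← div_eq_mul_inv, div_le_div_iff₀ (Real.exp_pos _) hQ]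
    have : Q ≤ t := by nlinarith
    nlinarith [Real.add_one_le_exp (π * t)]
  have b5 : |t - 2 * π * Q ^ 2| / (2 * π * Q ^ 2) ≤
      |t + κ - 2 * π * Q ^ 2| / (2 * π * Q ^ 2) + 1 / Q := by
    have c1 : |t - 2 * π * Q ^ 2| ≤ |t + κ - 2 * π * Q ^ 2| + (κ : ℝ) := by
      have := abs_sub (t + κ - 2 * π * Q ^ 2) (κ : ℝ)
      rwa [show t + κ - 2 * π * Q ^ 2 - κ = t - 2 * π * Q ^ 2 by ring, Nat.abs_cast] at this
    have c2 : κ / (2 * π * Q ^ 2) ≤ 1 / Q := by
      rw [div_le_div_iff₀ (by positivity) hQ]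
      nlinarith [p.hκ, sq_nonneg Q]
    refine (div_le_div_of_nonneg_right c1 (by positivity)).trans ?_
    rw [add_div]
    linarith
  have b6 : 8 * (1 / Q) ≤ 1 / h := by
    rw [mul_one_div, div_le_div_iff₀ hQ (by linarith [p.hh])]
    linarith
  have b7 : 0 < 1 / Q := by positivity
  rw [abs_of_pos a5]
  linarith [ell_close hQ ht, log_cos a5 (by linarith)]

theorem sum_tf (p : Par κ η Q h S) (t : ℝ) : ∑ q ∈ S, tf κ η q t =
    Am κ η (Real.log Q) t * DP S (fun q => (√q : ℝ)) (fun q => Real.log q - Real.log Q) t := by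
  rw [DP, Finset.mul_sum]
  exact Finset.sum_congr rfl fun q hq => tf_eq κ η _ (p.hS q hq).1.one_le t

theorem norm_sum_tf (p : Par κ η Q h S) {t : ℝ}
    (ht : η * t ≤ (κ + 3) / 2 ∨ 2 * (κ + 3) ≤ η * t) : ‖∑ q ∈ S, tf κ η q t‖ ≤
      (κ + 3)! / η ^ (κ + 3 + 1) * S.card * (18 * η * Q * (7 / 8) ^ (κ + 3)) *
        Real.exp (-(η / 20 * |t|)) := by
  obtain ⟨-, a2, -, -, a5, -, a7, a8, a9, -⟩ := p.basic
  have b : ‖DP S (fun q => (√q : ℝ)) (fun q => Real.log q - Real.log Q) t‖ ≤ S.card * (2 * Q) := by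
    rw [← nsmul_eq_mul]
    refine (norm_sum_le _ _).trans (Finset.sum_le_card_nsmul _ _ _ fun q hq => ?_)
    rw [norm_mul, mul_comm I, norm_exp_ofReal_mul_I, mul_one, norm_real,
      Real.norm_of_nonneg (Real.sqrt_nonneg _)]
    exact Real.sqrt_le_iff.2 ⟨by linarith, by nlinarith [(p.ell hq).1]⟩
  rw [sum_tf p, norm_mul, norm_Am]
  refine (mul_le_mul (norm_R_tail a9 a5 a7 a8 ht) b (norm_nonneg _) (by positivity)).trans
    (le_of_eq ?_)
  rw [pow_succ η (κ + 3)]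
  field_simp
  ring

theorem tail_le (p : Par κ η Q h S) (hs : 10 ^ 16 * Q ^ 9 * (7 / 8) ^ (κ + 3) ≤ 1) :
    ‖∫ t in (Ioc (π * Q ^ 2) (4 * π * Q ^ 2))ᶜ, (hardyZ t : ℂ) ^ 3 * ∑ q ∈ S, tf κ η q t‖ ≤
      (κ + 3)! / η ^ (κ + 3 + 1) * S.card := by
  obtain ⟨-, a2, -, -, a5, -, a7, -, -, -⟩ := p.basic
  set M : ℝ := (κ + 3)! / η ^ (κ + 3 + 1) * S.card with hM
  have hM0 : 0 ≤ M := by positivity
  set D : ℝ := 8 * (M * (18 * η * Q * (7 / 8) ^ (κ + 3))) *
    ((3 + 2)! * Real.exp (η / 20) / (η / 20) ^ (3 + 2)) with hD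
  rw [← integral_indicator measurableSet_Ioc.compl]
  refine (norm_integral_le_of_norm_le (integrable_inv_one_add_sq.const_mul D)
    (.of_forall fun t => ?_)).trans ?_
  · by_cases ht : t ∈ (Ioc (π * Q ^ 2) (4 * π * Q ^ 2))ᶜ
    · rw [indicator_of_mem ht, norm_mul, norm_pow, norm_real, Real.norm_eq_abs]
      have b1 : |hardyZ t| ≤ 2 * (1 + |t|) := by
        linarith [(f_abs_Z t).trans (zeta_bound_lin t), abs_nonneg t]
      have b2 := norm_sum_tf p (t := t) (by
        rw [p.hκ, ← p.hη]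
        rcases not_and_or.1 ht with c | c
        · exact Or.inl (by nlinarith [not_lt.1 c])
        · exact Or.inr (by nlinarith [not_le.1 c]))
      have b3 := pow_exp_le 3 (show 0 < η / 20 by positivity) t
      calc _ ≤ (2 * (1 + |t|)) ^ 3 * (M * (18 * η * Q * (7 / 8) ^ (κ + 3)) *
            Real.exp (-(η / 20 * |t|))) := by gcongr
        _ = 8 * (M * (18 * η * Q * (7 / 8) ^ (κ + 3))) *
            ((1 + |t|) ^ 3 * Real.exp (-(η / 20 * |t|))) := by ring
        _ ≤ _ := by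
          rw [hD, mul_assoc _ _ (_ : ℝ)⁻¹]
          gcongr
    · rw [indicator_of_notMem ht, norm_zero]
      positivity
  · rw [integral_const_mul, integral_univ_inv_one_add_sq]
    have hπ := Real.pi_lt_four
    have b1 : Real.exp (η / 20) ≤ 3 :=
      (Real.exp_le_exp.2 (show η / 20 ≤ 1 by linarith)).trans (by linarith [Real.exp_one_lt_d9])
    have b2 : η⁻¹ ≤ 2 * Q ^ 2 := by
      rw [inv_le_iff_one_le_mul₀ a5]
      have c1 : 4 ≤ h ^ 2 := by nlinarith [p.hh]
      have c2 := mul_le_mul_of_nonneg_left hπ.le (show 0 ≤ η * Q ^ 2 by positivity)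
      linarith [p.hη]
    calc D * π = M * (8 * 18 * 120 * 20 ^ 5 * Real.exp (η / 20) * π * Q * η⁻¹ ^ 4 *
          (7 / 8) ^ (κ + 3)) := by
          rw [hD]
          simp only [Nat.factorial]
          push_cast
          field_simp
      _ ≤ M * (8 * 18 * 120 * 20 ^ 5 * 3 * 4 * Q * (2 * Q ^ 2) ^ 4 * (7 / 8) ^ (κ + 3)) := by
          gcongr
      _ ≤ M * 1 := by
          refine mul_le_mul_of_nonneg_left (le_trans ?_ hs) hM0
          refine mul_le_mul_of_nonneg_right ?_ (by positivity)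
          nlinarith [show 0 ≤ Q ^ 9 by positivity]
      _ = _ := mul_one _

theorem tv : ∃ K : ℝ, ∀ (κ : ℕ) (η Q h B : ℝ) (S : Finset ℕ), Par κ η Q h S → K ≤ Q →
    10 ^ 16 * Q ^ 9 * (7 / 8) ^ (κ + 3) ≤ 1 →
    (∀ t ∈ Icc (π * Q ^ 2) (4 * π * Q ^ 2), |∫ x in (π * Q ^ 2)..t, hardyZ x ^ 3| ≤ B) →
    ‖∫ t, (hardyZ t : ℂ) ^ 3 * ∑ q ∈ S, tf κ η q t‖ ≤
      (κ + 3)! / η ^ (κ + 3 + 1) * (S.card + 30 * B * √(S.card * Q) / h) := by
  obtain ⟨C, t0, hC, hL⟩ := LD_Am
  refine ⟨max C t0, fun κ η Q h B S p hK hs hB => ?_⟩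
  obtain ⟨-, a2, -, -, a5, a6, a7, a8, a9, -⟩ := p.basic
  obtain ⟨n1, n2⟩ := p.card
  have hπ := Real.pi_gt_three
  have hh : 0 < h := by linarith [p.hh]
  have hκ0 : (0 : ℝ) ≤ κ := κ.cast_nonneg
  set k := κ + 3 with hk
  have hk' : (k : ℝ) = h ^ 2 := by rw [hk, ← p.hκ]; push_cast; ring
  set m : ℝ := k ! / η ^ (k + 1) with hm
  have hm0 : 0 < m := by positivity
  set a := π * Q ^ 2 with ha
  set T := 2 * π * Q ^ 2 with hT
  set b := 4 * π * Q ^ 2 with hb
  have ha0 : 0 < a := by positivity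
  have hT0 : 0 < T := by positivity
  have hab : a ≤ b := by rw [hb]; linarith
  have hTk : T = k / η := by rw [hk', ← p.hη, hT]; field_simp
  set N := √(S.card * Q) with hN
  have hN2 : N ^ 2 = S.card * Q := Real.sq_sqrt (by positivity)
  have hN1 : 1 ≤ N := Real.le_sqrt_of_sq_le (by nlinarith)
  have hB0 : 0 ≤ B := (abs_nonneg _).trans (hB a (left_mem_Icc.2 hab))
  set l : ℕ → ℝ := fun q => Real.log q - Real.log Q with hl
  set c₀ : ℕ → ℂ := fun q => (√q : ℝ) with hc₀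
  set c₁ : ℕ → ℂ := fun q => c₀ q * (I * l q) with hc₁
  have i0 : Integrable fun t => (hardyZ t : ℂ) ^ 3 * ∑ q ∈ S, tf κ η q t := by
    simp only [Finset.mul_sum]
    refine integrable_finsetSum _ fun q hq => ?_
    have := Fact.mk (p.hS q hq).1
    exact (corr q a5 (by linarith) κ).1
  have s0 : ∑ q ∈ S, ‖c₀ q‖ ^ 2 ≤ 2 * N ^ 2 := by
    rw [hN2, mul_left_comm, ← nsmul_eq_mul]
    refine Finset.sum_le_card_nsmul _ _ _ fun q hq => ?_
    rw [hc₀, norm_real, Real.norm_eq_abs, sq_abs, Real.sq_sqrt q.cast_nonneg]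
    exact (p.ell hq).1
  have s1 : ∑ q ∈ S, ‖c₁ q‖ ^ 2 ≤ 2 * N ^ 2 * (1 / h) ^ 2 := by
    refine le_trans ?_ (mul_le_mul_of_nonneg_right s0 (by positivity))
    rw [Finset.sum_mul]
    refine Finset.sum_le_sum fun q hq => ?_
    rw [hc₁, norm_mul, norm_mul, norm_I, one_mul, norm_real (l q), mul_pow]
    gcongr
    exact (p.ell hq).2
  set W : ℝ → ℝ := fun t => 3 * (h * N / T ^ 2 * (gw k η (t + κ) * (t + κ - k / η) ^ 2) +
    3 * N / (2 * h) * gw k η (t + κ) + 1 / (2 * h * N) * (gw k η (t + κ) * ‖DP S c₀ l t‖ ^ 2) +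
    h / (2 * N) * (gw k η (t + κ) * ‖DP S c₁ l t‖ ^ 2)) with hW
  have g0 : Continuous fun t => gw k η (t + κ) := (continuous_gw k η).comp (by fun_prop)
  have g1 : Continuous fun t => gw k η (t + κ) * (t + κ - k / η) ^ 2 := g0.mul (by fun_prop)
  have g2 : ∀ c, Continuous fun t => gw k η (t + κ) * ‖DP S c l t‖ ^ 2 :=
    fun c => g0.mul ((continuous_DP S c l).norm.pow 2)
  have hWc : Continuous W := continuous_const.mul ((((g1.const_mul _).add (g0.const_mul _)).add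
    ((g2 _).const_mul _)).add ((g2 _).const_mul _))
  have hWi : ∫ t in a..b, W t ≤ 29 * (m * N / h) := by
    have hak : 0 ≤ a + κ := by positivity
    have u0 := shift_le (gw_int k a5).1 (fun u hu => gw_nonneg k hu) hak hab
    have u1 := shift_le (gw_second k a5).1
      (fun u hu => mul_nonneg (gw_nonneg k hu) (sq_nonneg _)) hak hab
    have u2 := (mvt' k a5 S c₀ l p.sep hak hab).trans
      (mul_le_mul_of_nonneg_left s0 (by positivity))
    have u3 := (mvt' k a5 S c₁ l p.sep hak hab).trans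
      (mul_le_mul_of_nonneg_left s1 (by positivity))
    rw [(gw_int k a5).2] at u0
    rw [(gw_second k a5).2] at u1
    rw [hW, intervalIntegral.integral_const_mul, intervalIntegral.integral_add,
      intervalIntegral.integral_add, intervalIntegral.integral_add,
      intervalIntegral.integral_const_mul, intervalIntegral.integral_const_mul,
      intervalIntegral.integral_const_mul, intervalIntegral.integral_const_mul]
    · have v : (k + 2) / η ^ 2 ≤ 2 * T ^ 2 / h ^ 2 := by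
        rw [hTk, hk', div_le_div_iff₀ (by positivity) (by positivity)]
        have : 2 * (h ^ 2 / η) ^ 2 * η ^ 2 = 2 * (h ^ 2 * h ^ 2) := by field_simp
        rw [this]
        nlinarith [p.hκ, sq_nonneg h]
      calc _ ≤ 3 * (h * N / T ^ 2 * (m * (2 * T ^ 2 / h ^ 2)) + 3 * N / (2 * h) * m +
            1 / (2 * h * N) * (2 * m * (2 * N ^ 2)) +
            h / (2 * N) * (2 * m * (2 * N ^ 2 * (1 / h) ^ 2))) := by
            gcongr
            exact u1.trans (mul_le_mul_of_nonneg_left v hm0.le)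
        _ = 45 / 2 * (m * N / h) := by field_simp; ring
        _ ≤ _ := by gcongr; norm_num
    all_goals apply Continuous.intervalIntegrable
    exacts [g1.const_mul _, g0.const_mul _, (g1.const_mul _).add (g0.const_mul _),
      (g2 _).const_mul _, ((g1.const_mul _).add (g0.const_mul _)).add ((g2 _).const_mul _),
      (g2 _).const_mul _]
  have key := ibp (g := fun t => ∑ q ∈ S, tf κ η q t) (continuous_hardyZ.pow 3) hab hWc
    (fun t ht => ?_) hB
  · have bd : ‖∑ q ∈ S, tf κ η q b‖ ≤ m * N / h := by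
      refine (norm_sum_tf p (Or.inr (by rw [p.hκ, ← p.hη, hb]; nlinarith))).trans ?_
      rw [le_div_iff₀ hh]
      have c1 : Real.exp (-(η / 20 * |b|)) ≤ 1 := Real.exp_le_one_iff.2 (by
        have : 0 ≤ η / 20 * |b| := by positivity
        linarith)
      have c2 : Q ^ 2 ≤ Q ^ 9 := pow_le_pow_right₀ (by linarith) (by norm_num)
      have c3 : h ≤ Q := by linarith [p.basic.2.2.1]
      calc _ ≤ m * (2 * Q) * (3 * (7 / 8) ^ k) * 1 * Q := by
            gcongr
            linarith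
        _ = m * (6 * Q ^ 2 * (7 / 8) ^ k) := by ring
        _ ≤ m * (10 ^ 16 * Q ^ 9 * (7 / 8) ^ k) := by gcongr; norm_num
        _ ≤ _ := mul_le_mul_of_nonneg_left (hs.trans hN1) hm0.le
    rw [← integral_add_compl (measurableSet_Ioc (a := a) (b := b)) i0,
      ← intervalIntegral.integral_of_le hab]
    refine (norm_add_le _ _).trans ?_
    simp only [Pi.pow_apply, ofReal_pow] at key
    have := mul_le_mul_of_nonneg_left (add_le_add bd hWi) hB0
    have e : m * (S.card + 30 * B * N / h) = B * (m * N / h + 29 * (m * N / h)) + m * S.card := by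
      ring
    rw [e]
    exact add_le_add (key.trans this) (tail_le p hs)
  · have ht0 : 0 ≤ t := ha0.le.trans ht.1
    obtain ⟨d1, d2⟩ := (hL κ η (Real.log Q) (a / 2) t (by
      have : Q ≤ a / 2 := by rw [ha]; nlinarith
      linarith [le_max_right C t0]) (by positivity) (by linarith [ht.1])).mono
      (p.rho ((le_max_left _ _).trans hK) ht.1)
    have d3 := d1.hasDerivAt.fun_mul (hasDerivAt_DP S c₀ l t)
    simp only [sum_tf p]
    refine ⟨d3.differentiableAt, ?_⟩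
    rw [d3.deriv]
    rw [norm_Am] at d2
    have d4 := norm_R_pos a9 a5 (by linarith) a8 ht0
    have d5 := gw_nonneg (η := η) k (show 0 ≤ t + κ by positivity)
    set ρ := |t + κ - T| / T + 1 / h with hρ
    have hρ0 : 0 ≤ ρ := by positivity
    have d6 : ρ ^ 2 ≤ 2 * ((t + κ - T) ^ 2 / T ^ 2) + 2 / h ^ 2 := by
      rw [← sq_abs (t + κ - T), ← div_pow, show 2 / h ^ 2 = 2 * (1 / h) ^ 2 by ring]
      nlinarith [sq_nonneg (|t + κ - T| / T - 1 / h)]
    set x := ‖DP S c₀ l t‖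
    set y := ‖DP S c₁ l t‖ with hy
    have d7 : ρ * x ≤ h * N / 2 * ρ ^ 2 + 1 / (2 * h * N) * x ^ 2 := by
      have : h * N / 2 * ρ ^ 2 + 1 / (2 * h * N) * x ^ 2 - ρ * x =
          (h * N * ρ - x) ^ 2 / (2 * h * N) := by field_simp; ring
      linarith [show 0 ≤ (h * N * ρ - x) ^ 2 / (2 * h * N) by positivity]
    have d8 : y ≤ N / (2 * h) + h / (2 * N) * y ^ 2 := by
      have : N / (2 * h) + h / (2 * N) * y ^ 2 - y = (N - h * y) ^ 2 / (2 * h * N) := by
        field_simp; ring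
      linarith [show 0 ≤ (N - h * y) ^ 2 / (2 * h * N) by positivity]
    calc _ ≤ ρ * (3 * gw k η (t + κ)) * x + 3 * gw k η (t + κ) * y := by
          refine (norm_add_le _ _).trans ?_
          rw [norm_mul, norm_mul, norm_Am]
          gcongr
          exact d2.trans (mul_le_mul_of_nonneg_left d4 hρ0)
      _ = 3 * gw k η (t + κ) * (ρ * x + y) := by ring
      _ ≤ 3 * gw k η (t + κ) * ((h * N / 2 * (2 * ((t + κ - T) ^ 2 / T ^ 2) + 2 / h ^ 2) +
          1 / (2 * h * N) * x ^ 2) + (N / (2 * h) + h / (2 * N) * y ^ 2)) := by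
          gcongr
          exact d7.trans (by gcongr)
      _ = _ := by
          simp only [hW, ← hTk]
          field_simp
          ring

end Pool.Agent.MP_74e98a_nt.H98
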